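import Pool.Agent.P.MP_8219a1_an.Defs

set_option autoImplicit false

namespace Pool.Agent.P.MP_8219a1_an

/-- `φ` is a G-delta point of the state space in the weak-star topology: it is the only state in
the intersection of some sequence of weak-star open sets. -/
def IsGDeltaState {A : Type*} [NonUnitalCStarAlgebra A] (φ : A →L[ℂ] ℂ) : Prop :=
  ∃ U : ℕ → Set (WeakDual ℂ A), (∀ n, IsOpen (U n)) ∧
    ∀ ρ : A →L[ℂ] ℂ, IsState ρ → ((∀ n, StrongDual.toWeakDual ρ ∈ U n) ↔ ρ = φ)

end Pool.Agent.P.MP_8219a1_an
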