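import Pool.Agent.P.MP_8219a1_an.G.KT
import Pool.Agent.P.MP_8219a1_an.G.Defs

set_option autoImplicit false

open scoped ComplexOrder InnerProductSpace
open Filter Topology

noncomputable section

namespace Pool.Agent.P.MP_8219a1_an.G

variable {A : Type*} [CStarAlgebra A] [PartialOrder A] [StarOrderedRing A]
variable {H : Type*} [NormedAddCommGroup H] [InnerProductSpace ℂ H] [CompleteSpace H]

/-- Ramp functions. -/
def ramp (N : ℕ) (t : ℝ) : ℝ := max 0 (min 1 (3 / 2 - 3 ^ N * (1 - t)))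

theorem cont_ramp (N : ℕ) : Continuous (ramp N) := by unfold ramp; fun_prop

theorem ramp_nonneg (N : ℕ) (t : ℝ) : 0 ≤ ramp N t := le_max_left _ _

theorem ramp_le (N : ℕ) (t : ℝ) : ramp N t ≤ 1 := max_le zero_le_one (min_le_left _ _)

theorem ramp_succ (N : ℕ) (t : ℝ) : ramp (N + 1) t * ramp N t = ramp (N + 1) t := by
  rcases le_total (3 ^ N * (1 - t)) (1 / 2 : ℝ) with h | h
  · rw [ramp, ramp, min_eq_left (a := 1) (b := 3 / 2 - 3 ^ N * (1 - t)) (by linarith),
      max_eq_right zero_le_one, mul_one]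
  · have : ramp (N + 1) t = 0 := by
      refine max_eq_left ((min_le_right _ _).trans ?_)
      rw [pow_succ]
      linarith
    rw [this, zero_mul]

theorem ramp_one (N : ℕ) : ramp N 1 = 1 := by norm_num [ramp]

theorem ramp_zero_add (t : ℝ) : ramp 0 t + ramp 0 (-t) = 1 := by
  simp only [ramp, pow_zero, one_mul, max_def, min_def]
  split_ifs <;> linarith

theorem ramp_mul_le (N : ℕ) {t : ℝ} (ht : t ≤ 1) : |ramp N t * (1 - t)| ≤ 2 * (1 / 3) ^ N := by
  have h3 : (0 : ℝ) < 3 ^ N := by positivity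
  rw [abs_of_nonneg (mul_nonneg (ramp_nonneg N t) (by linarith))]
  rcases le_total (3 ^ N * (1 - t)) (2 : ℝ) with h | h
  · refine (mul_le_of_le_one_left (by linarith) (ramp_le N t)).trans ?_
    rw [one_div, inv_pow, ← div_eq_mul_inv, le_div_iff₀' h3]
    exact h
  · have : ramp N t = 0 := max_eq_left ((min_le_right _ _).trans (by linarith))
    rw [this, zero_mul]
    positivity

/-- The state `φ` is the only state with value one at `a`. -/
structure Peak (a : A) (φ : A →L[ℂ] ℂ) : Prop where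
  sa : IsSelfAdjoint a
  norm_le : ‖a‖ ≤ 1
  st : St φ
  val : φ a = 1
  uniq : ∀ ρ, St ρ → ρ a = 1 → ρ = φ

/-- An excising sequence. -/
structure Exc (φ : A →L[ℂ] ℂ) (c : ℕ → A) : Prop where
  st : St φ
  nonneg : ∀ N, 0 ≤ c N
  le_one : ∀ N, c N ≤ 1
  succ : ∀ N, c (N + 1) * c N = c (N + 1)
  val : ∀ N, φ (c N) = 1
  exc : ∀ x, Tendsto (fun N => c N * (x - φ x • 1) * c N) atTop (𝓝 0)

/-- Two excising sequences of disjoint states. -/
structure Chain (φ : Bool → A →L[ℂ] ℂ) (c : Bool → ℕ → A) : Prop where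
  ex : ∀ i, Exc (φ i) (c i)
  zero : ∀ i, c i 0 + c (!i) 0 = 1
  disj : ∀ i x, Tendsto (fun N => c i N * x * c (!i) N) atTop (𝓝 0)

namespace Exc

variable {φ : A →L[ℂ] ℂ} {c : ℕ → A} (h : Exc φ c)
include h

theorem sa (N : ℕ) : star (c N) = c N := (IsSelfAdjoint.of_nonneg (h.nonneg N)).star_eq

theorem norm_le (N : ℕ) : ‖c N‖ ≤ 1 :=
  (CStarAlgebra.norm_le_one_iff_of_nonneg _ (h.nonneg N)).2 (h.le_one N)

omit [StarOrderedRing A] in
theorem mul_lt {N M : ℕ} (hlt : N < M) : c M * c N = c M := by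
  induction hlt with
  | refl => exact h.succ N
  | step _ ih => rw [← h.succ, mul_assoc, ih]

theorem mul_lt' {N M : ℕ} (hlt : N < M) : c N * c M = c M := by
  rw [← h.sa N, ← h.sa M, ← star_mul, h.mul_lt hlt]

theorem sq_le (x : A) {ε : ℝ} (hε : 0 < ε) :
    ∀ᶠ N in atTop, ‖x * c N‖ ^ 2 ≤ (φ (star x * x)).re + ε := by
  have h1 := (h.exc (star x * x)).norm
  rw [norm_zero] at h1
  filter_upwards [h1.eventually (gt_mem_nhds hε)] with N hN
  have e : star (x * c N) * (x * c N) =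
      c N * (star x * x - φ (star x * x) • 1) * c N + φ (star x * x) • (c N * c N) := by
    simp only [star_mul, h.sa, mul_sub, sub_mul, mul_smul_comm, smul_mul_assoc, mul_one, mul_assoc]
    abel
  rw [sq, ← CStarRing.norm_star_mul_self, e, add_comm, ← pos_norm h.st.pos (star_mul_self_nonneg x)]
  refine (norm_add_le _ _).trans (add_le_add ?_ hN.le)
  rw [norm_smul]
  exact mul_le_of_le_one_right (norm_nonneg _)
    ((norm_mul_le _ _).trans (mul_le_one₀ (h.norm_le N) (norm_nonneg _) (h.norm_le N)))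

omit [StarOrderedRing A] in
theorem subseq {j : ℕ → ℕ} (hj : StrictMono j) : Exc φ fun N => c (j N) :=
  ⟨h.st, fun _ => h.nonneg _, fun _ => h.le_one _, fun N => h.mul_lt (hj N.lt_succ_self),
    fun _ => h.val _, fun x => (h.exc x).comp hj.tendsto_atTop⟩

theorem eq {ρ : A →L[ℂ] ℂ} (hρ : St ρ) (h1 : ∀ N, ρ (c N) = 1) : ρ = φ := by
  ext x
  have h2 := (ρ.continuous.tendsto _).comp (h.exc x)
  have h3 : ∀ N, ρ (c N * (x - φ x • 1) * c N) = ρ x - φ x := fun N => by
    rw [hρ.mul_right (h.norm_le N) (h1 N), hρ.mul_left (h.norm_le N) (h1 N), map_sub, map_smul,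
      hρ.one, smul_eq_mul, mul_one]
  simp only [Function.comp_def, h3, map_zero, tendsto_const_nhds_iff] at h2
  exact sub_eq_zero.1 h2

end Exc

omit [PartialOrder A] [StarOrderedRing A] in
theorem ramp_tendsto {a : A} (ha : IsSelfAdjoint a) (hn : ‖a‖ ≤ 1) :
    Tendsto (fun N => cfc (ramp N) a * (1 - a)) atTop (𝓝 0) := by
  rcases subsingleton_or_nontrivial A with hA | hA
  · simp only [Subsingleton.elim _ (0 : A), tendsto_const_nhds]
  have h := (tendsto_pow_atTop_nhds_zero_of_lt_one (r := (1 / 3 : ℝ)) (by norm_num)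
    (by norm_num)).const_mul 2
  rw [mul_zero] at h
  refine squeeze_zero_norm (fun N => ?_) h
  have e : cfc (fun t : ℝ => 1 - t) a = 1 - a := by
    rw [cfc_sub (fun _ : ℝ => (1 : ℝ)) (fun t => t) a, cfc_const_one ℝ a, cfc_id' ℝ a]
  rw [← e, ← cfc_mul _ _ a (cont_ramp N).continuousOn]
  exact norm_cfc_le (by positivity) fun t ht => ramp_mul_le N
    (((le_abs_self t).trans (spectrum.norm_le_norm_of_mem ht)).trans hn)

theorem Peak.exc {a : A} {φ : A →L[ℂ] ℂ} (h : Peak a φ) : Exc φ fun N => cfc (ramp N) a := by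
  have h0 : ∀ N, 0 ≤ cfc (ramp N) a := fun N => cfc_nonneg fun t _ => ramp_nonneg N t
  have h1 : ∀ N, cfc (ramp N) a ≤ 1 := fun N => cfc_le_one _ _ fun t _ => ramp_le N t
  have h2 : ∀ N, ‖cfc (ramp N) a‖ ≤ 1 := fun N =>
    (CStarAlgebra.norm_le_one_iff_of_nonneg _ (h0 N)).2 (h1 N)
  have h3 : ∀ N, star (cfc (ramp N) a) = cfc (ramp N) a := fun N => IsSelfAdjoint.cfc.star_eq
  have key : ∀ y, IsSelfAdjoint y → φ y = 0 →
      Tendsto (fun N => cfc (ramp N) a * y * cfc (ramp N) a) atTop (𝓝 0) := by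
    intro y hy h4
    refine NormedAddGroup.tendsto_nhds_zero.2 fun ε hε => ?_
    obtain ⟨δ, hδ, h5⟩ := small_of_compact (z := 1 - a) (y := y) (fun ρ hρ e => by
      set σ := WeakDual.toStrongDual ρ
      change σ y = 0
      change σ (1 - a) = 0 at e
      have hp : ∀ b, 0 ≤ σ (star b * b) := hρ.2
      rcases eq_or_ne (σ 1) 0 with e1 | e1
      · have := norm_le_of_pos hp
        rw [e1, Complex.zero_re, norm_le_zero_iff] at this
        rw [this, zero_apply]
      · have hs : St ((σ 1)⁻¹ • σ) := .of_pos (fun b => mul_nonneg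
          (inv_nonneg.2 (pos_nonneg hp zero_le_one)) (hp b)) (by simp [e1])
        rw [map_sub, sub_eq_zero] at e
        have := h.uniq _ hs (by simp [← e, e1])
        rw [← this] at h4
        simpa [e1] using h4) (half_pos hε)
    filter_upwards [NormedAddGroup.tendsto_nhds_zero.1 (ramp_tendsto h.sa h.norm_le) δ hδ]
      with N hN
    refine lt_of_le_of_lt (norm_le_of_states ?_ (half_pos hε).le fun ρ hρ => ?_) (half_lt_self hε)
    · simpa only [h3] using hy.conjugate' (cfc (ramp N) a)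
    · have := h5 (StrongDual.toWeakDual (compress ρ (cfc (ramp N) a)))
        ⟨compress_norm_le _ _ hρ.norm_le (h2 N), compress_pos _ _ hρ.pos⟩ (by
          change ‖compress ρ _ _‖ < δ
          rw [compress_apply, h3]
          exact ((hρ.le _).trans ((norm_mul_le _ _).trans
            (mul_le_of_le_one_right (norm_nonneg _) (h2 N)))).trans_lt hN)
      change ‖compress ρ _ _‖ < _ at this
      rw [compress_apply, h3] at this
      exact this.le
  refine ⟨h.st, h0, h1, fun N => ?_, fun N => ?_, fun x => ?_⟩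
  · rw [← cfc_mul _ _ a (cont_ramp _).continuousOn (cont_ramp _).continuousOn]
    simp only [ramp_succ]
  · have := eigen_cfc φ h.sa (t := 1) (fun y => by
      rw [h.st.mul_right h.norm_le h.val]; simp) (cont_ramp N) 1
    simpa [ramp_one, h.st.one] using this
  · set y := x - φ x • (1 : A) with hy
    have e0 : φ y = 0 := by simp [hy, h.st.one]
    have e1 : φ (star y) = 0 := by rw [pos_star h.st.pos, e0, star_zero]
    have k1 := key _ (IsSelfAdjoint.add_star_self y) (by rw [map_add, e0, e1, add_zero])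
    have k2 := key (Complex.I • (y - star y))
      (by rw [IsSelfAdjoint, star_smul, star_sub, star_star, Complex.star_def, Complex.conj_I,
        neg_smul, ← smul_neg, neg_sub]) (by rw [map_smul, map_sub, e0, e1, sub_zero, smul_zero])
    have k3 := (k1.sub (k2.const_smul Complex.I)).const_smul (1 / 2 : ℂ)
    simp only [smul_zero, sub_zero] at k3
    refine k3.congr fun N => ?_
    simp only [mul_add, add_mul, mul_sub y, sub_mul, mul_smul_comm, smul_mul_assoc, smul_smul,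
      Complex.I_mul_I, mul_sub _ y]
    module

omit [PartialOrder A] [StarOrderedRing A] in
theorem ramp_strong (π : A →⋆ₐ[ℂ] (H →L[ℂ] H)) {a : A} (ha : IsSelfAdjoint a) (hn : ‖a‖ ≤ 1)
    (h : ∀ ζ, π a ζ = ζ → ζ = 0) (ζ : H) :
    Tendsto (fun N => π (cfc (ramp N) a) ζ) atTop (𝓝 0) := by
  have hd : Dense (((π (1 - a)).range : Submodule ℂ H) : Set H) := by
    rw [Submodule.dense_iff_topologicalClosure_eq_top, Submodule.topologicalClosure_eq_top_iff,
      eq_bot_iff]
    intro v hv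
    refine h v (ext_inner_left ℂ fun w => ?_)
    have := (Submodule.mem_orthogonal _ _).1 hv (π (1 - a) w) ⟨w, rfl⟩
    rw [← one_apply_eq_self (F := H →L[ℂ] H) v, ← map_one π, ← inner_star_mul, star_sub, star_one,
      ha.star_eq, mul_one, map_sub, map_one, sub_apply, one_apply_eq_self, inner_sub_right,
      sub_eq_zero] at this
    exact this.symm
  refine NormedAddGroup.tendsto_nhds_zero.2 fun ε hε => ?_
  obtain ⟨_, ⟨w, rfl⟩, hw⟩ := hd.exists_dist_lt ζ (half_pos hε)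
  have h1 := ((evv π w).continuous.tendsto _).comp (ramp_tendsto ha hn)
  rw [map_zero] at h1
  filter_upwards [NormedAddGroup.tendsto_nhds_zero.1 h1 _ (half_pos hε)] with N hN
  have h2 : ‖π (cfc (ramp N) a)‖ ≤ 1 := (NonUnitalStarAlgHom.norm_apply_le π _).trans
    (norm_cfc_le zero_le_one fun t _ => by
      rw [Real.norm_of_nonneg (ramp_nonneg N t)]; exact ramp_le N t)
  change ‖π (_ * _) w‖ < _ at hN
  change dist ζ (π (1 - a) w) < _ at hw
  rw [map_mul, mul_apply_eq_comp] at hN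
  rw [dist_eq_norm] at hw
  have h3 := (π (cfc (ramp N) a)).le_of_opNorm_le h2 (ζ - π (1 - a) w)
  rw [map_sub] at h3
  linarith [norm_le_norm_add_norm_sub' (π (cfc (ramp N) a) ζ) (π (cfc (ramp N) a) (π (1 - a) w))]

theorem Peak.nofix {a : A} {ψ : A →L[ℂ] ℂ} (h : Peak a ψ) (π : A →⋆ₐ[ℂ] (H →L[ℂ] H))
    (hne : ∀ η, ‖η‖ = 1 → vec π η η ≠ ψ) (ζ : H) (hζ : π a ζ = ζ) : ζ = 0 := by
  by_contra h0
  have h1 : ‖(‖ζ‖⁻¹ : ℂ) • ζ‖ = 1 := norm_smul_inv_norm h0
  refine hne _ h1 (h.uniq _ (st_vec π h1) ?_)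
  rw [vec_apply, map_smul, hζ, inner_self_eq_norm_sq_to_K, h1]
  simp

/-- A pure G-delta state is a peak state. -/
theorem exists_null {φ : A →L[ℂ] ℂ} (hφ : IsPureState φ) (hG : IsGDeltaState φ) :
    ∃ w : A, 0 ≤ w ∧ w ≤ 1 ∧ φ w = 0 ∧ ∀ ρ, St ρ → ρ w = 0 → ρ = φ := by
  obtain ⟨U, hU, hG⟩ := hG
  have key : ∀ n, ∃ w : A, 0 ≤ w ∧ ‖w‖ ≤ 1 ∧ φ w = 0 ∧
      ∀ ρ, St ρ → ρ w = 0 → StrongDual.toWeakDual ρ ∈ U n := by
    intro n
    have hc : IsCompact (Q A ∩ ({ρ | ρ 1 = 1} ∩ (U n)ᶜ)) := (isCompact_Q A).inter_right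
      ((isClosed_eq (WeakDual.eval_continuous _) continuous_const).inter (hU n).isClosed_compl)
    obtain ⟨F, hF⟩ := hc.elim_finite_subfamily_closed
      (fun z : {z : A // φ (star z * z) = 0} => {ρ : WeakDual ℂ A | ρ (star z.1 * z.1) = 0})
      (fun z => isClosed_eq (WeakDual.eval_continuous _) continuous_const) (by
        rw [Set.eq_empty_iff_forall_notMem]
        rintro ρ ⟨⟨h1, h2, h3⟩, h4⟩
        have := eq_of_null hφ (ρ := WeakDual.toStrongDual ρ) ⟨h1.2, h2, h1.1⟩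
          fun z hz => Set.mem_iInter.1 h4 ⟨z, hz⟩
        exact h3 (((hG φ hφ.1).2 rfl n).out |> fun e => by rw [← this] at e; exact e))
    set w := ∑ z ∈ F, star z.1 * z.1 with hw
    have hp : 0 < ‖w‖ + 1 := by positivity
    refine ⟨(‖w‖ + 1)⁻¹ • w, smul_nonneg (inv_pos.2 hp).le
      (Finset.sum_nonneg fun z _ => star_mul_self_nonneg _), ?_, ?_, fun ρ hρ e => ?_⟩
    · rw [norm_smul, Real.norm_of_nonneg (inv_pos.2 hp).le, inv_mul_le_iff₀ hp]
      linarith
    · have : φ w = 0 := by rw [hw, map_sum]; exact Finset.sum_eq_zero fun z _ => z.2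
      rw [← Complex.coe_smul, map_smul, this, smul_zero]
    · by_contra hn
      rw [← Complex.coe_smul, map_smul, smul_eq_zero, Complex.ofReal_eq_zero, hw, map_sum,
        Finset.sum_eq_zero_iff_of_nonneg fun z _ => hρ.pos _] at e
      refine Set.eq_empty_iff_forall_notMem.1 hF (StrongDual.toWeakDual ρ)
        ⟨⟨⟨hρ.norm_le, hρ.pos⟩, hρ.one, hn⟩, ?_⟩
      simp only [Set.mem_iInter]
      exact e.resolve_left (inv_pos.2 hp).ne'
  choose w h0 h1 h2 h3 using key
  have hb : ∀ n, ‖((1 / 2 / 2 ^ n : ℝ) : ℂ) • w n‖ ≤ 1 / 2 / 2 ^ n := fun n => by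
    rw [norm_smul, Complex.norm_real, Real.norm_of_nonneg (by positivity)]
    exact mul_le_of_le_one_right (by positivity) (h1 n)
  have hs : Summable fun n => ((1 / 2 / 2 ^ n : ℝ) : ℂ) • w n :=
    .of_norm_bounded (summable_geometric_two' 1) hb
  have hp : ∀ n, 0 ≤ ((1 / 2 / 2 ^ n : ℝ) : ℂ) • w n := fun n => by
    rw [Complex.coe_smul]
    exact smul_nonneg (by positivity) (h0 n)
  refine ⟨_, tsum_nonneg hp, (CStarAlgebra.norm_le_one_iff_of_nonneg _ (tsum_nonneg hp)).1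
    (tsum_of_norm_bounded (hasSum_geometric_two' 1) hb), ?_, fun ρ hρ e => ?_⟩
  · rw [φ.map_tsum hs]
    simp [h2]
  · refine (hG ρ hρ.isState).1 fun n => h3 n ρ hρ ?_
    have e1 := pos_nonneg hρ.pos (sub_nonneg.2 (hs.le_tsum n fun m _ => hp m))
    rw [map_sub, e, zero_sub, neg_nonneg] at e1
    have e2 := le_antisymm e1 (pos_nonneg hρ.pos (hp n))
    rw [map_smul, smul_eq_zero, Complex.ofReal_eq_zero] at e2
    exact e2.resolve_left (by positivity)

theorem peak_of_sep {φ : A →L[ℂ] ℂ} (hφ : St φ) {k w v : A} (k0 : 0 ≤ k) (k1 : k ≤ 1)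
    (w0 : 0 ≤ w) (w1 : w ≤ 1) (v0 : 0 ≤ v) (v1 : v ≤ 1) (hk : φ k = 1) (hw : φ w = 0)
    (hu : ∀ ρ, St ρ → ρ w = 0 → ρ = φ) :
    Peak (k * (1 - w) * k - (1 - k) * (1 - v) * (1 - k)) φ := by
  have c0 : ∀ a b : A, 0 ≤ a → 0 ≤ b → 0 ≤ a * b * a := fun a b ha hb => conjugate_nonneg_of_nonneg hb ha
  have sq : ∀ a : A, 0 ≤ a → a ≤ 1 → 0 ≤ a - a * a := fun a h0 h1 => by
    have := (Commute.refl a).sub_right (Commute.one_right a) |>.neg_right
    rw [neg_sub] at this
    have := this.mul_nonneg h0 (sub_nonneg.2 h1)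
    rwa [mul_sub, mul_one] at this
  have c1 : ∀ a b : A, 0 ≤ a → a ≤ 1 → 0 ≤ b → a * (1 - b) * a ≤ 1 := fun a b h0 h1 hb => by
    have e : 1 - a * (1 - b) * a = (1 - a) + (a - a * a) + a * b * a := by noncomm_ring
    rw [← sub_nonneg, e]
    exact add_nonneg (add_nonneg (sub_nonneg.2 h1) (sq a h0 h1)) (c0 a b h0 hb)
  have p1 := c0 k _ k0 (sub_nonneg.2 w1)
  have p2 := c0 _ _ (sub_nonneg.2 k1) (sub_nonneg.2 v1)
  have hsa := (IsSelfAdjoint.of_nonneg p1).sub (IsSelfAdjoint.of_nonneg p2)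
  have kn : ‖k‖ ≤ 1 := (CStarAlgebra.norm_le_one_iff_of_nonneg _ k0).2 k1
  refine ⟨hsa, norm_le_of_states hsa zero_le_one fun ρ hρ => ?_, hφ, ?_, fun ρ hρ e => ?_⟩
  · have a1 := pos_nonneg hρ.pos p1
    have a2 := pos_nonneg hρ.pos p2
    have a3 := pos_mono hρ.pos (c1 k w k0 k1 w0)
    have a4 := pos_mono hρ.pos (c1 _ v (sub_nonneg.2 k1) (sub_le_self _ k0) v0)
    rw [hρ.one, Complex.one_re] at a3 a4
    rw [map_sub, ← Complex.abs_re_eq_norm.2 (by rw [Complex.sub_im, ← a1.2, ← a2.2, sub_self]),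
      Complex.sub_re, abs_le]
    have := a1.1
    have := a2.1
    simp only [Complex.zero_re] at *
    constructor <;> linarith
  · rw [map_sub, hφ.mul_right kn hk, hφ.mul_left kn hk, mul_sub _ 1 k, mul_one, map_sub, map_sub,
      hφ.mul_right kn hk, hφ.one, hw]
    ring
  · have e1 : 1 - (k * (1 - w) * k - (1 - k) * (1 - v) * (1 - k)) =
        (1 - k) + (k - k * k) + k * w * k + (1 - k) * (1 - v) * (1 - k) := by noncomm_ring
    have e2 := congrArg ρ e1
    rw [map_sub, e, hρ.one, sub_self, map_add, map_add, map_add] at e2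
    have a1 := pos_nonneg hρ.pos (sub_nonneg.2 k1)
    have a2 := pos_nonneg hρ.pos (sq k k0 k1)
    have a3 := pos_nonneg hρ.pos (c0 k w k0 w0)
    have a4 := pos_nonneg hρ.pos p2
    have b0 := (add_eq_zero_iff_of_nonneg (add_nonneg (add_nonneg a1 a2) a3) a4).1 e2.symm
    obtain ⟨b3, b2⟩ := (add_eq_zero_iff_of_nonneg (add_nonneg a1 a2) a3).1 b0.1
    have b1 := ((add_eq_zero_iff_of_nonneg a1 a2).1 b3).1
    rw [map_sub, hρ.one, sub_eq_zero] at b1
    rw [hρ.mul_right kn b1.symm, hρ.mul_left kn b1.symm] at b2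
    exact hu ρ hρ b2

/-- Two pure G-delta states are unitarily equivalent or have a chain. -/
theorem dichotomy {φ ψ : A →L[ℂ] ℂ} (hφ : IsPureState φ) (hψ : IsPureState ψ)
    (gφ : IsGDeltaState φ) (gψ : IsGDeltaState ψ) :
    (∃ u ∈ unitary A, ∀ a, ψ a = φ (star u * a * u)) ∨
      ∃ c, Chain (fun i => bif i then φ else ψ) c := by
  have sφ := St.of_isState hφ.1
  have sψ := St.of_isState hψ.1
  obtain ⟨H, _, _, _, π, ξ, h1, h2⟩ := sφ.gns
  have hI := irr_of_pure hφ h1 h2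
  have hξ : ‖ξ‖ = 1 := by
    have := sφ.one
    rw [h1, map_one, one_apply_eq_self] at this
    rw [inner_self_eq_norm_sq_to_K] at this
    have h3 : ‖ξ‖ ^ 2 = 1 := Complex.ofReal_injective (by simpa using this)
    exact (pow_eq_one_iff_of_nonneg (norm_nonneg _) two_ne_zero).1 h3
  by_cases hne : ∃ η, ‖η‖ = 1 ∧ vec π η η = ψ
  · obtain ⟨η, e1, e2⟩ := hne
    obtain ⟨u, hu, e3⟩ := hI.exists_unitary hξ e1
    exact .inl ⟨u, hu, fun a => by rw [← e2, h1, ← e3, vec_apply]⟩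
  push Not at hne
  obtain ⟨w, w0, w1, w2, w3⟩ := exists_null hφ gφ
  obtain ⟨v, v0, v1, v2, v3⟩ := exists_null hψ gψ
  have pb : Peak (1 - v) ψ := ⟨.of_nonneg (sub_nonneg.2 v1),
    (CStarAlgebra.norm_le_one_iff_of_nonneg _ (sub_nonneg.2 v1)).2 (sub_le_self _ v0), sψ,
    by rw [map_sub, sψ.one, v2, sub_zero], fun ρ hρ e => v3 ρ hρ (by
      rwa [map_sub, hρ.one, sub_eq_self] at e)⟩
  obtain ⟨k, k0, k1, k2, k3⟩ := hI.exists_sep h1 sφ.one sψ _ pb.exc.nonneg pb.exc.le_one pb.exc.val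
    (ramp_strong π pb.sa pb.norm_le (pb.nofix π hne))
  have p1 := peak_of_sep sφ k0 k1 w0 w1 v0 v1 k2 w2 w3
  have p2 := peak_of_sep sψ (sub_nonneg.2 k1) (sub_le_self _ k0) v0 v1 w0 w1
    (by rw [map_sub, sψ.one, k3, sub_zero]) v2 v3
  rw [sub_sub_cancel, ← neg_sub] at p2
  set h := k * (1 - w) * k - (1 - k) * (1 - v) * (1 - k)
  have z : cfc (ramp 0) h + cfc (ramp 0) (-h) = 1 := by
    rw [← cfc_comp_neg _ h (cont_ramp 0).continuousOn p1.sa, ← cfc_add h _ _
      (cont_ramp 0).continuousOn ((cont_ramp 0).comp' continuous_neg).continuousOn]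
    simp only [ramp_zero_add]
    exact cfc_const_one ℝ h p1.sa
  have d : ∀ x, Tendsto (fun N => cfc (ramp N) (-h) * x * cfc (ramp N) h) atTop (𝓝 0) := by
    intro x
    refine NormedAddGroup.tendsto_nhds_zero.2 fun ε hε => ?_
    obtain ⟨M, hM⟩ := (NormedAddGroup.tendsto_nhds_zero.1
      (ramp_strong π p2.sa p2.norm_le (p2.nofix π hne) (π x ξ)) _ (half_pos hε)).exists
    filter_upwards [p1.exc.sq_le (cfc (ramp M) (-h) * x) (pow_pos (half_pos hε) 2),
      eventually_gt_atTop M] with N hN hMN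
    rw [h1, inner_star_self, Complex.ofReal_re, map_mul, mul_apply_eq_comp] at hN
    rw [← p2.exc.mul_lt hMN, mul_assoc, mul_assoc]
    refine ((norm_mul_le _ _).trans
      (mul_le_of_le_one_left (norm_nonneg _) (p2.exc.norm_le N))).trans_lt ?_
    rw [← mul_assoc]
    refine lt_of_pow_lt_pow_left₀ 2 hε.le (hN.trans_lt ?_)
    nlinarith [norm_nonneg (π (cfc (ramp M) (-h)) (π x ξ))]
  refine .inr ⟨fun i N => cfc (ramp N) (bif i then h else -h), fun i => ?_, fun i => ?_,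
    fun i x => ?_⟩
  · cases i
    exacts [p2.exc, p1.exc]
  · cases i
    exacts [(add_comm _ _).trans z, z]
  · cases i
    · exact d x
    · have := (d (star x)).star
      simp only [star_mul, star_star, IsSelfAdjoint.cfc.star_eq, star_zero, ← mul_assoc] at this
      exact this

end Pool.Agent.P.MP_8219a1_an.G
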