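import Pool.Agent.P.MP_8219a1_an.Main

set_option autoImplicit false

open scoped ComplexOrder InnerProductSpace
open Filter Topology

noncomputable section

namespace Pool.Agent.P.MP_8219a1_an.G

section NonUnital

variable {B : Type*} [NonUnitalCStarAlgebra B] [PartialOrder B] [StarOrderedRing B]

/-- A positive functional as a positive linear map. -/
def toPos (ρ : B →L[ℂ] ℂ) (h : ∀ a, 0 ≤ ρ (star a * a)) : B →ₚ[ℂ] ℂ :=
  PositiveLinearMap.mk₀ (ρ : B →ₗ[ℂ] ℂ) fun a ha => by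
    obtain ⟨c, rfl⟩ := CStarAlgebra.nonneg_iff_eq_star_mul_self.1 ha
    exact h c

theorem toPos_apply (ρ : B →L[ℂ] ℂ) (h : ∀ a, 0 ≤ ρ (star a * a)) (a : B) : toPos ρ h a = ρ a := rfl

theorem pos_nonneg {ρ : B →L[ℂ] ℂ} (h : ∀ a, 0 ≤ ρ (star a * a)) {a : B} (ha : 0 ≤ a) : 0 ≤ ρ a :=
  (toPos ρ h).map_nonneg ha

theorem pos_mono {ρ : B →L[ℂ] ℂ} (h : ∀ a, 0 ≤ ρ (star a * a)) {a b : B} (hab : a ≤ b) :
    (ρ a).re ≤ (ρ b).re := by
  have := pos_nonneg h (sub_nonneg.2 hab)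
  rw [map_sub] at this
  simpa using this.1

theorem pos_star {ρ : B →L[ℂ] ℂ} (h : ∀ a, 0 ≤ ρ (star a * a)) (a : B) :
    ρ (star a) = star (ρ a) := map_star (toPos ρ h) a

theorem pos_norm {ρ : B →L[ℂ] ℂ} (h : ∀ a, 0 ≤ ρ (star a * a)) {a : B} (ha : 0 ≤ a) :
    ‖ρ a‖ = (ρ a).re := by
  have h1 := pos_nonneg h ha
  rw [← Complex.re_eq_norm.2 h1]

theorem pos_cs {ρ : B →L[ℂ] ℂ} (h : ∀ a, 0 ≤ ρ (star a * a)) (a b : B) :
    ‖ρ (star a * b)‖ ^ 2 ≤ (ρ (star a * a)).re * (ρ (star b * b)).re := by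
  let f := toPos ρ h
  have h1 := norm_inner_le_norm (𝕜 := ℂ) (f.toPreGNS a) (f.toPreGNS b)
  have h2 := congrArg Complex.re (f.preGNS_norm_sq (f.toPreGNS a))
  have h3 := congrArg Complex.re (f.preGNS_norm_sq (f.toPreGNS b))
  rw [← Complex.ofReal_pow, Complex.ofReal_re] at h2 h3
  change _ = (ρ (star a * a)).re at h2
  change _ = (ρ (star b * b)).re at h3
  rw [← h2, ← h3, ← mul_pow]
  exact pow_le_pow_left₀ (norm_nonneg _) h1 2

omit [PartialOrder B] [StarOrderedRing B] in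
theorem im_eq_zero {g : B →L[ℂ] ℂ} (hg : ‖g‖ ≤ 1) {e w : B} (he : IsStarProjection e)
    (h1 : g e = 1) (hw : IsSelfAdjoint w) (hew : e * w = w) : (g w).im = 0 := by
  have hwe : w * e = w := by
    have := congrArg star hew
    rwa [star_mul, he.isSelfAdjoint.star_eq, hw.star_eq] at this
  have key : ∀ t : ℝ, 0 ≤ ‖w‖ ^ 2 - 2 * t * (g w).im := by
    intro t
    set v := w + ((t : ℂ) * Complex.I) • e with hv
    have e1 : star v * v = star w * w + ((t : ℂ) ^ 2) • e := by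
      rw [hv, star_add, star_smul, he.isSelfAdjoint.star_eq, hw.star_eq]
      simp only [add_mul, mul_add, smul_mul_assoc, mul_smul_comm, hew, hwe,
        he.isIdempotentElem.eq, smul_smul, star_mul', Complex.star_def, Complex.conj_ofReal,
        Complex.conj_I, smul_add]
      have : (t : ℂ) * Complex.I * (t * -Complex.I) = t ^ 2 := by
        linear_combination (-(t : ℂ) ^ 2) * Complex.I_mul_I
      rw [this, mul_neg, neg_smul]
      abel
    have e2 : ‖v‖ ^ 2 ≤ ‖w‖ ^ 2 + t ^ 2 := by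
      rw [sq, ← CStarRing.norm_star_mul_self, e1]
      refine (norm_add_le _ _).trans (add_le_add ?_ ?_)
      · rw [CStarRing.norm_star_mul_self, sq]
      · rw [norm_smul, norm_pow, Complex.norm_real, Real.norm_eq_abs, sq_abs]
        exact mul_le_of_le_one_right (sq_nonneg _) he.norm_le
    have e3 : ‖g v‖ ≤ ‖v‖ := (g.le_opNorm v).trans (mul_le_of_le_one_left (norm_nonneg _) hg)
    have e4 : |(g v).im| ≤ ‖v‖ := (Complex.abs_im_le_norm _).trans e3
    have e5 : (g v).im = (g w).im + t := by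
      rw [hv, map_add, map_smul, h1]; simp
    have e6 := pow_le_pow_left₀ (abs_nonneg _) e4 2
    rw [sq_abs, e5] at e6
    nlinarith [sq_nonneg (g w).im]
  by_contra hne
  have := key ((‖w‖ ^ 2 + 1) / (2 * (g w).im))
  field_simp at this
  linarith

/-- A contractive functional with value one at a projection is positive on the corner. -/
theorem pos_of_norm {g : B →L[ℂ] ℂ} (hg : ‖g‖ ≤ 1) {e : B} (he : IsStarProjection e)
    (h1 : g e = 1) (y : B) : 0 ≤ g (e * (star y * y) * e) := by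
  have hs := he.isSelfAdjoint.star_eq
  have h0 : 0 ≤ e * (star y * y) * e := by
    have := star_mul_self_nonneg (y * e)
    rwa [star_mul, hs, ← mul_assoc, mul_assoc e] at this
  set w := e * (star y * y) * e with hw
  have hew : e * w = w := by rw [hw, ← mul_assoc, ← mul_assoc, he.isIdempotentElem.eq]
  refine Complex.nonneg_iff.2 ⟨?_, (im_eq_zero hg he h1 (.of_nonneg h0) hew).symm⟩
  have hle : w ≤ ‖star y * y‖ • e := by
    have := CStarAlgebra.star_left_conjugate_le_norm_smul (a := e) (b := star y * y)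
    rwa [hs, he.isIdempotentElem.eq] at this
  have h2 : ‖‖star y * y‖ • e - w‖ ≤ ‖star y * y‖ := by
    refine (CStarAlgebra.norm_le_norm_of_nonneg_of_le (sub_nonneg.2 hle)
      (sub_le_self _ h0)).trans ?_
    rw [norm_smul, norm_norm]
    exact mul_le_of_le_one_right (norm_nonneg _) he.norm_le
  have h3 := (Complex.re_le_norm _).trans ((g.le_opNorm (‖star y * y‖ • e - w)).trans
    ((mul_le_of_le_one_left (norm_nonneg _) hg).trans h2))
  rw [map_sub, ← Complex.coe_smul, map_smul, h1] at h3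
  simpa using h3

end NonUnital

section Unital

variable {A : Type*} [CStarAlgebra A] [PartialOrder A] [StarOrderedRing A]

/-- States of a unital algebra. -/
structure St (ρ : A →L[ℂ] ℂ) : Prop where
  pos : ∀ a, 0 ≤ ρ (star a * a)
  one : ρ 1 = 1
  norm_le : ‖ρ‖ ≤ 1

omit [PartialOrder A] [StarOrderedRing A] in
theorem St.isState {ρ : A →L[ℂ] ℂ} (h : St ρ) : IsState ρ :=
  ⟨h.pos, norm_eq_one_of_apply h.norm_le CuntzData.norm_one_le h.one⟩

theorem norm_le_of_pos {ρ : A →L[ℂ] ℂ} (h : ∀ a, 0 ≤ ρ (star a * a)) : ‖ρ‖ ≤ (ρ 1).re := by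
  have h0 : 0 ≤ (ρ 1).re := (pos_nonneg h zero_le_one).1
  refine ρ.opNorm_le_bound h0 fun a => ?_
  have h1 := pos_cs h 1 a
  rw [star_one, one_mul, one_mul] at h1
  have h2 := pos_mono h (CStarAlgebra.star_mul_le_algebraMap_norm_sq (a := a))
  rw [Algebra.algebraMap_eq_smul_one, ← Complex.coe_smul, map_smul, smul_eq_mul,
    Complex.re_ofReal_mul] at h2
  refine le_of_sq_le_sq ?_ (by positivity)
  nlinarith

theorem St.of_pos {ρ : A →L[ℂ] ℂ} (h : ∀ a, 0 ≤ ρ (star a * a)) (h1 : ρ 1 = 1) : St ρ :=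
  ⟨h, h1, by simpa [h1] using norm_le_of_pos h⟩

theorem St.of_isState {ρ : A →L[ℂ] ℂ} (h : IsState ρ) : St ρ :=
  ⟨h.1, eq_one_of_re (norm_apply_le_one h.2.le CuntzData.norm_one_le)
    (h.2 ▸ norm_le_of_pos h.1), h.2.le⟩

theorem St.of_norm {ρ : A →L[ℂ] ℂ} (h : ‖ρ‖ ≤ 1) (h1 : ρ 1 = 1) : St ρ :=
  ⟨fun a => by simpa using pos_of_norm h (.one A) h1 a, h1, h⟩

omit [PartialOrder A] [StarOrderedRing A] in
theorem St.le {ρ : A →L[ℂ] ℂ} (h : St ρ) (a : A) : ‖ρ a‖ ≤ ‖a‖ :=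
  (ρ.le_opNorm a).trans (mul_le_of_le_one_left (norm_nonneg _) h.norm_le)

theorem St.null {ρ : A →L[ℂ] ℂ} (h : St ρ) {c : A} (hc : ‖c‖ ≤ 1) (h1 : ρ c = 1) :
    ρ (star (1 - c) * (1 - c)) = 0 := by
  have h2 := h.pos (1 - c)
  have h3 : ρ (star (1 - c) * (1 - c)) = ρ (star c * c) - 1 := by
    simp only [star_sub, star_one, sub_mul, mul_sub, one_mul, mul_one, map_sub, h.one, h1,
      pos_star h.pos]
    ring
  have h4 : (ρ (star c * c)).re ≤ 1 := by
    refine (Complex.re_le_norm _).trans ((h.le _).trans ?_)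
    rw [CStarRing.norm_star_mul_self]
    exact mul_le_one₀ hc (norm_nonneg _) hc
  refine le_antisymm ?_ h2
  rw [h3] at h2 ⊢
  exact Complex.le_def.2 ⟨by simpa using h4, by simpa using h2.2.symm⟩

theorem St.mul_right {ρ : A →L[ℂ] ℂ} (h : St ρ) {c : A} (hc : ‖c‖ ≤ 1) (h1 : ρ c = 1) (y : A) :
    ρ (y * c) = ρ y := by
  have := (cs_zero ρ h.pos _ (h.null hc h1) (star y)).1
  rw [star_star, mul_sub, mul_one, map_sub, sub_eq_zero] at this
  exact this.symm

theorem St.mul_left {ρ : A →L[ℂ] ℂ} (h : St ρ) {c : A} (hc : ‖c‖ ≤ 1) (h1 : ρ c = 1) (y : A) :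
    ρ (c * y) = ρ y := by
  have h2 : ρ (star c) = 1 := by rw [pos_star h.pos, h1, star_one]
  have := (cs_zero ρ h.pos _ (h.null (by rwa [norm_star]) h2) y).2
  rw [star_sub, star_one, star_star, sub_mul, one_mul, map_sub, sub_eq_zero] at this
  exact this.symm

/-- Extension of states. -/
theorem St.exists_ext {B : Type*} [NonUnitalCStarAlgebra B] (ι : A →⋆ₙₐ[ℂ] B)
    (hι : Function.Injective ι) {ρ : A →L[ℂ] ℂ} (h : St ρ) :
    ∃ σ : B →L[ℂ] ℂ, IsState σ ∧ ∀ a, σ (ι a) = ρ a := by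
  let _ := CStarAlgebra.spectralOrder B
  have _ := CStarAlgebra.spectralOrderedRing B
  have hn : ∀ a, ‖ι a‖ = ‖a‖ := NonUnitalStarAlgHom.norm_map ι hι
  let l : A →ₗᵢ[ℂ] B := ⟨(ι : A →ₗ[ℂ] B), hn⟩
  let f : StrongDual ℂ (LinearMap.range l.toLinearMap) :=
    ρ.comp (l.equivRange.symm.toContinuousLinearEquiv : _ →L[ℂ] A)
  obtain ⟨g, hg1, hg2⟩ := exists_extension_norm_eq _ f
  have hf : ‖f‖ ≤ 1 := f.opNorm_le_bound zero_le_one fun x => by
    rw [one_mul, ← l.equivRange.symm.norm_map x]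
    exact h.le _
  have hga : ∀ a, g (ι a) = ρ a := fun a => by
    have := hg1 (l.equivRange a)
    have h2 : g (l a) = ρ a := by simpa [f] using this
    exact h2
  have he : IsStarProjection (ι 1) := (IsStarProjection.one A).map ι
  have hg : ‖g‖ ≤ 1 := hg2 ▸ hf
  have hap : ∀ y, compress g (ι 1) y = g (ι 1 * y * ι 1) := fun y => by
    rw [compress_apply, he.isSelfAdjoint.star_eq]
  have ha : ∀ a, compress g (ι 1) (ι a) = ρ a := fun a => by
    rw [hap, ← map_mul, ← map_mul, one_mul, mul_one, hga]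
  refine ⟨compress g (ι 1), ⟨fun y => ?_, ?_⟩, ha⟩
  · rw [hap]
    exact pos_of_norm hg he (by rw [hga, h.one]) y
  · exact norm_eq_one_of_apply (compress_norm_le g _ hg he.norm_le) he.norm_le
      (by rw [ha, h.one])

theorem exists_norm_state [Nontrivial A] {w : A} (hw : 0 ≤ w) :
    ∃ ρ : A →L[ℂ] ℂ, St ρ ∧ ρ w = ‖w‖ := by
  have h1 : ‖w‖ + 1 ∈ spectrum ℝ (algebraMap ℝ A 1 + w) :=
    spectrum.add_mem_add_iff.2 (CStarAlgebra.norm_mem_spectrum_of_nonneg hw)
  rw [map_one] at h1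
  have h2 : ‖w‖ + 1 ≤ ‖1 + w‖ := (le_abs_self _).trans (spectrum.norm_le_norm_of_mem h1)
  obtain ⟨g, hg1, hg2⟩ := exists_dual_vector'' ℂ (1 + w)
  have h3 : ‖g 1‖ ≤ 1 := norm_apply_le_one hg1 norm_one.le
  have h4 : ‖g w‖ ≤ ‖w‖ := (g.le_opNorm w).trans (mul_le_of_le_one_left (norm_nonneg _) hg1)
  have h5 := congrArg Complex.re hg2
  rw [map_add, Complex.add_re] at h5
  have h6 : (g 1).re + (g w).re = ‖1 + w‖ := by simpa using h5
  have h7 := (Complex.re_le_norm _).trans h3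
  have h8 := (Complex.re_le_norm _).trans h4
  have hs : St g := .of_norm hg1 (eq_one_of_re h3 (by linarith))
  refine ⟨g, hs, ?_⟩
  have h9 := pos_nonneg hs.pos hw
  exact Complex.ext (by simp only [Complex.ofReal_re]; linarith) (by simpa using h9.2.symm)

theorem norm_le_of_states {w : A} (hw : IsSelfAdjoint w) {ε : ℝ} (hε : 0 ≤ ε)
    (h : ∀ ρ : A →L[ℂ] ℂ, St ρ → ‖ρ w‖ ≤ ε) : ‖w‖ ≤ ε := by
  rcases subsingleton_or_nontrivial A with hA | hA
  · rwa [Subsingleton.elim w 0, norm_zero]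
  have key : ∀ v : A, IsSelfAdjoint v → ‖v‖ ∈ spectrum ℝ v →
      (∀ ρ : A →L[ℂ] ℂ, St ρ → ‖ρ v‖ ≤ ε) → ‖v‖ ≤ ε := by
    intro v hv h1 h2
    have h3 : 0 ≤ algebraMap ℝ A ‖v‖ + v := by
      have := hv.neg_algebraMap_norm_le_self
      rwa [neg_le_iff_add_nonneg'] at this
    obtain ⟨ρ, hρ, h4⟩ := exists_norm_state h3
    have h5 : ‖v‖ + ‖v‖ ≤ ‖algebraMap ℝ A ‖v‖ + v‖ :=
      (le_abs_self _).trans (spectrum.norm_le_norm_of_mem (spectrum.add_mem_add_iff.2 h1))
    have h6 := congrArg Complex.re h4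
    rw [map_add, Algebra.algebraMap_eq_smul_one, ← Complex.coe_smul, map_smul, hρ.one] at h6
    simp only [smul_eq_mul, mul_one, Complex.add_re, Complex.ofReal_re, Complex.coe_smul] at h6
    rw [Algebra.algebraMap_eq_smul_one] at h5
    linarith [(Complex.re_le_norm _).trans (h2 ρ hρ)]
  rcases CStarAlgebra.norm_or_neg_norm_mem_spectrum hw with h1 | h1
  · exact key w hw h1 h
  · rw [← norm_neg]
    refine key (-w) hw.neg ?_ fun ρ hρ => by simpa using h ρ hρ
    rw [← spectrum.neg_eq, norm_neg]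
    simpa using h1

omit [PartialOrder A] [StarOrderedRing A] in
/-- Compactness of the quasi-state space. -/
theorem small_of_compact {z y : A} (h : ∀ ρ ∈ Q A, ρ z = 0 → ρ y = 0) {ε : ℝ} (hε : 0 < ε) :
    ∃ δ > 0, ∀ ρ ∈ Q A, ‖ρ z‖ < δ → ‖ρ y‖ < ε := by
  have hc : IsCompact (Q A ∩ {ρ | ε ≤ ‖ρ y‖}) := (isCompact_Q A).inter_right
    (isClosed_le continuous_const (WeakDual.eval_continuous _).norm)
  rcases (Q A ∩ {ρ | ε ≤ ‖ρ y‖}).eq_empty_or_nonempty with h0 | h0
  · refine ⟨1, one_pos, fun ρ hρ _ => lt_of_not_ge fun h1 => ?_⟩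
    exact (Set.eq_empty_iff_forall_notMem.1 h0) ρ ⟨hρ, h1⟩
  obtain ⟨σ, hσ, hm⟩ := hc.exists_isMinOn h0 (WeakDual.eval_continuous z).norm.continuousOn
  refine ⟨‖σ z‖, norm_pos_iff.2 fun h1 => ?_, fun ρ hρ h1 => lt_of_not_ge fun h2 => ?_⟩
  · have := hσ.2
    simp only [Set.mem_ofPred_eq, h σ hσ.1 h1, norm_zero] at this
    linarith
  · exact absurd (hm (show ρ ∈ _ from ⟨hρ, h2⟩)) (not_le.2 h1)

omit [PartialOrder A] [StarOrderedRing A] in
/-- Eigenvector lemma for the continuous functional calculus. -/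
theorem eigen_cfc {E : Type*} [NormedAddCommGroup E] [NormedSpace ℂ E] (L : A →L[ℂ] E) {a : A}
    (ha : IsSelfAdjoint a) {t : ℝ} (h : ∀ y, L (y * a) = (t : ℂ) • L y) {f : ℝ → ℝ}
    (hf : Continuous f) (y : A) : L (y * cfc f a) = (f t : ℂ) • L y := by
  rcases subsingleton_or_nontrivial A with hA | hA
  · rw [Subsingleton.elim y 0, zero_mul, map_zero, smul_zero]
  have hp : ∀ q : Polynomial ℝ, L (y * Polynomial.aeval a q) = ((q.eval t : ℝ) : ℂ) • L y := by
    intro q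
    induction q using Polynomial.induction_on' with
    | add p q hp hq => simp [mul_add, hp, hq, add_smul]
    | monomial n c =>
      have : ∀ n : ℕ, L (y * a ^ n) = (t : ℂ) ^ n • L y := fun n => by
        induction n with
        | zero => simp
        | succ n ih => rw [pow_succ, ← mul_assoc, h, ih, smul_smul, pow_succ']
      rw [Polynomial.aeval_monomial, Algebra.algebraMap_eq_smul_one, smul_mul_assoc, one_mul,
        mul_smul_comm, ← Complex.coe_smul, map_smul, this, smul_smul]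
      simp
  refine eq_of_forall_dist_le fun ε hε => ?_
  set C := ‖L‖ * ‖y‖ + ‖L y‖ + 1 with hC
  have hC0 : 0 < C := by positivity
  obtain ⟨q, hq⟩ := exists_polynomial_near_of_continuousOn (-max ‖a‖ |t|) (max ‖a‖ |t|) f
    hf.continuousOn (ε / C) (div_pos hε hC0)
  have h1 : ‖cfc f a - Polynomial.aeval a q‖ ≤ ε / C := by
    rw [← cfc_polynomial q a, ← cfc_sub f q.eval a]
    refine norm_cfc_le (div_pos hε hC0).le fun s hs => ?_
    rw [Real.norm_eq_abs, abs_sub_comm]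
    exact (hq s (abs_le.1 ((spectrum.norm_le_norm_of_mem hs).trans (le_max_left _ _)))).le
  have h2 := (hq t (abs_le.1 (le_max_right _ _))).le
  have e : L (y * cfc f a) - (f t : ℂ) • L y =
      L (y * (cfc f a - Polynomial.aeval a q)) + ((q.eval t - f t : ℝ) : ℂ) • L y := by
    rw [mul_sub, map_sub, hp, Complex.ofReal_sub, sub_smul]
    abel
  rw [dist_eq_norm, e]
  calc _ ≤ ‖L‖ * (‖y‖ * (ε / C)) + ε / C * ‖L y‖ := by
        refine (norm_add_le _ _).trans (add_le_add ((L.le_opNorm _).trans ?_) ?_)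
        · gcongr
          exact (norm_mul_le _ _).trans (by gcongr)
        · rw [norm_smul, Complex.norm_real]
          gcongr
          exact h2
    _ ≤ ε / C * C := by
        rw [hC]
        nlinarith [div_pos hε hC0]
    _ = ε := div_mul_cancel₀ _ hC0.ne'

universe u in
/-- The GNS triple of a state. -/
theorem St.gns {A : Type u} [CStarAlgebra A] [PartialOrder A] [StarOrderedRing A]
    {ρ : A →L[ℂ] ℂ} (h : St ρ) :
    ∃ (H : Type u) (_ : NormedAddCommGroup H) (_ : InnerProductSpace ℂ H) (_ : CompleteSpace H)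
      (π : A →⋆ₐ[ℂ] (H →L[ℂ] H)) (ξ : H), (∀ a, ρ a = ⟪ξ, π a ξ⟫_ℂ) ∧
      DenseRange fun a => π a ξ := by
  let f := toPos ρ h.pos
  have e : ∀ a, f.gnsStarAlgHom a ((f.toPreGNS 1 : f.PreGNS) : f.GNS) =
      ((f.toPreGNS a : f.PreGNS) : f.GNS) := fun a => by
    change f.gnsNonUnitalStarAlgHom a _ = _
    rw [PositiveLinearMap.gnsNonUnitalStarAlgHom_apply_coe]
    simp
  refine ⟨f.GNS, inferInstance, inferInstance, inferInstance, f.gnsStarAlgHom,
    ((f.toPreGNS 1 : f.PreGNS) : f.GNS), fun a => ?_, ?_⟩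
  · rw [e, UniformSpace.Completion.inner_coe, PositiveLinearMap.preGNS_inner_def]
    simp [f, toPos_apply]
  · simp only [e]
    exact UniformSpace.Completion.denseRange_coe.comp f.toPreGNS.surjective.denseRange
      (UniformSpace.Completion.continuous_coe _)

end Unital

end Pool.Agent.P.MP_8219a1_an.G
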