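import Pool.Agent.P.MP_8219a1_an.G.Defs
import Pool.Agent.P.MP_8219a1_an.G.St

set_option autoImplicit false

open scoped ComplexOrder InnerProductSpace
open Filter Topology

noncomputable section

namespace Pool.Agent.P.MP_8219a1_an.G

variable {A B : Type*} [NonUnitalCStarAlgebra A] [NonUnitalCStarAlgebra B]

/-- Restriction of a functional along a homomorphism. -/
def res (ι : A →⋆ₙₐ[ℂ] B) (g : B →L[ℂ] ℂ) : A →L[ℂ] ℂ :=
  g.comp (LinearMap.mkContinuous (ι : A →ₗ[ℂ] B) 1 fun a => by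
    simpa using NonUnitalStarAlgHom.norm_apply_le ι a)

theorem res_apply (ι : A →⋆ₙₐ[ℂ] B) (g : B →L[ℂ] ℂ) (a : A) : res ι g a = g (ι a) := rfl

theorem res_norm (ι : A →⋆ₙₐ[ℂ] B) (g : B →L[ℂ] ℂ) : ‖res ι g‖ ≤ ‖g‖ :=
  (res ι g).opNorm_le_bound (norm_nonneg _) fun a => (g.le_opNorm _).trans
    (mul_le_mul_of_nonneg_left (NonUnitalStarAlgHom.norm_apply_le ι a) (norm_nonneg _))

theorem res_pos (ι : A →⋆ₙₐ[ℂ] B) {g : B →L[ℂ] ℂ} (h : ∀ b, 0 ≤ g (star b * b)) (a : A) :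
    0 ≤ res ι g (star a * a) := by
  rw [res_apply, map_mul, map_star]
  exact h _

theorem cont_hom (ι : A →⋆ₙₐ[ℂ] B) : Continuous ι :=
  AddMonoidHomClass.continuous_of_bound ι 1 fun a => by
    simpa using NonUnitalStarAlgHom.norm_apply_le ι a

theorem cont_res (ι : A →⋆ₙₐ[ℂ] B) : Continuous fun ρ : WeakDual ℂ B =>
    StrongDual.toWeakDual (res ι (WeakDual.toStrongDual ρ)) :=
  WeakDual.continuous_of_continuous_eval fun a => WeakDual.eval_continuous (ι a)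

theorem isState_of_ext {ι : A →⋆ₙₐ[ℂ] B} {φ : A →L[ℂ] ℂ} (h : IsState φ) {g : B →L[ℂ] ℂ}
    (hp : ∀ b, 0 ≤ g (star b * b)) (hn : ‖g‖ ≤ 1) (e : ∀ a, g (ι a) = φ a) : IsState g :=
  ⟨hp, le_antisymm hn (by
    rw [← h.2, ← show res ι g = φ from ContinuousLinearMap.ext e]
    exact res_norm ι g)⟩

theorem exists_peak {φ : A →L[ℂ] ℂ} (h : IsState φ) {r : ℝ} (hr : r < 1) :
    ∃ x, ‖x‖ ≤ 1 ∧ r < (φ (star x * x)).re := by
  let _ := CStarAlgebra.spectralOrder A
  have _ := CStarAlgebra.spectralOrderedRing A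
  obtain ⟨x, h1, h2⟩ := φ.exists_lt_apply_of_lt_opNorm (r := (1 + r) / 2) (by rw [h.2]; linarith)
  have l := CStarAlgebra.increasingApproximateUnit A
  have h3 : ‖φ x‖ ^ 2 ≤ (φ (star x * x)).re := by
    refine le_of_tendsto (((φ.continuous.tendsto _).comp (l.tendsto_mul_right x)).norm.pow 2) ?_
    filter_upwards [l.eventually_star_eq, l.eventually_norm] with e e1 e2
    have := pos_cs h.1 e x
    rw [Function.comp_apply, ← e1]
    refine this.trans (mul_le_of_le_one_left (h.1 x).1 ((Complex.re_le_norm _).trans ?_))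
    refine norm_apply_le_one h.2.le ?_
    rw [CStarRing.norm_star_mul_self]
    exact mul_le_one₀ e2 (norm_nonneg _) e2
  exact ⟨x, h1.le, by nlinarith [sq_nonneg (‖φ x‖ - 1)]⟩

theorem st_of_ext {B : Type*} [CStarAlgebra B] {ι : A →⋆ₙₐ[ℂ] B} {φ : A →L[ℂ] ℂ} (h : IsState φ)
    {g : B →L[ℂ] ℂ} (hn : ‖g‖ ≤ 1) (e : ∀ a, g (ι a) = φ a) : St g := by
  let _ := CStarAlgebra.spectralOrder B
  have _ := CStarAlgebra.spectralOrderedRing B
  refine .of_norm hn (eq_one_of_re (norm_apply_le_one hn CuntzData.norm_one_le) ?_)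
  refine le_of_forall_lt fun r hr => ?_
  obtain ⟨x, h1, h2⟩ := exists_peak h (r := (1 + r) / 2) (by linarith)
  have h3 : ‖star (ι x) * ι x‖ ≤ 1 := by
    have := (NonUnitalStarAlgHom.norm_apply_le ι x).trans h1
    rw [CStarRing.norm_star_mul_self]
    exact mul_le_one₀ this (norm_nonneg _) this
  have h4 : ‖star (ι x) * ι x + star (ι x) * ι x - 1‖ ≤ 1 := by
    refine norm_le_of_states (((IsSelfAdjoint.star_mul_self _).add
      (.star_mul_self _)).sub (.one B)) zero_le_one fun ρ hρ => ?_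
    have a1 := hρ.pos (ι x)
    have a2 := (Complex.re_le_norm _).trans ((hρ.le _).trans h3)
    rw [map_sub, map_add, hρ.one, ← Complex.abs_re_eq_norm.2 (by simp [← a1.2]), abs_le]
    have := a1.1
    simp only [Complex.zero_re, Complex.sub_re, Complex.add_re, Complex.one_re] at *
    constructor <;> linarith
  have h5 := (Complex.re_le_norm _).trans (norm_apply_le_one hn h4)
  rw [map_sub, map_add, ← map_star, ← map_mul, e] at h5
  simp only [Complex.sub_re, Complex.add_re] at h5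
  linarith

theorem exists_st {B : Type*} [CStarAlgebra B] (ι : A →⋆ₙₐ[ℂ] B) (hι : Function.Injective ι)
    {φ : A →L[ℂ] ℂ} (h : IsState φ) : ∃ g : B →L[ℂ] ℂ, St g ∧ ∀ a, g (ι a) = φ a := by
  have hn : ∀ a, ‖ι a‖ = ‖a‖ := NonUnitalStarAlgHom.norm_map ι hι
  let l : A →ₗᵢ[ℂ] B := ⟨(ι : A →ₗ[ℂ] B), hn⟩
  let f : StrongDual ℂ (LinearMap.range l.toLinearMap) :=
    φ.comp (l.equivRange.symm.toContinuousLinearEquiv : _ →L[ℂ] A)
  obtain ⟨g, hg1, hg2⟩ := exists_extension_norm_eq _ f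
  have hf : ‖f‖ ≤ 1 := f.opNorm_le_bound zero_le_one fun x => by
    rw [← l.equivRange.symm.norm_map x, ← h.2]
    exact φ.le_opNorm _
  have hga : ∀ a, g (ι a) = φ a := fun a => by
    have := hg1 (l.equivRange a)
    have h2 : g (l a) = φ a := by simpa [f] using this
    exact h2
  exact ⟨g, st_of_ext h (hg2 ▸ hf) hga, hga⟩

/-- The inclusion into the unitization. -/
abbrev inr (A : Type*) [NonUnitalCStarAlgebra A] : A →⋆ₙₐ[ℂ] Unitization ℂ A :=
  Unitization.inrNonUnitalStarAlgHom ℂ A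

theorem inr_inj : Function.Injective (inr A) := Unitization.inr_injective

/-- Extension of states. -/
theorem exists_ext (ι : A →⋆ₙₐ[ℂ] B) (hι : Function.Injective ι) {φ : A →L[ℂ] ℂ}
    (h : IsState φ) : ∃ g : B →L[ℂ] ℂ, IsState g ∧ ∀ a, g (ι a) = φ a := by
  obtain ⟨g, h1, h2⟩ := exists_st ((inr B).comp ι) (inr_inj.comp hι) h
  exact ⟨res (inr B) g, isState_of_ext h (res_pos _ h1.pos) ((res_norm _ g).trans h1.norm_le) h2, h2⟩

theorem ext_inr {ρ σ : Unitization ℂ A →L[ℂ] ℂ} (h1 : ρ 1 = σ 1)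
    (h : ∀ a, ρ (inr A a) = σ (inr A a)) : ρ = σ := by
  ext x
  induction x using Unitization.ind with
  | inl_add_inr r a =>
    have e : (Unitization.inl r : Unitization ℂ A) = r • 1 := by
      rw [← Algebra.algebraMap_eq_smul_one]
      rfl
    rw [map_add, map_add, e, map_smul, map_smul, h1]
    exact congrArg _ (h a)

theorem exists_unitization {φ : A →L[ℂ] ℂ} (h : IsState φ) :
    ∃ g, IsUniqueStateExtension (inr A) φ g := by
  obtain ⟨g, h1, h2⟩ := exists_st (inr A) inr_inj h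
  exact ⟨g, h1.isState, h2, fun ρ r1 r2 =>
    ext_inr (by rw [(St.of_isState r1).one, h1.one]) fun a => by rw [r2, h2]⟩

section Unique

variable {ι : A →⋆ₙₐ[ℂ] B} {φ : A →L[ℂ] ℂ} {φ' : B →L[ℂ] ℂ}

theorem pure_ext (h : IsPureState φ) (e : IsUniqueStateExtension ι φ φ') : IsPureState φ' := by
  have key : ∀ (ρ σ : B →L[ℂ] ℂ) (a b : ℝ), IsState ρ → IsState σ → 0 < a → 0 < b → a + b = 1 →
      a • ρ + b • σ = φ' → IsState (res ι ρ) := fun ρ σ a b hρ hσ ha hb hab h1 => by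
    refine ⟨res_pos ι hρ.1, le_antisymm (hρ.2 ▸ res_norm ι ρ) ?_⟩
    have h2 : φ = a • res ι ρ + b • res ι σ := ContinuousLinearMap.ext fun x => by
      rw [← e.2.1, ← h1]
      rfl
    have h3 := norm_add_le (a • res ι ρ) (b • res ι σ)
    rw [← h2, h.1.2, norm_smul, norm_smul, Real.norm_of_nonneg ha.le,
      Real.norm_of_nonneg hb.le] at h3
    have h4 := res_norm ι σ
    rw [hσ.2] at h4
    nlinarith
  rw [IsPureState, mem_extremePoints_iff_left] at h ⊢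
  refine ⟨e.1, ?_⟩
  rintro ρ hρ σ hσ ⟨a, b, ha, hb, hab, h1⟩
  refine e.2.2 ρ hρ fun x => ?_
  rw [← h.2 _ (key ρ σ a b hρ hσ ha hb hab h1) _
    (key σ ρ b a hσ hρ hb ha (add_comm a b ▸ hab) (add_comm (a • ρ) _ ▸ h1)) ⟨a, b, ha, hb, hab,
      ContinuousLinearMap.ext fun x => by rw [← e.2.1, ← h1]; rfl⟩, res_apply]

theorem gdelta_up (h : IsState φ) (e : IsUniqueStateExtension ι φ φ') (g : IsGDeltaState φ) :
    IsGDeltaState φ' := by
  obtain ⟨U, hU, g⟩ := g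
  choose x x1 x2 using fun n : ℕ => exists_peak h (r := 1 - 1 / ((n : ℝ) + 1))
    (sub_lt_self _ Nat.one_div_pos_of_nat)
  refine ⟨fun n => (fun ρ => StrongDual.toWeakDual (res ι (WeakDual.toStrongDual ρ))) ⁻¹'
    (U n ∩ {ρ | 1 - 1 / ((n : ℝ) + 1) < (ρ (star (x n) * x n)).re}), fun n =>
    ((hU n).inter (isOpen_lt continuous_const
      (Complex.continuous_re.comp (WeakDual.eval_continuous _)))).preimage (cont_res ι),
    fun ρ hρ => ⟨fun h1 => e.2.2 ρ hρ fun a => ?_, fun h1 n => ?_⟩⟩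
  · rw [← res_apply, (g (res ι ρ) ⟨res_pos ι hρ.1, le_antisymm (hρ.2 ▸ res_norm ι ρ)
      (le_of_forall_lt fun r hr => ?_)⟩).1 fun n => (h1 n).1]
    obtain ⟨n, hn⟩ := exists_nat_one_div_lt (sub_pos.2 hr)
    have h2 : 1 - 1 / ((n : ℝ) + 1) < (res ι ρ (star (x n) * x n)).re := (h1 n).2
    have h3 := (Complex.re_le_norm _).trans ((res ι ρ).le_of_opNorm_le_of_le le_rfl
      (x := star (x n) * x n) (b := 1) (by
        rw [CStarRing.norm_star_mul_self]
        exact mul_le_one₀ (x1 n) (norm_nonneg _) (x1 n)))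
    linarith
  · have h2 : res ι ρ = φ := h1 ▸ ContinuousLinearMap.ext e.2.1
    have h3 : StrongDual.toWeakDual φ ∈
        U n ∩ {ρ | 1 - 1 / ((n : ℝ) + 1) < (ρ (star (x n) * x n)).re} := ⟨(g φ h).2 rfl n, x2 n⟩
    rwa [← h2] at h3

theorem gdelta_down (hι : Function.Injective ι) (h : IsState φ)
    (e : IsUniqueStateExtension ι φ φ') (g : IsGDeltaState φ') : IsGDeltaState φ := by
  obtain ⟨U, hU, g⟩ := g
  refine ⟨fun n => ((fun ρ => StrongDual.toWeakDual (res ι (WeakDual.toStrongDual ρ))) ''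
    (Q B ∩ (U n)ᶜ))ᶜ, fun n => (((isCompact_Q B).inter_right (hU n).isClosed_compl).image
      (cont_res ι)).isClosed.isOpen_compl, fun ρ hρ => ⟨fun h1 => ?_, ?_⟩⟩
  · obtain ⟨σ, s1, s2⟩ := exists_ext ι hι hρ
    have : σ = φ' := (g σ s1).1 fun n => by
      by_contra h2
      exact h1 n ⟨StrongDual.toWeakDual σ, ⟨⟨s1.2.le, s1.1⟩, h2⟩,
        congrArg _ (ContinuousLinearMap.ext s2)⟩
    exact ContinuousLinearMap.ext fun a => by rw [← s2, this, e.2.1]
  · rintro rfl n ⟨σ, ⟨s1, s2⟩, s3⟩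
    have s4 : ∀ a, WeakDual.toStrongDual σ (ι a) = ρ a := fun a => DFunLike.congr_fun s3 a
    have := (g _ e.1).2 rfl n
    rw [← e.2.2 _ (isState_of_ext h s1.2 s1.1 s4) s4] at this
    exact s2 this

end Unique

theorem equiv_ext (α : A ≃⋆ₐ[ℂ] B) {φ : A →L[ℂ] ℂ} {ψ : B →L[ℂ] ℂ} (h : IsState ψ)
    (e : ∀ a, φ a = ψ (α a)) : IsUniqueStateExtension (α : A →⋆ₙₐ[ℂ] B) φ ψ :=
  ⟨h, fun a => (e a).symm, fun ρ _ r => ContinuousLinearMap.ext fun b => by
    obtain ⟨a, rfl⟩ := α.surjective b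
    exact (r a).trans (e a)⟩

theorem inj_of_simple (hA : IsSimpleCStar A) (f : A →⋆ₙₐ[ℂ] B) {a : A} (h : f a ≠ 0) :
    Function.Injective f := by
  rcases hA (TwoSidedIdeal.ker f) (by
    rw [show (TwoSidedIdeal.ker f : Set A) = {y | f y = 0} from
      Set.ext fun y => TwoSidedIdeal.mem_ker f]
    exact isClosed_eq (cont_hom f) continuous_const) with e | e
  · exact (injective_iff_map_eq_zero f).2 fun x hx => by
      rwa [← TwoSidedIdeal.mem_ker, e, TwoSidedIdeal.mem_bot] at hx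
  · exact absurd ((TwoSidedIdeal.mem_ker f).1 (e ▸ trivial)) h

end Pool.Agent.P.MP_8219a1_an.G
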