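import Pool.Agent.P.MP_8219a1_an.G.CharDef
import Pool.Agent.P.MP_8219a1_an.G.Ext

set_option autoImplicit false

open scoped ComplexOrder
open Filter Topology Cardinal

noncomputable section

namespace Pool.Agent.P.MP_8219a1_an.G

universe u

theorem tendsto_of_det {B I J : Type*} [NonUnitalCStarAlgebra B] (z : I → B) {φ : B →L[ℂ] ℂ}
    (hd : ∀ ρ : B →L[ℂ] ℂ, ‖ρ‖ ≤ 1 → (∀ b, 0 ≤ ρ (star b * b)) → (∀ i, ρ (z i) = φ (z i)) → ρ = φ)
    {l : Filter J} {τ : J → B →L[ℂ] ℂ} (h1 : ∀ j, ‖τ j‖ ≤ 1) (h2 : ∀ j b, 0 ≤ τ j (star b * b))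
    (h : ∀ i, Tendsto (fun j => τ j (z i)) l (𝓝 (φ (z i)))) (b : B) :
    Tendsto (fun j => τ j b) l (𝓝 (φ b)) := by
  refine ((WeakDual.eval_continuous b).tendsto (StrongDual.toWeakDual φ)).comp
    ((isCompact_Q B).tendsto_nhds_of_unique_mapClusterPt
      (f := fun j => StrongDual.toWeakDual (τ j)) (.of_forall fun j => ⟨h1 j, h2 j⟩)
      fun ρ r1 r2 => ?_)
  exact hd (WeakDual.toStrongDual ρ) r1.1 r1.2 fun i => eq_of_nhds_neBot
    ((r2.continuousAt_comp (WeakDual.eval_continuous (z i)).continuousAt).clusterPt.mono (h i))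

theorem le_stateChar {A K : Type u} [NonUnitalCStarAlgebra A] (hK : ℵ₀ < #K) {φ : A →L[ℂ] ℂ}
    (τ : K → A →L[ℂ] ℂ) (h1 : ∀ j, IsState (τ j)) (h2 : ∀ j, τ j ≠ φ)
    (h3 : ∀ a, Tendsto (fun j => τ j a) cofinite (𝓝 (φ a))) : #K ≤ stateChar φ := by
  refine le_csInf ⟨_, _, rfl, basis_sets _⟩ ?_
  rintro _ ⟨T, rfl, hT⟩
  by_contra h
  have t : Tendsto (fun j => StrongDual.toWeakDual (τ j)) cofinite
      (𝓝[{ρ | IsState (WeakDual.toStrongDual ρ)}] StrongDual.toWeakDual φ) :=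
    tendsto_nhdsWithin_iff.2 ⟨tendsto_iff_forall_eval_tendsto_topDualPairing.2 h3, .of_forall h1⟩
  have h4 : #(⋃ U : T, {j | StrongDual.toWeakDual (τ j) ∉ U.1} : Set K) < #K :=
    (mk_iUnion_le_sum_mk.trans (sum_le_sum _ (fun _ => ℵ₀) fun U =>
      (lt_aleph0_iff_set_finite.2 (t (hT.mem_of_mem U.2))).le)).trans_lt
      ((sum_const' _ _).trans_lt (mul_lt_of_lt hK.le (not_le.1 h) hK))
  obtain ⟨j, hj⟩ := (Set.ne_univ_iff_exists_notMem
      (⋃ U : T, {j | StrongDual.toWeakDual (τ j) ∉ U.1} : Set K)).1 fun e => by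
    rw [e, mk_univ] at h4
    exact h4.false
  simp only [Set.mem_iUnion, Set.mem_ofPred_eq, not_exists, not_not] at hj
  obtain ⟨U, u1, u2⟩ := hT.mem_iff.1 (mem_nhdsWithin_of_mem_nhds
    (isOpen_ne.mem_nhds (x := StrongDual.toWeakDual φ) (h2 j).symm :
      {y | y ≠ StrongDual.toWeakDual (τ j)} ∈ _))
  exact u2 (hj ⟨U, u1⟩) rfl

theorem stateChar_le {A I : Type u} [CStarAlgebra A] [Infinite I] (z : I → A) {φ : A →L[ℂ] ℂ}
    (hd : ∀ ρ : A →L[ℂ] ℂ, St ρ → (∀ i, ρ (z i) = φ (z i)) → ρ = φ) : stateChar φ ≤ #I := by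
  let _ := CStarAlgebra.spectralOrder A
  have _ := CStarAlgebra.spectralOrderedRing A
  let S : Set (WeakDual ℂ A) := {ρ | IsState (WeakDual.toStrongDual ρ)}
  let C : I × ℕ → Set (WeakDual ℂ A) := fun p =>
    {ρ | ‖ρ (z p.1) - φ (z p.1)‖ ≤ 1 / ((p.2 : ℝ) + 1)}
  have hc : ∀ p : I × ℕ, Continuous fun ρ : WeakDual ℂ A => ‖ρ (z p.1) - φ (z p.1)‖ := fun p =>
    ((WeakDual.eval_continuous _).sub continuous_const).norm
  have hS : IsCompact S := by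
    rw [show S = Q A ∩ {ρ | ρ 1 = 1} from Set.ext fun ρ =>
      ⟨fun h => ⟨⟨h.2.le, h.1⟩, (St.of_isState h).one⟩, fun h => St.isState ⟨h.1.2, h.2, h.1.1⟩⟩]
    exact (isCompact_Q A).inter_right (isClosed_eq (WeakDual.eval_continuous _) continuous_const)
  refine le_trans (b := #(Set.range fun G : Finset (I × ℕ) => S ∩ ⋂ p ∈ G, C p))
    (csInf_le' ⟨_, rfl, ⟨fun t => ⟨fun ht => ?_, ?_⟩⟩⟩) (mk_range_le.trans (by simp))
  · obtain ⟨O, o1, o2, o3⟩ := mem_nhdsWithin.1 ht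
    obtain ⟨G, hG⟩ := (hS.inter_right o1.isClosed_compl).elim_finite_subfamily_closed C
      (fun p => isClosed_le (hc p) continuous_const) (by
        rw [Set.eq_empty_iff_forall_notMem]
        rintro ρ ⟨⟨r1, r2⟩, r3⟩
        have := hd _ (.of_isState r1) fun i => sub_eq_zero.1 (norm_le_zero_iff.1
          (ge_of_tendsto' tendsto_one_div_add_atTop_nhds_zero_nat fun n =>
            Set.mem_iInter.1 r3 (i, n)))
        rw [← this] at o2
        exact r2 o2)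
    refine ⟨_, ⟨G, rfl⟩, fun ρ hρ => o3 ⟨?_, hρ.1⟩⟩
    by_contra h
    exact Set.eq_empty_iff_forall_notMem.1 hG ρ ⟨⟨hρ.1, h⟩, hρ.2⟩
  · rintro ⟨_, ⟨G, rfl⟩, h⟩
    refine mem_of_superset (inter_mem self_mem_nhdsWithin (mem_nhdsWithin_of_mem_nhds
      ((biInter_finset_mem G).2 fun p _ => ?_))) h
    refine mem_of_superset ((isOpen_lt (hc p) continuous_const).mem_nhds
      (show ‖φ _ - φ _‖ < 1 / ((p.2 : ℝ) + 1) from ?_)) fun ρ h => h.out.le
    rw [sub_self, norm_zero]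
    positivity

end Pool.Agent.P.MP_8219a1_an.G
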