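import Pool.Agent.P.MP_8219a1_an.Defs

set_option autoImplicit false

universe u

namespace Pool.Agent.P.MP_8219a1_an

/-- The character of a state `φ`: the least cardinality of a neighbourhood basis of `φ` in the
state space with the weak-star topology. -/
noncomputable def stateChar {A : Type u} [NonUnitalCStarAlgebra A] (φ : A →L[ℂ] ℂ) :
    Cardinal.{u} :=
  sInf {c | ∃ T : Set (Set (WeakDual ℂ A)), Cardinal.mk T = c ∧
    (nhdsWithin (StrongDual.toWeakDual φ) {ρ | IsState (WeakDual.toStrongDual ρ)}).HasBasis
      (fun U => U ∈ T) id}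

end Pool.Agent.P.MP_8219a1_an
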