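import Pool.Agent.P.MP_8219a1_an.G.Chain

set_option autoImplicit false

open scoped ComplexOrder InnerProductSpace
open Filter Topology

noncomputable section

namespace Pool.Agent.P.MP_8219a1_an.G

universe u

variable {A : Type u} [CStarAlgebra A] [PartialOrder A] [StarOrderedRing A]

/-- The GNS representation of `ρ` is faithful on `I`. -/
def Faithful (I : TwoSidedIdeal A) (ρ : A →L[ℂ] ℂ) : Prop :=
  ∀ x ∈ I, (∀ y, ρ (star (x * y) * (x * y)) = 0) → x = 0

/-- Positive contractions with a plateau. -/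
def Plat (I : TwoSidedIdeal A) (k : A) : Prop :=
  0 ≤ k ∧ k ≤ 1 ∧ ∃ k' : A, k' ≠ 0 ∧ k * k' = k' ∧ k' ∈ I

variable {I : TwoSidedIdeal A}

theorem exists_half {z : A} (hz : IsSelfAdjoint z) (h : ¬z ≤ 0) (hI : z ∈ I) :
    ∃ f : ℝ → ℝ, Continuous f ∧ (∀ t ≤ 0, f t = 0) ∧ Plat I (cfc f z) := by
  obtain ⟨s, hs, hs0⟩ : ∃ s ∈ spectrum ℝ z, 0 < s := by
    by_contra h1
    push Not at h1
    exact h (by simpa only [cfc_id' ℝ z hz] using cfc_nonpos (fun t : ℝ => t) z h1)
  have hf : Continuous fun t : ℝ => max 0 (min 1 (2 * t / s)) := by fun_prop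
  have hg' : Continuous fun t : ℝ => max 0 (t - s / 2) := by fun_prop
  have hg : Continuous fun t : ℝ => max 0 (t - s / 2) * t := by fun_prop
  refine ⟨_, hf, fun t ht => max_eq_left ((min_le_right _ _).trans
    (div_nonpos_of_nonpos_of_nonneg (by linarith) hs0.le)), cfc_nonneg fun t _ => le_max_left _ _,
    cfc_le_one _ _ fun t _ => max_le zero_le_one (min_le_left _ _),
    cfc (fun t : ℝ => max 0 (t - s / 2) * t) z, fun h0 => ?_, ?_, ?_⟩
  · rw [← cfc_zero ℝ z, cfc_eq_cfc_iff_eqOn hz hg.continuousOn continuous_zero.continuousOn] at h0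
    have := h0 hs
    simp only [Pi.zero_apply, mul_eq_zero, max_eq_left_iff] at this
    rcases this with h1 | h1 <;> linarith
  · rw [← cfc_mul _ _ z hf.continuousOn hg.continuousOn]
    refine cfc_congr fun t _ => ?_
    rcases le_total t (s / 2) with h1 | h1
    · simp only [max_eq_left (sub_nonpos.2 h1), zero_mul, mul_zero]
    · have : 1 ≤ 2 * t / s := by rw [le_div_iff₀ hs0]; linarith
      simp only [min_eq_left this, max_eq_right (zero_le_one' ℝ), one_mul]
  · rw [cfc_mul _ _ z hg'.continuousOn continuous_id'.continuousOn, cfc_id' ℝ z hz]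
    exact I.mul_mem_left _ _ hI

omit [PartialOrder A] [StarOrderedRing A] in
theorem cfc_mul_eq {z k : A} (hz : IsSelfAdjoint z) (h : z * k = z) {f : ℝ → ℝ}
    (hf : Continuous f) (h0 : f 0 = 0) : cfc f z * k = cfc f z := by
  have := eigen_cfc ((ContinuousLinearMap.mul ℂ A).flip (1 - k)) hz (t := 0)
    (fun y => by simp [mul_assoc, mul_sub, h]) hf 1
  simp only [one_mul, h0, ContinuousLinearMap.flip_apply, ContinuousLinearMap.mul_apply',
    Complex.ofReal_zero, zero_smul, mul_sub, mul_one, sub_eq_zero] at this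
  exact this.symm

theorem not_le_of_small {a b : A} (h : ‖star a * b‖ < ‖a‖ ^ 2) : ¬a * star a - b * star b ≤ 0 := by
  intro h1
  have h2 := star_left_conjugate_le_conjugate (sub_nonpos.1 h1) a
  have e1 : star a * (a * star a) * a = star (star a * a) * (star a * a) := by
    simp only [star_mul, star_star, mul_assoc]
  have e2 : star a * (b * star b) * a = star a * b * star (star a * b) := by
    simp only [star_mul, star_star, mul_assoc]
  rw [e1, e2] at h2
  have h3 := CStarAlgebra.norm_le_norm_of_nonneg_of_le (star_mul_self_nonneg _) h2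
  rw [CStarRing.norm_star_mul_self, CStarRing.norm_star_mul_self,
    CStarRing.norm_self_mul_star, ← sq ‖a‖] at h3
  nlinarith [norm_nonneg (star a * b)]

variable {φ : Bool → A →L[ℂ] ℂ} {c : Bool → ℕ → A}

theorem Chain.split (h : Chain φ c) (hf : ∀ i, Faithful I (φ i)) {k : A} (hk : Plat I k) :
    ∃ k0 k1, Plat I k0 ∧ Plat I k1 ∧ k * k0 = k0 ∧ k * k1 = k1 ∧ k0 * k1 = 0 := by
  obtain ⟨p0, -, k', h0, h1, hI⟩ := hk
  have h2 : ∀ i, ∃ y, φ i (star (k' * y) * (k' * y)) ≠ 0 := fun i => by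
    by_contra h3
    push Not at h3
    exact h0 (hf i k' hI h3)
  choose y hy using h2
  have h3 : ∀ i, ∀ᶠ N in atTop, ‖star (k' * y i * c i N) * (k' * y (!i) * c (!i) N)‖ <
      ‖k' * y i * c i N‖ ^ 2 := fun i => by
    filter_upwards [NormedAddGroup.tendsto_nhds_zero.1
      (h.disj i (star (k' * y i) * (k' * y (!i)))) _ (norm_pos_iff.2 (hy i))] with N hN
    have E := h.ex i
    rw [star_mul _ (c i N), E.sa, ← mul_assoc, mul_assoc (c i N)]
    refine hN.trans_le ?_
    rw [← E.st.mul_left (E.norm_le N) (E.val N), ← E.st.mul_right (E.norm_le N) (E.val N), sq,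
      ← CStarRing.norm_star_mul_self, star_mul _ (c i N), E.sa]
    simpa only [mul_assoc] using E.st.le _
  obtain ⟨N, e1, e2⟩ := ((h3 true).and (h3 false)).exists
  have n1 := not_le_of_small e1
  have n2 := not_le_of_small e2
  simp only [Bool.not_true, Bool.not_false] at n1 n2
  set a := k' * y true * c true N with ha
  set b := k' * y false * c false N with hb
  rw [← neg_sub] at n2
  set z := a * star a - b * star b with hz
  have hs : IsSelfAdjoint z := (IsSelfAdjoint.mul_star_self a).sub (IsSelfAdjoint.mul_star_self b)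
  have hk := (IsSelfAdjoint.of_nonneg p0).star_eq
  have e3 : k * z = z := by simp only [hz, ha, hb, mul_sub, ← mul_assoc, h1]
  have e4 : z * k = z := by rw [← hs.star_eq, ← hk, ← star_mul, e3]
  have zI : z ∈ I := I.sub_mem (I.mul_mem_right _ _ (I.mul_mem_right _ _ (I.mul_mem_right _ _ hI)))
    (I.mul_mem_right _ _ (I.mul_mem_right _ _ (I.mul_mem_right _ _ hI)))
  obtain ⟨f, f1, f2, f3⟩ := exists_half hs n1 zI
  obtain ⟨g, g1, g2, g3⟩ := exists_half hs.neg n2 (I.neg_mem zI)
  refine ⟨_, _, f3, g3, ?_, ?_, ?_⟩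
  · rw [← IsSelfAdjoint.cfc.star_eq, ← hk, ← star_mul, cfc_mul_eq hs e4 f1 (f2 0 le_rfl)]
  · rw [← IsSelfAdjoint.cfc.star_eq, ← hk, ← star_mul,
      cfc_mul_eq hs.neg (by rw [neg_mul, e4]) g1 (g2 0 le_rfl)]
  · rw [← cfc_comp_neg _ z g1.continuousOn hs,
      ← cfc_mul _ _ z f1.continuousOn (g1.comp' continuous_neg).continuousOn, ← cfc_zero ℝ z]
    refine cfc_congr fun t _ => ?_
    rcases le_total t 0 with h5 | h5
    · simp only [f2 t h5, zero_mul, Pi.zero_apply]
    · simp only [g2 (-t) (neg_nonpos.2 h5), mul_zero, Pi.zero_apply]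

/-- A diffuse state. -/
theorem Chain.exists_diffuse (h : Chain φ c) (hf : ∀ i, Faithful I (φ i)) {k : A}
    (hk : Plat I k) :
    ∃ ω : A →L[ℂ] ℂ, St ω ∧ ω k = 1 ∧
      ∀ i x, Tendsto (fun N => (ω (star (c i N * x) * (c i N * x))).re) atTop (𝓝 0) := by
  choose l r h1 h2 h3 h4 h5 using fun k : {k : A // Plat I k} => h.split hf k.2
  let L : {k : A // Plat I k} → {k : A // Plat I k} := fun k => ⟨l k, h1 k⟩
  let R : {k : A // Plat I k} → {k : A // Plat I k} := fun k => ⟨r k, h2 k⟩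
  let nm : ℕ → {k : A // Plat I k} → A → ℝ := fun m =>
    Nat.rec (fun k y => ‖y * k.1‖ ^ 2) (fun _ F k y => (F (L k) y + F (R k) y) / 2) m
  let rm : ℕ → {k : A // Plat I k} → A := fun m =>
    Nat.rec (fun k => k.1 * k.1) (fun _ F k => F (L k) + F (R k)) m
  have n0 : ∀ k y, nm 0 k y = ‖y * k.1‖ ^ 2 := fun _ _ => rfl
  have n1 : ∀ m k y, nm (m + 1) k y = (nm m (L k) y + nm m (R k) y) / 2 := fun _ _ _ => rfl
  have r0 : ∀ k, rm 0 k = k.1 * k.1 := fun _ => rfl
  have r1 : ∀ m k, rm (m + 1) k = rm m (L k) + rm m (R k) := fun _ _ => rfl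
  have sa : ∀ k : {k : A // Plat I k}, star k.1 = k.1 := fun k =>
    (IsSelfAdjoint.of_nonneg k.2.1).star_eq
  have nl : ∀ k : {k : A // Plat I k}, ‖k.1‖ ≤ 1 := fun k =>
    (CStarAlgebra.norm_le_one_iff_of_nonneg _ k.2.1).2 k.2.2.1
  have two : ∀ k, (L k).1 * (L k).1 + (R k).1 * (R k).1 ≤ 1 := fun k => by
    have e : (R k).1 * (L k).1 = 0 := by
      rw [← sa, ← sa (L k), ← star_mul, h5, star_zero]
    have e2 : (L k).1 * (L k).1 + (R k).1 * (R k).1 =
        star ((L k).1 - (R k).1) * ((L k).1 - (R k).1) := by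
      rw [star_sub, sa, sa, sub_mul, mul_sub, mul_sub, e, h5]
      abel
    have e3 : ‖(L k).1 - (R k).1‖ ≤ 1 := by
      refine norm_le_of_states (by rw [IsSelfAdjoint, star_sub, sa, sa]) zero_le_one fun ρ hρ => ?_
      have a1 := pos_nonneg hρ.pos (L k).2.1
      have a2 := pos_nonneg hρ.pos (R k).2.1
      have a3 := (Complex.re_le_norm _).trans ((hρ.le _).trans (nl (L k)))
      have a4 := (Complex.re_le_norm _).trans ((hρ.le _).trans (nl (R k)))
      rw [map_sub, ← Complex.abs_re_eq_norm.2 (by rw [Complex.sub_im, ← a1.2, ← a2.2, sub_self]),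
        Complex.sub_re, abs_le]
      have := a1.1
      have := a2.1
      simp only [Complex.zero_re] at *
      constructor <;> linarith
    rw [e2, ← CStarAlgebra.norm_le_one_iff_of_nonneg _ (star_mul_self_nonneg _),
      CStarRing.norm_star_mul_self]
    exact mul_le_one₀ e3 (norm_nonneg _) e3
  have rle : ∀ m k, rm m k ≤ k.1 * k.1 := fun m => by
    induction m with
    | zero => exact fun k => le_rfl
    | succ m ih =>
      intro k
      refine (add_le_add (ih (L k)) (ih (R k))).trans ?_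
      have e1 : l k * k.1 = l k := by
        simpa only [star_mul, sa, show star (l k) = l k from sa (L k)] using congrArg star (h3 k)
      have e2 : r k * k.1 = r k := by
        simpa only [star_mul, sa, show star (r k) = r k from sa (R k)] using congrArg star (h4 k)
      have := conjugate_le_conjugate_of_nonneg (two k) k.2.1
      simp only [mul_add, add_mul, mul_one, mul_assoc, L, R, e1, e2] at this
      simpa only [← mul_assoc, h3, h4] using this
  have mono : ∀ m k y, nm (m + 1) k y ≤ nm m k y := fun m => by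
    induction m with
    | zero =>
      intro k y
      have e : ∀ k' : {k : A // Plat I k}, k.1 * k'.1 = k'.1 → ‖y * k'.1‖ ^ 2 ≤ ‖y * k.1‖ ^ 2 :=
        fun k' e => pow_le_pow_left₀ (norm_nonneg _) (by
          rw [← e, ← mul_assoc]
          exact (norm_mul_le _ _).trans (mul_le_of_le_one_right (norm_nonneg _) (nl k'))) 2
      rw [n1, n0, n0, n0]
      linarith [e (L k) (h3 k), e (R k) (h4 k)]
    | succ m ih =>
      intro k y
      rw [n1 (m + 1), n1 m k]
      linarith [ih (L k) y, ih (R k) y]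
  have ex : ∀ m k, ∃ τ : A →L[ℂ] ℂ, St τ ∧ ∀ y, (τ (star y * y)).re ≤ nm m k y := fun m => by
    induction m with
    | zero =>
      intro k
      obtain ⟨k', e0, e1, -⟩ := k.2.2.2
      have : Nontrivial A := ⟨k', 0, e0⟩
      obtain ⟨τ, t1, t2⟩ := exists_norm_state k.2.1
      have e2 : ‖k.1‖ = 1 := le_antisymm (nl k) (by
        have := norm_mul_le k.1 k'
        rw [e1] at this
        exact (le_mul_iff_one_le_left (norm_pos_iff.2 e0)).1 this)
      rw [e2, Complex.ofReal_one] at t2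
      refine ⟨τ, t1, fun y => ?_⟩
      rw [n0, ← t1.mul_left (nl k) t2, ← t1.mul_right (nl k) t2, sq,
        ← CStarRing.norm_star_mul_self, star_mul, sa]
      simpa only [mul_assoc] using (Complex.re_le_norm _).trans (t1.le _)
    | succ m ih =>
      intro k
      obtain ⟨τ, t1, t2⟩ := ih (L k)
      obtain ⟨σ, s1, s2⟩ := ih (R k)
      refine ⟨(1 / 2 : ℂ) • (τ + σ), .of_pos (fun a => mul_nonneg (by positivity)
        (add_nonneg (t1.pos a) (s1.pos a))) (by simp [t1.one, s1.one]; norm_num), fun y => ?_⟩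
      have := t2 y
      have := s2 y
      rw [n1]
      simp only [smul_apply, add_apply, smul_eq_mul]
      rw [show (1 / 2 : ℂ) = ((1 / 2 : ℝ) : ℂ) by norm_num, Complex.re_ofReal_mul, Complex.add_re]
      linarith
  have ev : ∀ i x m k ε, 0 < ε → ∀ᶠ N in atTop,
      nm m k (c i N * x) ≤ (1 / 2) ^ m * (φ i (x * rm m k * star x)).re + ε := fun i x m => by
    induction m with
    | zero =>
      intro k ε hε
      filter_upwards [(h.ex i).sq_le (k.1 * star x) hε] with N hN
      rw [n0, r0, ← norm_star, star_mul, star_mul, sa, (h.ex i).sa, ← mul_assoc]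
      simpa only [star_mul, star_star, sa, mul_assoc, pow_zero, one_mul] using hN
    | succ m ih =>
      intro k ε hε
      filter_upwards [ih (L k) ε hε, ih (R k) ε hε] with N e1 e2
      rw [n1, r1, mul_add x, add_mul, map_add, Complex.add_re, pow_succ]
      linarith
  let F : ℕ → Set (WeakDual ℂ A) := fun m =>
    Q A ∩ ({ρ | ρ 1 = 1} ∩ ⋂ y, {ρ | (ρ (star y * y)).re ≤ nm m (L ⟨k, hk⟩) y})
  have hcl : ∀ m, IsCompact (F m) := fun m => (isCompact_Q A).inter_right
    ((isClosed_eq (WeakDual.eval_continuous _) continuous_const).inter (isClosed_iInter fun y =>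
      isClosed_le (Complex.continuous_re.comp (WeakDual.eval_continuous _)) continuous_const))
  obtain ⟨ω, hω⟩ := IsCompact.nonempty_iInter_of_sequence_nonempty_isCompact_isClosed F
    (fun m ρ hρ => ⟨hρ.1, hρ.2.1, Set.mem_iInter.2 fun y =>
      (Set.mem_iInter.1 hρ.2.2 y).out.trans (mono m _ y)⟩)
    (fun m => by
      obtain ⟨τ, t1, t2⟩ := ex m (L ⟨k, hk⟩)
      exact ⟨StrongDual.toWeakDual τ, ⟨t1.norm_le, t1.pos⟩, t1.one, Set.mem_iInter.2 t2⟩)
    (hcl 0) fun m => (hcl m).isClosed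
  rw [Set.mem_iInter] at hω
  have hs : St (WeakDual.toStrongDual ω) := ⟨(hω 0).1.2, (hω 0).2.1, (hω 0).1.1⟩
  have hb : ∀ m y, (WeakDual.toStrongDual ω (star y * y)).re ≤ nm m (L ⟨k, hk⟩) y := fun m y =>
    Set.mem_iInter.1 (hω m).2.2 y
  refine ⟨WeakDual.toStrongDual ω, hs, ?_, fun i x => ?_⟩
  · have e1 := hb 0 (1 - k)
    rw [n0, sub_mul 1 k, one_mul, h3 ⟨k, hk⟩, sub_self, norm_zero, zero_pow two_ne_zero,
      ← pos_norm hs.pos (star_mul_self_nonneg _), norm_le_zero_iff] at e1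
    have := (cs_zero _ hs.pos _ e1 1).1
    rw [star_one, one_mul, map_sub, hs.one, sub_eq_zero] at this
    exact this.symm
  · refine NormedAddGroup.tendsto_nhds_zero.2 fun ε hε => ?_
    have t := (tendsto_pow_atTop_nhds_zero_of_lt_one (r := (1 / 2 : ℝ)) (by norm_num)
      (by norm_num)).mul_const (φ i (x * 1 * star x)).re
    rw [zero_mul] at t
    obtain ⟨m, hm⟩ := (t.eventually (gt_mem_nhds (half_pos hε))).exists
    filter_upwards [ev i x m (L ⟨k, hk⟩) _ (half_pos hε)] with N hN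
    have e1 : rm m (L ⟨k, hk⟩) ≤ 1 := (rle m _).trans ((le_add_of_nonneg_right
      (by simpa only [sa] using star_mul_self_nonneg (R ⟨k, hk⟩).1)).trans (two _))
    have e2 := mul_le_mul_of_nonneg_left (pos_mono (h.ex i).st.pos
      (star_right_conjugate_le_conjugate e1 x)) (show (0 : ℝ) ≤ (1 / 2) ^ m by positivity)
    rw [Real.norm_of_nonneg (hs.pos _).1]
    linarith [hb m (c i N * x)]

/-- A faithful representation disjoint from both states, with adapted unit vectors. -/
structure Rep {K : Type*} [NormedAddCommGroup K] [InnerProductSpace ℂ K] [CompleteSpace K]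
    (c : Bool → ℕ → A) (σ : A →⋆ₐ[ℂ] (K →L[ℂ] K)) (ξ : Bool → ℕ → K) : Prop where
  inj : Function.Injective σ
  lim : ∀ i ζ, Tendsto (fun N => σ (c i N) ζ) atTop (𝓝 0)
  unit : ∀ i N, ‖ξ i N‖ = 1
  fix : ∀ i N, σ (c i N) (ξ i N) = ξ i N
  kill : ∀ i N, σ (c i (N + 1)) (ξ i N) = 0

theorem Chain.exists_rep (h : Chain φ c) {ω : A →L[ℂ] ℂ} (hω : St ω) (hf : Faithful ⊤ ω)
    (hd : ∀ i x, Tendsto (fun N => (ω (star (c i N * x) * (c i N * x))).re) atTop (𝓝 0)) :
    ∃ (K : Type u) (_ : NormedAddCommGroup K) (_ : InnerProductSpace ℂ K) (_ : CompleteSpace K)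
      (c' : Bool → ℕ → A) (σ : A →⋆ₐ[ℂ] (K →L[ℂ] K)) (ξ : Bool → ℕ → K),
      Chain φ c' ∧ Rep c' σ ξ := by
  obtain ⟨K, _, _, _, σ, ζ₀, h1, h2⟩ := hω.gns
  have inj : Function.Injective σ := (injective_iff_map_eq_zero σ).2 fun x hx =>
    hf x trivial fun y => by
    rw [h1, inner_star_mul, map_mul, hx]
    simp
  have nl : ∀ i N ζ, ‖σ (c i N) ζ‖ ≤ ‖ζ‖ := fun i N ζ => by
    simpa using (σ (c i N)).le_of_opNorm_le
      ((NonUnitalStarAlgHom.norm_apply_le σ _).trans ((h.ex i).norm_le N)) ζ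
  have lim : ∀ i ζ, Tendsto (fun N => σ (c i N) ζ) atTop (𝓝 0) := fun i ζ => by
    refine NormedAddGroup.tendsto_nhds_zero.2 fun ε hε => ?_
    obtain ⟨x, hx⟩ := h2.exists_dist_lt ζ (half_pos hε)
    filter_upwards [(hd i x).eventually (gt_mem_nhds (pow_pos (half_pos hε) 2))] with N hN
    rw [h1, inner_star_self, Complex.ofReal_re, map_mul, mul_apply_eq_comp] at hN
    have e1 := lt_of_pow_lt_pow_left₀ 2 (half_pos hε).le hN
    have e2 := nl i N (ζ - σ x ζ₀)
    rw [map_sub] at e2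
    rw [dist_eq_norm] at hx
    linarith [norm_le_norm_add_norm_sub' (σ (c i N) ζ) (σ (c i N) (σ x ζ₀))]
  have step : ∀ i n, ∃ m, n < m ∧ ∃ ξ : K, ‖ξ‖ = 1 ∧ σ (c i n) ξ = ξ ∧ σ (c i m) ξ = 0 := by
    intro i n
    have E := h.ex i
    obtain ⟨ζ, hζ⟩ : ∃ ζ, σ (c i (n + 1)) ζ ≠ 0 := by
      by_contra h3
      push Not at h3
      have := E.val (n + 1)
      rw [(injective_iff_map_eq_zero σ).1 inj _ (ContinuousLinearMap.ext h3), map_zero] at this
      exact zero_ne_one this
    obtain ⟨m, m1, m2⟩ := (((lim i (σ (c i (n + 1)) ζ)).eventually_ne hζ.symm).and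
      (eventually_gt_atTop n)).exists
    set v := σ ((1 - c i m) * c i (n + 1)) ζ with hv
    have h0 : v ≠ 0 := by
      rw [hv, sub_mul, one_mul, map_sub, sub_apply, map_mul, mul_apply_eq_comp]
      exact sub_ne_zero.2 m1.symm
    refine ⟨m + 1, by omega, (‖v‖⁻¹ : ℂ) • v, norm_smul_inv_norm h0, ?_, ?_⟩
    · rw [map_smul, hv, ← mul_apply_eq_comp, ← map_mul, sub_mul, one_mul, mul_sub, ← mul_assoc,
        E.mul_lt' m2, E.mul_lt' n.lt_succ_self]
    · rw [map_smul, hv, ← mul_apply_eq_comp, ← map_mul, ← mul_assoc, mul_sub, mul_one, E.succ,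
        sub_self, zero_mul, map_zero, zero_apply, smul_zero]
  choose f f1 g g1 g2 g3 using step
  let j : Bool → ℕ → ℕ := fun i N => (f i)^[N] 0
  have hj : ∀ i N, j i (N + 1) = f i (j i N) := fun i N => Function.iterate_succ_apply' _ _ _
  have hm : ∀ i, StrictMono (j i) := fun i => strictMono_nat_of_lt_succ fun N => hj i N ▸ f1 i _
  refine ⟨K, inferInstance, inferInstance, inferInstance, fun i N => c i (j i N), σ,
    fun i N => g i (j i N), ⟨fun i => (h.ex i).subseq (hm i), h.zero, fun i x => ?_⟩, inj,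
    fun i ζ => (lim i ζ).comp (hm i).tendsto_atTop, fun i N => g1 _ _, fun i N => g2 _ _,
    fun i N => hj i N ▸ g3 _ _⟩
  refine NormedAddGroup.tendsto_nhds_zero.2 fun ε hε => ?_
  obtain ⟨M, hM⟩ := (NormedAddGroup.tendsto_nhds_zero.1 (h.disj i x) ε hε).exists
  filter_upwards [eventually_gt_atTop M] with N hN
  rw [← (h.ex i).mul_lt (hN.trans_le ((hm i).id_le N)),
    ← (h.ex (!i)).mul_lt' (hN.trans_le ((hm (!i)).id_le N)), mul_assoc, mul_assoc]
  refine ((norm_mul_le _ _).trans
    (mul_le_of_le_one_left (norm_nonneg _) ((h.ex i).norm_le _))).trans_lt ?_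
  rw [← mul_assoc, ← mul_assoc]
  exact ((norm_mul_le _ _).trans
    (mul_le_of_le_one_right (norm_nonneg _) ((h.ex (!i)).norm_le _))).trans_lt hM

end Pool.Agent.P.MP_8219a1_an.G
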