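import Pool.Agent.P.MP_8219a1_an.G.Sol

set_option autoImplicit false

open scoped ComplexOrder InnerProductSpace
open Filter Topology

noncomputable section

namespace Pool.Agent.P.MP_8219a1_an.G

universe u

section Ideal

variable {A : Type*} [NonUnitalCStarAlgebra A] {B : Type u} [CStarAlgebra B]

/-- Closed ideals that contain the range of `ι`. -/
def Good (ι : A →⋆ₙₐ[ℂ] B) (N : Submodule ℂ B) : Prop :=
  IsClosed (N : Set B) ∧ (∀ b, ∀ x ∈ N, b * x ∈ N ∧ x * b ∈ N) ∧ ∀ a, ι a ∈ N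

/-- The closed ideal generated by the range of `ι`. -/
def idl (ι : A →⋆ₙₐ[ℂ] B) : NonUnitalStarSubalgebra ℂ B where
  carrier := {x | ∀ N, Good ι N → x ∈ N}
  add_mem' ha hb N hN := N.add_mem (ha N hN) (hb N hN)
  zero_mem' N _ := N.zero_mem
  mul_mem' {a b} _ hb N hN := (hN.2.1 a b (hb N hN)).1
  smul_mem' c x hx N hN := N.smul_mem c (hx N hN)
  star_mem' {x} hx N hN := hx (N.comap (starLinearEquiv ℂ).toLinearMap)
    ⟨hN.1.preimage continuous_star, fun b y hy => by
      simpa [and_comm] using hN.2.1 (star b) (star y) hy, fun a => by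
      simpa [map_star] using hN.2.2 (star a)⟩

instance (ι : A →⋆ₙₐ[ℂ] B) : IsClosed (idl ι : Set B) := by
  rw [show (idl ι : Set B) = ⋂ N, ⋂ _ : Good ι N, (N : Set B) from Set.ext fun x => by
    simp only [Set.mem_iInter]; rfl]
  exact isClosed_iInter fun N => isClosed_iInter fun h => h.1

theorem idl_mul (ι : A →⋆ₙₐ[ℂ] B) (b : B) (x : idl ι) : b * x ∈ idl ι ∧ x * b ∈ idl ι :=
  ⟨fun N hN => (hN.2.1 b x (x.2 N hN)).1, fun N hN => (hN.2.1 b x (x.2 N hN)).2⟩

/-- Conjugation by a unitary. -/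
def idlConj (ι : A →⋆ₙₐ[ℂ] B) {u : B} (h1 : star u * u = 1) (h2 : u * star u = 1) :
    idl ι ≃⋆ₐ[ℂ] idl ι where
  toFun x := ⟨star u * x * u, (idl_mul ι u ⟨_, (idl_mul ι _ x).1⟩).2⟩
  invFun x := ⟨u * x * star u, (idl_mul ι _ ⟨_, (idl_mul ι _ x).1⟩).2⟩
  left_inv x := Subtype.ext (by
    simp only [← mul_assoc, h2, one_mul]
    rw [mul_assoc, h2, mul_one])
  right_inv x := Subtype.ext (by
    simp only [← mul_assoc, h1, one_mul]
    rw [mul_assoc, h1, mul_one])
  map_mul' x y := Subtype.ext (by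
    simp only [MulMemClass.coe_mul, mul_assoc]
    rw [← mul_assoc u, h2, one_mul])
  map_add' x y := Subtype.ext (by simp [mul_add, add_mul])
  map_star' x := Subtype.ext (by simp [mul_assoc])
  map_smul' r x := Subtype.ext (by simp)

variable {ι : A →⋆ₙₐ[ℂ] B} {φ ψ : A →L[ℂ] ℂ} {u : B}

theorem simple_idl (hA : IsSimpleCStar A) (hφ : IsState φ)
    (hf : ∀ ρ : B →L[ℂ] ℂ, St ρ → (∀ a, ρ (ι a) = φ a) → Faithful ⊤ ρ) {k k' : A} (hk : ‖k‖ ≤ 1)
    (e : k * k' = k') (h0 : k' ≠ 0) : IsSimpleCStar (idl ι) := by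
  intro J hJ
  let N : Submodule ℂ B :=
    { carrier := {b | ∀ y z : idl ι, y * b * z ∈ Subtype.val '' (J : Set (idl ι))}
      add_mem' := fun h1 h2 y z => by
        obtain ⟨v, v1, v2⟩ := h1 y z
        obtain ⟨w, w1, w2⟩ := h2 y z
        exact ⟨v + w, J.add_mem v1 w1, by rw [AddMemClass.coe_add, v2, w2, mul_add, add_mul]⟩
      zero_mem' := fun y z => ⟨0, J.zero_mem, by simp⟩
      smul_mem' := fun c b h y z => by simpa using h (c • y) z }
  have n1 : ∀ b, ∀ x ∈ N, b * x ∈ N ∧ x * b ∈ N := fun b x hx =>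
    ⟨fun y z => by simpa only [mul_assoc] using hx ⟨_, (idl_mul ι b y).2⟩ z,
      fun y z => by simpa only [mul_assoc] using hx y ⟨_, (idl_mul ι b z).1⟩⟩
  have n2 : IsClosed (N : Set B) := by
    rw [show (N : Set B) = ⋂ y : idl ι, ⋂ z : idl ι, (fun b : B => (y : B) * b * z) ⁻¹'
      (Subtype.val '' (J : Set (idl ι))) from Set.ext fun x => by simp only [Set.mem_iInter]; rfl]
    exact isClosed_iInter fun y => isClosed_iInter fun z =>
      ((inferInstance : IsClosed (idl ι : Set B)).isClosedMap_subtype_val _ hJ).preimage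
        (by fun_prop)
  by_cases h : ι k' ∈ N
  · right
    have a1 : ∀ a, ι a ∈ N := by
      let K := TwoSidedIdeal.mk' {a | ι a ∈ N} (by simp)
        (fun h1 h2 => by simpa using N.add_mem h1 h2) (fun h1 => by simpa using N.neg_mem h1)
        (fun h1 => by simpa using (n1 _ _ h1).1) (fun h1 => by simpa using (n1 _ _ h1).2)
      have hK : ∀ a, a ∈ K ↔ ι a ∈ N := fun a => by simp [K]
      rcases hA K (by
        rw [show (K : Set A) = ι ⁻¹' N from Set.ext hK]
        exact n2.preimage (cont_hom ι)) with e | e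
      · exact absurd (by rwa [← hK, e, TwoSidedIdeal.mem_bot] at h) h0
      · exact fun a => (hK a).1 (e ▸ trivial)
    have a2 : ∀ x y z : idl ι, y * x * z ∈ J := fun x y z => by
      obtain ⟨w, w1, w2⟩ := x.2 N ⟨n2, n1, a1⟩ y z
      rwa [show w = y * x * z from Subtype.ext w2] at w1
    let _ := CStarAlgebra.spectralOrder (idl ι)
    have _ := CStarAlgebra.spectralOrderedRing (idl ι)
    have l := CStarAlgebra.increasingApproximateUnit (idl ι)
    refine eq_top_iff.2 fun x _ => hJ.mem_of_tendsto (l.tendsto_mul_right x)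
      (.of_forall fun y => hJ.mem_of_tendsto (l.tendsto_mul_left (y * x))
        (.of_forall fun z => a2 x y z))
  · left
    obtain ⟨τ, t1, t2, t3⟩ := exists_kill N n1 ((NonUnitalStarAlgHom.norm_apply_le ι k).trans hk)
      (by rw [← map_mul, e]) h
    obtain ⟨M, _, σ, s1, s2⟩ := t1.gns_ker
    obtain ⟨g, g1, g2⟩ := exists_st ((σ : B →⋆ₙₐ[ℂ] M).comp ι)
      (inj_of_simple hA _ (a := k) fun e => one_ne_zero (t2.symm.trans (s1 _ e))) hφ
    refine eq_bot_iff.2 fun x hx => Subtype.ext (hf _ (g1.comp σ) g2 x trivial fun y => ?_)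
    have hN : (x : B) ∈ N := fun y z =>
      ⟨y * x * z, J.mul_mem_right _ _ (J.mul_mem_left _ _ hx), rfl⟩
    have : σ x = 0 := s2 x fun y => t3 _ (n1 _ _ (n1 _ _ hN).2).1
    simp [res_apply, this]

theorem Sol.final (hA : IsSimpleCStar A) (hφ : IsState φ) (hψ : IsState ψ) (h : Sol ι φ ψ u)
    {k k' : A} (hk : ‖k‖ ≤ 1) (e : k * k' = k') (h0 : k' ≠ 0) :
    ∃ (C : Type u) (_ : NonUnitalCStarAlgebra C), IsSimpleCStar C ∧
      ∃ ι' : A →⋆ₙₐ[ℂ] C, Function.Injective ι' ∧ ∃ φ' ψ' : C →L[ℂ] ℂ,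
        IsUniqueStateExtension ι' φ φ' ∧ IsUniqueStateExtension ι' ψ ψ' ∧
          ∃ α : C ≃⋆ₐ[ℂ] C, ∀ b, φ' b = ψ' (α b) := by
  obtain ⟨B, _, ι, u, h, hf⟩ := h.faithful hA hφ
  obtain ⟨g, g1, g2⟩ := exists_st ι h.inj hφ
  have g3 : St (compress g (star u)) := g1.conj (by rw [star_star, h.u2])
  have g4 : ∀ a, compress g (star u) (ι a) = ψ a := fun a => by
    rw [compress_apply, star_star, h.fwd g g1 g2]
  let j := NonUnitalStarSubalgebraClass.subtype (R := ℂ) (idl ι)
  let ι' := NonUnitalStarAlgHom.codRestrict ι (idl ι) fun a N hN => hN.2.2 a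
  have key : ∀ (φ : A →L[ℂ] ℂ) (g : B →L[ℂ] ℂ), IsState φ → St g → (∀ a, g (ι a) = φ a) →
      (∀ ρ, St ρ → (∀ a, ρ (ι a) = φ a) → ρ = g) → IsUniqueStateExtension ι' φ (res j g) :=
    fun φ g h1 h2 h3 h4 => ⟨isState_of_ext (ι := ι') h1 (res_pos _ h2.pos)
      ((res_norm _ g).trans h2.norm_le) h3, h3, fun ρ r1 r2 => by
        obtain ⟨σ, s1, s2⟩ := exists_st j Subtype.val_injective r1
        rw [← h4 σ s1 fun a => (s2 (ι' a)).trans (r2 a)]
        exact ContinuousLinearMap.ext fun x => (s2 x).symm⟩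
  refine ⟨idl ι, inferInstance, simple_idl hA hφ hf hk e h0, ι',
    fun a b e => h.inj (congrArg Subtype.val e), _, _,
    key φ g hφ g1 g2 fun ρ r1 r2 => h.uniq ρ g r1 g1 r2 g2,
    key ψ _ hψ g3 g4 fun ρ r1 r2 => ContinuousLinearMap.ext fun b => ?_,
    idlConj ι h.u1 h.u2, fun b => ?_⟩
  · rw [← h.uniq _ g (r1.conj h.u1) g1 (fun a => by rw [compress_apply, h.bwd ρ r1 r2]) g2,
      compress_apply, compress_apply, star_star]
    simp only [← mul_assoc, h.u1, one_mul]
    rw [mul_assoc, h.u1, mul_one]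
  · change g b = compress g (star u) (star u * b * u)
    rw [compress_apply, star_star]
    simp only [← mul_assoc, h.u2, one_mul]
    rw [mul_assoc, h.u2, mul_one]

end Ideal

variable {A : Type u} [NonUnitalCStarAlgebra A]

/-- The character of the unitization. -/
def chr (A : Type u) [NonUnitalCStarAlgebra A] : Unitization ℂ A →L[ℂ] ℂ :=
  ⟨(Unitization.fstHom ℂ A).toLinearMap, Unitization.continuous_fst⟩

theorem chr_apply (x : Unitization ℂ A) : chr A x = x.fst := rfl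

theorem st_chr : St (chr A) := .of_pos (fun a => by
  rw [chr_apply, Unitization.fst_mul, Unitization.fst_star]
  exact star_mul_self_nonneg _) rfl

theorem eq_inr {x : Unitization ℂ A} (h : x.fst = 0) : x = inr A x.snd :=
  Unitization.ext (h.trans (Unitization.fst_inr _ _).symm) rfl

theorem faithful_inr (hA : IsSimpleCStar A) {ρ : Unitization ℂ A →L[ℂ] ℂ} (h : St ρ) {a : A}
    (ha : ρ (inr A a) ≠ 0) : Faithful (TwoSidedIdeal.ker (Unitization.fstHom ℂ A)) ρ := by
  intro x hx h1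
  obtain ⟨M, _, σ, s1, s2⟩ := h.gns_ker
  have e := eq_inr ((TwoSidedIdeal.mem_ker _).1 hx)
  have := inj_of_simple hA ((σ : Unitization ℂ A →⋆ₙₐ[ℂ] M).comp (inr A)) fun e => ha (s1 _ e)
  rw [e, (injective_iff_map_eq_zero _).1 this x.snd ((congrArg σ e.symm).trans (s2 x h1)), map_zero]

theorem exists_plat {a : A} (ha : a ≠ 0) : ∃ k k' : A,
    Plat (TwoSidedIdeal.ker (Unitization.fstHom ℂ A)) (inr A k) ∧ ‖k‖ ≤ 1 ∧ k * k' = k' ∧
      k' ≠ 0 := by
  have h0 : (inr A (star a * a)).fst = 0 := Unitization.fst_inr _ _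
  have h1 : 0 ≤ inr A (star a * a) := by
    rw [map_mul, map_star]
    exact star_mul_self_nonneg _
  obtain ⟨f, f1, f2, f3⟩ := exists_half (I := TwoSidedIdeal.ker (Unitization.fstHom ℂ A))
    (.of_nonneg h1) (fun h => ha (CStarRing.star_mul_self_eq_zero_iff a |>.1
      (inr_inj ((le_antisymm h h1).trans (map_zero _).symm)))) ((TwoSidedIdeal.mem_ker _).2 h0)
  have h2 := eigen_cfc (chr A) (.of_nonneg h1) (t := 0) (fun y => by
    rw [chr_apply, Unitization.fst_mul, h0]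
    simp) f1 1
  rw [one_mul, f2 0 le_rfl, Complex.ofReal_zero, zero_smul, chr_apply] at h2
  rw [eq_inr h2] at f3
  obtain ⟨k', k1, k2, k3⟩ := f3.2.2
  rw [eq_inr ((TwoSidedIdeal.mem_ker _).1 k3)] at k1 k2
  refine ⟨_, k'.snd, f3, ?_, inr_inj ((map_mul _ _ _).trans k2), fun e => k1 (by rw [e, map_zero])⟩
  rw [← NonUnitalStarAlgHom.norm_map (inr A) inr_inj]
  exact (CStarAlgebra.norm_le_one_iff_of_nonneg _ f3.1).2 f3.2.1

theorem exists_sol (hA : IsSimpleCStar A) {φ ψ : A →L[ℂ] ℂ} (hφ : IsPureState φ)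
    (hψ : IsPureState ψ) (gφ : IsGDeltaState φ) (gψ : IsGDeltaState ψ) :
    ∃ (C : Type u) (_ : NonUnitalCStarAlgebra C), IsSimpleCStar C ∧
      ∃ ι' : A →⋆ₙₐ[ℂ] C, Function.Injective ι' ∧ ∃ φ' ψ' : C →L[ℂ] ℂ,
        IsUniqueStateExtension ι' φ φ' ∧ IsUniqueStateExtension ι' ψ ψ' ∧
          ∃ α : C ≃⋆ₐ[ℂ] C, ∀ b, φ' b = ψ' (α b) := by
  obtain ⟨φ', e1⟩ := exists_unitization hφ.1
  obtain ⟨ψ', e2⟩ := exists_unitization hψ.1
  obtain ⟨a, ha⟩ := exists_ne hφ.1
  obtain ⟨b, hb⟩ := exists_ne hψ.1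
  obtain ⟨k, k', k0, k1, k2, k3⟩ := exists_plat (a := a) fun e => ha (by rw [e, map_zero])
  suffices ∃ (C : Type u) (_ : CStarAlgebra C) (q : Unitization ℂ A →⋆ₐ[ℂ] C) (u : C),
      Sol (q : Unitization ℂ A →⋆ₙₐ[ℂ] C) φ' ψ' u by
    obtain ⟨C, _, q, u, h⟩ := this
    exact (h.restrict e1 e2).final hA hφ.1 hψ.1 k1 k2 k3
  rcases dichotomy (pure_ext hφ e1) (pure_ext hψ e2) (gdelta_up hφ.1 e1 gφ)
    (gdelta_up hψ.1 e2 gψ) with ⟨u, hu, h⟩ | ⟨c, h⟩
  · refine ⟨_, inferInstance, .id ℂ _, star u, Function.injective_id, by rw [star_star, hu.2],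
      by rw [star_star, hu.1], fun ρ σ _ _ r s => ContinuousLinearMap.ext fun x =>
        (r x).trans (s x).symm, fun ρ _ r x => ?_, fun ρ _ r x => ?_⟩
    · rw [star_star, h]
      exact r _
    · rw [star_star]
      refine (r _).trans ((h (u * x * star u)).trans (congrArg φ' ?_))
      simp only [← mul_assoc, hu.1, one_mul]
      rw [mul_assoc, hu.1, mul_one]
  have hne : ∀ i, ∃ a, (bif i then φ' else ψ') (inr A a) ≠ 0 := fun i => by
    cases i
    · exact ⟨b, (e2.2.1 b).symm ▸ hb⟩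
    · exact ⟨a, (e1.2.1 a).symm ▸ ha⟩
  choose z hz using hne
  obtain ⟨ω, w1, w2, w3⟩ := h.exists_diffuse (fun i => faithful_inr hA (h.ex i).st (hz i)) k0
  have hf := faithful_inr hA w1 (a := k) (by rw [w2]; exact one_ne_zero)
  have ap : ∀ x, ((1 / 2 : ℂ) • (ω + chr A)) x = 1 / 2 * (ω x + x.fst) := fun _ => rfl
  obtain ⟨K, _, _, _, c', σ, ξ, h', r⟩ := h.exists_rep (ω := (1 / 2 : ℂ) • (ω + chr A))
    (.of_pos (fun a => mul_nonneg (by positivity) (add_nonneg (w1.pos a) (st_chr.pos a)))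
      (by rw [ap, w1.one, Unitization.fst_one]; norm_num))
    (fun x _ hx => by
      have h1 : ∀ y, ω (star (x * y) * (x * y)) = 0 ∧ chr A (star (x * y) * (x * y)) = 0 :=
        fun y => (add_eq_zero_iff_of_nonneg (w1.pos _) (st_chr.pos _)).1
          ((mul_eq_zero.1 ((ap _).symm.trans (hx y))).resolve_left (by norm_num))
      refine hf x ((TwoSidedIdeal.mem_ker _).2 ?_) fun y => (h1 y).1
      have := (h1 1).2
      rw [chr_apply, mul_one, Unitization.fst_mul, Unitization.fst_star] at this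
      exact (CStarRing.star_mul_self_eq_zero_iff _).1 this)
    fun i x => by
      have h1 := ((((chr A).continuous.tendsto _).comp ((h.ex i).exc (inr A (z i)))).mul_const
        (star x.fst * x.fst / -(bif i then φ' else ψ') (inr A (z i))))
      have h2 := (((Complex.continuous_re.tendsto _).comp h1).add (w3 i x)).const_mul (1 / 2)
      simp only [map_zero, zero_mul, Complex.zero_re, add_zero, mul_zero] at h2
      refine h2.congr fun N => ?_
      have := hz i
      rw [ap, show (1 / 2 : ℂ) = ((1 / 2 : ℝ) : ℂ) by norm_num, Complex.re_ofReal_mul,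
        Complex.add_re, add_comm]
      simp only [Function.comp_apply, star_mul, (h.ex i).sa, chr_apply, Unitization.fst_mul,
        Unitization.fst_star]
      congr 3
      rw [← chr_apply (_ - _), map_sub, map_smul, st_chr.one, chr_apply,
        show (inr A (z i)).fst = 0 from Unitization.fst_inr _ _, smul_eq_mul]
      field_simp
      ring
  obtain ⟨H, _, _, _, π, S, p1, p2, p3, p4⟩ := h'.exists_toep r
  have iso : star S * S = 1 := by
    have := congrArg₂ (· + ·) (p3 true 0) (p3 false 0)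
    simp only [← add_mul, ← mul_add, ← map_add] at this
    rwa [show c' (!true) 0 + c' (!false) 0 = 1 from h'.zero false,
      show c' true 0 + c' false 0 = 1 from h'.zero true, map_one, mul_one] at this
  obtain ⟨P, q1, q2, q3⟩ := exists_wold iso p4
  exact Toep.sol ⟨h', h'.adapt r, p1, p2, p3, q1, q2, q3⟩

end Pool.Agent.P.MP_8219a1_an.G
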