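import Pool.Agent.P.MP_8219a1_an.G.Diffuse

set_option autoImplicit false

open scoped ComplexOrder InnerProductSpace
open Filter Topology
open ContinuousLinearMap (adjoint)

noncomputable section

namespace Pool.Agent.P.MP_8219a1_an.G

universe u

section Hilbert

variable {H : Type*} [NormedAddCommGroup H] [InnerProductSpace ℂ H] [CompleteSpace H]
variable {K : Type*} [NormedAddCommGroup K] [InnerProductSpace ℂ K] [CompleteSpace K]

theorem l2_strong {ι : Type*} {ε : ι → (K →L[ℂ] H)} (h : Ulam.IsL2 ε) (T : ℕ → (H →L[ℂ] H))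
    (hT : ∀ n, ‖T n‖ ≤ 1) (h0 : ∀ v ζ, Tendsto (fun n => T n (ε v ζ)) atTop (𝓝 0)) (ζ : H) :
    Tendsto (fun n => T n ζ) atTop (𝓝 0) := by
  refine NormedAddGroup.tendsto_nhds_zero.2 fun δ hδ => ?_
  obtain ⟨s, hs⟩ := (Metric.tendsto_nhds.1 (h.total ζ) _ (half_pos hδ)).exists
  have h1 := tendsto_finset_sum s fun v _ => h0 v (adjoint (ε v) ζ)
  simp only [← map_sum, Finset.sum_const_zero] at h1
  filter_upwards [NormedAddGroup.tendsto_nhds_zero.1 h1 _ (half_pos hδ)] with n hn
  rw [dist_comm, dist_eq_norm] at hs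
  have h2 := (T n).le_of_opNorm_le (hT n) (ζ - ∑ v ∈ s, ε v (adjoint (ε v) ζ))
  rw [map_sub] at h2
  linarith [norm_le_norm_add_norm_sub' (T n ζ) (T n (∑ v ∈ s, ε v (adjoint (ε v) ζ)))]

theorem pow_contr {B : Type*} [CStarAlgebra B] {T : B} (h : ‖T‖ ≤ 1) (n : ℕ) : ‖T ^ n‖ ≤ 1 := by
  induction n with
  | zero => simpa using CuntzData.norm_one_le
  | succ n ih =>
    rw [pow_succ]
    exact (norm_mul_le _ _).trans (mul_le_one₀ ih (norm_nonneg _) h)

/-- The projection onto the odd levels of a pure isometry. -/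
theorem exists_wold {S : H →L[ℂ] H} (hS : star S * S = 1)
    (hp : ∀ ζ, Tendsto (fun n => (star S ^ n) ζ) atTop (𝓝 0)) :
    ∃ P : H →L[ℂ] H, IsStarProjection P ∧ P = S * (1 - P) * star S ∧
      ∀ X Y : H →L[ℂ] H, (∀ j, X * (S ^ (j + 1) * star S ^ (j + 1)) * Y = 0) → X * P * Y = 0 := by
  let R : ℕ → (H →L[ℂ] H) := fun n => (fun X => S * (1 - X) * star S)^[n] 0
  have h1 : ∀ n, R (n + 1) = S * (1 - R n) * star S := fun n => Function.iterate_succ_apply' _ _ _
  have h2 : ∀ n, IsStarProjection (R n) := fun n => by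
    induction n with
    | zero => exact .zero _
    | succ n ih =>
      rw [h1]
      refine ⟨?_, by simpa only [star_star] using ih.one_sub.isSelfAdjoint.conjugate S⟩
      rw [IsIdempotentElem, mul_assoc, mul_assoc S, mul_assoc S, ← mul_assoc (star S),
        hS, one_mul, ← mul_assoc (1 - R n), ih.one_sub.isIdempotentElem.eq]
  have h3 : ∀ m n, R (n + m) - R n = (-1 : ℂ) ^ n • (S ^ n * R m * star S ^ n) := fun m n => by
    induction n with
    | zero => simp [R]
    | succ n ih =>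
      rw [Nat.add_right_comm, h1, h1, ← sub_mul, ← mul_sub, sub_sub_sub_cancel_left, ← neg_sub, ih,
        pow_succ' S, pow_succ (star S), pow_succ]
      simp only [mul_neg, neg_mul, mul_one, neg_smul, mul_smul_comm, smul_mul_assoc, mul_assoc]
  have hn : ‖S‖ ≤ 1 := CuntzData.norm_le_one_of_iso hS
  have h4 : ∀ ζ, CauchySeq fun n => R n ζ := fun ζ => by
    refine cauchySeq_of_le_tendsto_0' (fun n => ‖(star S ^ n) ζ‖) (fun n m hm => ?_)
      (by simpa using (hp ζ).norm)
    obtain ⟨m, rfl⟩ := Nat.exists_eq_add_of_le hm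
    rw [dist_comm, dist_eq_norm, ← sub_apply, h3, smul_apply, norm_smul, norm_pow, norm_neg,
      norm_one, one_pow, one_mul, mul_apply_eq_comp]
    refine ((S ^ n * R m).le_of_opNorm_le (c := 1) ?_ _).trans_eq (one_mul _)
    exact (norm_mul_le _ _).trans (mul_le_one₀ (pow_contr hn n) (norm_nonneg _) (h2 m).norm_le)
  choose f hf using fun ζ => cauchySeq_tendsto_of_complete (h4 ζ)
  let P := continuousLinearMapOfTendsto R (tendsto_pi_nhds.2 hf)
  have h5 : ∀ ζ, Tendsto (fun n => R n ζ) atTop (𝓝 (P ζ)) := hf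
  have h6 : Ulam.SS atTop R P := by
    have e : star P = P := by
      rw [ContinuousLinearMap.star_eq_adjoint, eq_comm, ContinuousLinearMap.eq_adjoint_iff]
      intro η ζ
      refine tendsto_nhds_unique ((h5 η).inner tendsto_const_nhds) ?_
      refine (tendsto_const_nhds.inner (h5 ζ)).congr fun n => ?_
      rw [← ContinuousLinearMap.adjoint_inner_left, ← ContinuousLinearMap.star_eq_adjoint,
        (h2 n).isSelfAdjoint.star_eq]
    exact ⟨⟨1, .of_forall fun n => (h2 n).norm_le⟩, fun ζ => ⟨h5 ζ, by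
      simpa only [e, (h2 _).isSelfAdjoint.star_eq] using h5 ζ⟩⟩
  have uq : ∀ (x : ℕ → (H →L[ℂ] H)) (y z : H →L[ℂ] H), Ulam.SS atTop x y → Ulam.SS atTop x z →
      y = z := fun x y z a b => by
    ext ζ
    exact tendsto_nhds_unique (a.2 ζ).1 (b.2 ζ).1
  refine ⟨P, ⟨uq R _ _ ?_ h6, uq R _ _ ?_ h6⟩, ?_, fun X Y h => uq (fun n => X * R n * Y) _ _
    (((Ulam.SS.const X).mul h6).mul (.const Y)) ?_⟩
  · simpa only [(h2 _).isIdempotentElem.eq] using h6.mul h6
  · simpa only [(h2 _).isSelfAdjoint.star_eq] using h6.star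
  · ext ζ
    refine tendsto_nhds_unique ((tendsto_add_atTop_iff_nat 1).2 (h5 ζ)) ?_
    simp only [h1]
    exact ((((Ulam.SS.const S).mul ((Ulam.SS.const 1).sub h6)).mul (.const _)).2 ζ).1
  · have : ∀ n, X * R n * Y = 0 := fun n => by
      induction n with
      | zero => simp [R]
      | succ n ih =>
        have e := h3 1 n
        rw [h1 0, show R 0 = 0 from rfl, sub_zero, mul_one, ← mul_assoc, ← pow_succ, mul_assoc,
          ← pow_succ', sub_eq_iff_eq_add] at e
        rw [e, mul_add, add_mul, ih, mul_smul_comm, smul_mul_assoc, h, smul_zero, add_zero]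
    simpa only [this] using Ulam.SS.const 0

end Hilbert

variable {A : Type u} [CStarAlgebra A] [PartialOrder A] [StarOrderedRing A]
variable {φ : Bool → A →L[ℂ] ℂ} {c : Bool → ℕ → A}

theorem Chain.cross (h : Chain φ c) (i : Bool) (N M : ℕ) : c i (N + 1) * c (!i) M = 0 := by
  have e : c i (N + 1) * c (!i) 0 = 0 := by
    rw [← eq_sub_iff_add_eq'.2 (h.zero i) |>.symm, mul_sub, mul_one,
      (h.ex i).mul_lt N.succ_pos, sub_self]
  rcases M with _ | M
  · exact e
  · rw [← (h.ex (!i)).mul_lt' M.succ_pos, ← mul_assoc, e, zero_mul]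

theorem Exc.d_nonneg {φ : A →L[ℂ] ℂ} {c : ℕ → A} (h : Exc φ c) (N : ℕ) : 0 ≤ c N - c (N + 1) := by
  have e : c N * c (N + 1) * c N = c (N + 1) := by rw [mul_assoc, h.succ, h.mul_lt' N.lt_succ_self]
  have h1 := conjugate_le_conjugate_of_nonneg (h.le_one (N + 1)) (h.nonneg N)
  have h2 := ((Commute.one_right (c N)).sub_right (Commute.refl _)).mul_nonneg (h.nonneg N)
    (sub_nonneg.2 (h.le_one N))
  rw [e, mul_one] at h1
  rw [mul_sub, mul_one, sub_nonneg] at h2
  exact sub_nonneg.2 (h1.trans h2)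

/-- States adapted to a chain. -/
structure Adapt (c : Bool → ℕ → A) (ω : Bool → ℕ → A →L[ℂ] ℂ) : Prop where
  st : ∀ i N, St (ω i N)
  one : ∀ i N M, M ≤ N → ω i N (c i M) = 1
  zero : ∀ i N M, N < M → ω i N (c i M) = 0
  other : ∀ i N M, ω i N (c (!i) M) = 0
  lim : ∀ i N j x, Tendsto (fun M => ω i N (x * c j M * star (x * c j M))) atTop (𝓝 0)

omit [PartialOrder A] [StarOrderedRing A] in
theorem Adapt.d {ω : Bool → ℕ → A →L[ℂ] ℂ} (ad : Adapt c ω) (j : Bool) (M : ℕ) (i : Bool) (N : ℕ) :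
    ω j M (c i N - c i (N + 1)) = if j = i ∧ M = N then 1 else 0 := by
  rw [map_sub]
  by_cases e : j = i
  · subst e
    rcases lt_trichotomy M N with e | rfl | e
    · rw [ad.zero _ _ _ e, ad.zero _ _ _ (e.trans N.lt_succ_self), if_neg (by omega), sub_zero]
    · rw [ad.one _ _ _ le_rfl, ad.zero _ _ _ M.lt_succ_self, if_pos ⟨rfl, rfl⟩, sub_zero]
    · rw [ad.one _ _ _ e.le, ad.one _ _ _ e, if_neg (by omega), sub_self]
  · rw [show i = !j by cases i <;> cases j <;> simp_all, ad.other, ad.other,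
      if_neg (by simp), sub_zero]

variable {K : Type u} [NormedAddCommGroup K] [InnerProductSpace ℂ K] [CompleteSpace K]
  {σ : A →⋆ₐ[ℂ] (K →L[ℂ] K)} {ξ : Bool → ℕ → K}

theorem Chain.adapt (h : Chain φ c) (r : Rep c σ ξ) :
    Adapt c fun i N => vec σ (ξ i N) (ξ i N) := by
  have s := fun i N => st_vec σ (r.unit i N)
  have o : ∀ i N M, M ≤ N → vec σ (ξ i N) (ξ i N) (c i M) = 1 := fun i N M hM => by
    have : σ (c i M) (ξ i N) = σ 1 (ξ i N) := by
      rw [map_one, one_apply_eq_self]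
      rcases hM.eq_or_lt with rfl | hM
      · exact r.fix i M
      · rw [← r.fix i N, ← mul_apply_eq_comp, ← map_mul, (h.ex i).mul_lt' hM]
    rw [vec_apply, this, ← vec_apply, (s i N).one]
  refine ⟨s, o, fun i N M hM => ?_, fun i N M => ?_, fun i N j x => ?_⟩
  · have : σ (c i M) (ξ i N) = 0 := by
      rcases (Nat.succ_le_of_lt hM).eq_or_lt with rfl | hM
      · exact r.kill i N
      · rw [← (h.ex i).mul_lt hM, map_mul, mul_apply_eq_comp, r.kill, map_zero]
    rw [vec_apply, this, inner_zero_right]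
  · have e : vec σ (ξ i N) (ξ i N) (c i 0) = 1 := o i N 0 N.zero_le
    have e0 : c i 0 * c (!i) M = c (!i) M - c (!i) 0 * c (!i) M := by
      rw [eq_sub_iff_add_eq, ← add_mul, h.zero, one_mul]
    rcases M with _ | M
    · rw [← eq_sub_iff_add_eq'.2 (h.zero i) |>.symm, map_sub, (s i N).one, e, sub_self]
    · rw [← (s i N).mul_left ((h.ex i).norm_le 0) e, e0, (h.ex (!i)).mul_lt' M.succ_pos, sub_self,
        map_zero]
  · have := (r.lim j (σ (star x) (ξ i N))).inner (𝕜 := ℂ) (r.lim j (σ (star x) (ξ i N)))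
    rw [inner_zero_left] at this
    refine this.congr fun M => ?_
    rw [vec_apply, ← star_star (x * c j M), inner_star_mul, star_star, star_mul, (h.ex j).sa,
      map_mul, mul_apply_eq_comp]

/-- The Toeplitz type representation. -/
theorem Chain.exists_toep (h : Chain φ c) (r : Rep c σ ξ) :
    ∃ (H : Type u) (_ : NormedAddCommGroup H) (_ : InnerProductSpace ℂ H) (_ : CompleteSpace H)
      (π : A →⋆ₐ[ℂ] (H →L[ℂ] H)) (S : H →L[ℂ] H), Function.Injective π ∧
      (∀ y, (∀ i N, vec σ (ξ i N) (ξ i N) y = 0) → star S * π y * S = 0) ∧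
      (∀ i M, star S * π (c i M) * S = π (c (!i) M)) ∧
      ∀ ζ, Tendsto (fun n => (star S ^ n) ζ) atTop (𝓝 0) := by
  classical
  have ad := h.adapt r
  obtain ⟨w, b, -⟩ := exists_hilbertBasis ℂ K
  obtain ⟨H, _, _, _, ε, hε⟩ := Ulam.exists_l2 (List (w × Bool × ℕ)) K
  obtain ⟨Θ, hΘ⟩ := hε.exists_amp
  choose g hg using fun i N => CStarAlgebra.nonneg_iff_eq_star_mul_self.1 ((h.ex i).d_nonneg N)
  let y : List (w × Bool × ℕ) → (H →L[ℂ] K) := fun v => match v with
    | [] => 0
    | l :: v => InnerProductSpace.rankOne ℂ (ξ (!l.2.1) l.2.2) (b l.1) ∘L σ (g l.2.1 l.2.2) ∘L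
        adjoint (ε v)
  have y0 : ∀ ζ, y [] ζ = 0 := fun _ => rfl
  have y1 : ∀ l v ζ, y (l :: v) ζ =
      ⟪b l.1, σ (g l.2.1 l.2.2) (adjoint (ε v) ζ)⟫_ℂ • ξ (!l.2.1) l.2.2 := fun _ _ _ => rfl
  have b1 : ∀ (T : Finset (Bool × ℕ)) (ζ : K), ∑ t ∈ T, ‖σ (g t.1 t.2) ζ‖ ^ 2 ≤ ‖ζ‖ ^ 2 := by
    intro T ζ
    obtain ⟨M, hM⟩ := (T.image Prod.snd).exists_nat_subset_range
    have e1 : T ⊆ Finset.univ ×ˢ Finset.range M := fun t ht =>
      Finset.mem_product.2 ⟨Finset.mem_univ _, hM (Finset.mem_image_of_mem _ ht)⟩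
    refine (Finset.sum_le_sum_of_subset_of_nonneg e1 fun _ _ _ => sq_nonneg _).trans ?_
    have e2 : ∀ a, ‖σ a ζ‖ ^ 2 = (vec σ ζ ζ (star a * a)).re := fun a => by
      rw [vec_apply, inner_star_self, Complex.ofReal_re]
    have e3 : ‖ζ‖ ^ 2 = (vec σ ζ ζ 1).re := by simpa using e2 1
    simp only [e2, ← hg]
    rw [← Complex.re_sum, ← map_sum, e3]
    refine pos_mono (fun a => ?_) ?_
    · rw [vec_apply, inner_star_self]
      exact Complex.zero_le_real.2 (sq_nonneg _)
    · rw [Finset.sum_product, Fintype.sum_bool, Finset.sum_range_sub' (c true),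
        Finset.sum_range_sub' (c false), ← h.zero true]
      exact add_le_add (sub_le_self _ ((h.ex _).nonneg M)) (sub_le_self _ ((h.ex _).nonneg M))
  obtain ⟨S, -, hS⟩ := hε.col y zero_le_one fun s ζ => by
    let f : (w × Bool × ℕ) × List (w × Bool × ℕ) → List (w × Bool × ℕ) := fun p => p.1 :: p.2
    have hf : Function.Injective f := fun p q e => Prod.ext (List.cons.inj e).1 (List.cons.inj e).2
    rw [← Finset.sum_preimage f s hf.injOn _ fun v _ hv => by
      rcases v with _ | ⟨l, v⟩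
      · simp [y0]
      · exact absurd ⟨(l, v), rfl⟩ hv]
    set t := s.preimage f hf.injOn
    have e1 : t ⊆ (((t.image Prod.fst).image Prod.fst) ×ˢ ((t.image Prod.fst).image Prod.snd)) ×ˢ
        t.image Prod.snd :=
      Finset.subset_product.trans (Finset.product_subset_product_left Finset.subset_product)
    refine (Finset.sum_le_sum_of_subset_of_nonneg e1 fun _ _ _ => sq_nonneg _).trans ?_
    rw [Finset.sum_product_right, one_mul]
    refine (Finset.sum_le_sum fun v _ => ?_).trans (hε.sum_le _ ζ)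
    rw [Finset.sum_product_right]
    refine (Finset.sum_le_sum fun p _ => ?_).trans (b1 _ _)
    simp only [f, y1, norm_smul, r.unit, mul_one]
    exact b.orthonormal.sum_inner_products_le _
  have hS' : ∀ v ζ, adjoint (ε v) (S ζ) = y v ζ := fun v ζ => congr($(hS v) ζ)
  have hi : ∀ a η ζ, HasSum (fun v => ⟪y v η, σ a (y v ζ)⟫_ℂ)
      ⟪η, (star S * Θ (σ a) * S) ζ⟫_ℂ := fun a η ζ => by
    have := hε.hasSum_inner (S η) (Θ (σ a) (S ζ))
    rw [mul_apply_eq_comp, mul_apply_eq_comp, ContinuousLinearMap.star_eq_adjoint,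
      ContinuousLinearMap.adjoint_inner_right]
    have e : ∀ v, adjoint (ε v) (Θ (σ a) (S ζ)) = σ a (y v ζ) := fun v => by
      rw [← hS']
      exact congr($((hΘ v).adj (σ a)) (S ζ))
    simpa only [hS', e] using this
  have ht : ∀ a l v η ζ, ⟪y (l :: v) η, σ a (y (l :: v) ζ)⟫_ℂ =
      ⟪σ (g l.2.1 l.2.2) (adjoint (ε v) η), b l.1⟫_ℂ *
        ⟪b l.1, σ (g l.2.1 l.2.2) (adjoint (ε v) ζ)⟫_ℂ *
          vec σ (ξ (!l.2.1) l.2.2) (ξ (!l.2.1) l.2.2) a := fun a l v η ζ => by
    rw [y1, y1, map_smul, inner_smul_left, inner_smul_right, inner_conj_symm, vec_apply, mul_assoc]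
  have hΘ' : ∀ T v ζ, Θ T (ε v ζ) = ε v (T ζ) := fun T v ζ => congr($(hΘ v T) ζ)
  have d1 : ∀ i N, star S * Θ (σ (c (!i) N - c (!i) (N + 1))) * S =
      Θ (σ (c i N - c i (N + 1))) := fun i N => by
    refine hε.ext_right fun v => ContinuousLinearMap.ext fun ζ => ext_inner_left ℂ fun η => ?_
    change ⟪η, (star S * Θ (σ (c (!i) N - c (!i) (N + 1))) * S) (ε v ζ)⟫_ℂ =
      ⟪η, Θ (σ (c i N - c i (N + 1))) (ε v ζ)⟫_ℂ
    refine (hi (c (!i) N - c (!i) (N + 1)) η (ε v ζ)).unique ?_
    have hf : Function.Injective fun β : w => ((β, i, N) :: v : List (w × Bool × ℕ)) :=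
      fun β β' e => congrArg Prod.fst (List.cons.inj e).1
    have om : ∀ j M, vec σ (ξ (!j) M) (ξ (!j) M) (c (!i) N - c (!i) (N + 1)) =
        if j = i ∧ M = N then 1 else 0 := fun j M => by simpa using ad.d (!j) M (!i) N
    rw [← hf.hasSum_iff fun v' hv' => ?_]
    · have := b.hasSum_inner_mul_inner (σ (g i N) (adjoint (ε v) η)) (σ (g i N) ζ)
      rw [← inner_star_mul, ← hg, ContinuousLinearMap.adjoint_inner_left, ← hΘ'] at this
      simpa only [Function.comp_def, ht, om, hε.self_ql2, and_self, if_true, mul_one] using this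
    · rcases v' with _ | ⟨⟨β, j, M⟩, v'⟩
      · rw [y0, inner_zero_left]
      · rw [ht, om]
        by_cases e : v' = v
        · rw [if_neg, mul_zero]
          rintro ⟨rfl, rfl⟩
          exact hv' ⟨β, by rw [e]⟩
        · rw [hε.ne_ql2 e, map_zero, inner_zero_right, mul_zero, zero_mul]
  have lim : ∀ i ζ, Tendsto (fun N => Θ (σ (c i N)) ζ) atTop (𝓝 0) := fun i =>
    l2_strong hε _ (fun N => (NonUnitalStarAlgHom.norm_apply_le Θ _).trans
      ((NonUnitalStarAlgHom.norm_apply_le σ _).trans ((h.ex i).norm_le N))) fun v ζ => by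
      simpa only [hΘ', map_zero, Function.comp_def] using
        ((ε v).continuous.tendsto _).comp (r.lim i ζ)
  have d2 : ∀ i M, star S * Θ (σ (c (!i) M)) * S = Θ (σ (c i M)) := fun i M => by
    have e : ∀ n, star S * Θ (σ (c (!i) (n + M))) * S - Θ (σ (c i (n + M))) =
        star S * Θ (σ (c (!i) M)) * S - Θ (σ (c i M)) := fun n => by
      induction n with
      | zero => rw [zero_add]
      | succ n ih =>
        have := d1 i (n + M)
        simp only [map_sub, mul_sub, sub_mul] at this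
        rw [← ih, Nat.add_right_comm, sub_eq_sub_iff_sub_eq_sub, ← neg_inj, neg_sub, neg_sub, this]
    rw [← sub_eq_zero]
    ext ζ
    have t1 := (((star S).continuous.tendsto _).comp
      ((tendsto_add_atTop_iff_nat M).2 (lim (!i) (S ζ)))).sub
      ((tendsto_add_atTop_iff_nat M).2 (lim i ζ))
    rw [map_zero, sub_zero] at t1
    refine tendsto_nhds_unique tendsto_const_nhds (t1.congr fun n => ?_)
    rw [← e n]
    rfl
  have iso : star S * S = 1 := by
    have := congrArg₂ (· + ·) (d2 true 0) (d2 false 0)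
    simp only [← add_mul, ← mul_add, ← map_add] at this
    rwa [show c (!true) 0 + c (!false) 0 = 1 from h.zero false,
      show c true 0 + c false 0 = 1 from h.zero true, map_one, map_one, mul_one] at this
  refine ⟨H, inferInstance, inferInstance, inferInstance, Θ.comp σ, S, fun a a' e => r.inj ?_,
    fun a ha => ?_, fun i M => by simpa using d2 (!i) M, ?_⟩
  · ext ζ
    have := congrArg (fun T : H →L[ℂ] H => adjoint (ε []) (T (ε [] ζ))) e
    simpa only [StarAlgHom.comp_apply, hΘ', hε.self_ql2] using this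
  · refine ContinuousLinearMap.ext fun ζ => ext_inner_left ℂ fun η => (hi a η ζ).unique ?_
    have : ∀ v, ⟪y v η, σ a (y v ζ)⟫_ℂ = 0 := fun v => by
      rcases v with _ | ⟨l, v⟩
      · rw [y0, inner_zero_left]
      · rw [ht, ha, mul_zero]
    simpa only [this, zero_apply, inner_zero_right] using hasSum_zero
  · have hn : ‖star S‖ ≤ 1 := by rw [norm_star]; exact CuntzData.norm_le_one_of_iso iso
    have e : ∀ v ζ, star S (ε v ζ) = adjoint (y v) ζ := fun v ζ => by
      rw [← hS, ContinuousLinearMap.adjoint_comp, ContinuousLinearMap.adjoint_adjoint]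
      rfl
    refine l2_strong hε _ (pow_contr hn) fun v => ?_
    · induction v with
      | nil =>
        intro ζ
        rw [← tendsto_add_atTop_iff_nat 1]
        simp only [pow_succ, mul_apply_eq_comp, e, show y [] = 0 from rfl, map_zero, zero_apply,
          tendsto_const_nhds]
      | cons l v ih =>
        intro ζ
        rw [← tendsto_add_atTop_iff_nat 1]
        simp only [pow_succ, mul_apply_eq_comp, e, y, ContinuousLinearMap.adjoint_comp,
          ContinuousLinearMap.adjoint_adjoint, ContinuousLinearMap.comp_apply]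
        exact ih _

end Pool.Agent.P.MP_8219a1_an.G
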