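import Pool.Agent.P.MP_8219a1_an.G.St
import Pool.Agent.P.MP_3be8c7_an.KAP
import Pool.Agent.P.MP_3be8c7_an.BIC
import Pool.Agent.P.MP_3be8c7_an.QL2B

set_option autoImplicit false

open scoped ComplexOrder InnerProductSpace
open Filter Topology

noncomputable section

namespace Pool.Agent.P.MP_8219a1_an.G

variable {A : Type*} [CStarAlgebra A]
variable {H : Type*} [NormedAddCommGroup H] [InnerProductSpace ℂ H] [CompleteSpace H]

/-- Irreducible representations. -/
def Irr (π : A →⋆ₐ[ℂ] (H →L[ℂ] H)) : Prop :=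
  ∀ T : H →L[ℂ] H, (∀ a, Commute T (π a)) → ∃ c : ℂ, T = c • 1

/-- Vector functionals. -/
def vec (π : A →⋆ₐ[ℂ] (H →L[ℂ] H)) (ξ η : H) : A →L[ℂ] ℂ :=
  LinearMap.mkContinuous
    { toFun := fun a => ⟪ξ, π a η⟫_ℂ
      map_add' := fun a b => by simp
      map_smul' := fun c a => by simp } (‖ξ‖ * ‖η‖) fun a => by
    refine (norm_inner_le_norm _ _).trans ?_
    rw [mul_assoc, mul_comm ‖η‖]
    exact mul_le_mul_of_nonneg_left
      ((π a).le_of_opNorm_le (NonUnitalStarAlgHom.norm_apply_le π a) η) (norm_nonneg _)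

theorem vec_apply (π : A →⋆ₐ[ℂ] (H →L[ℂ] H)) (ξ η : H) (a : A) : vec π ξ η a = ⟪ξ, π a η⟫_ℂ := rfl

theorem cont_rep {B : Type*} [CStarAlgebra B] (π : A →⋆ₐ[ℂ] B) : Continuous π :=
  AddMonoidHomClass.continuous_of_bound π 1 fun a => by
    simpa using NonUnitalStarAlgHom.norm_apply_le π a

theorem inner_star_mul (π : A →⋆ₐ[ℂ] (H →L[ℂ] H)) (ξ η : H) (a b : A) :
    ⟪ξ, π (star a * b) η⟫_ℂ = ⟪π a ξ, π b η⟫_ℂ := by
  rw [map_mul, map_star, mul_apply_eq_comp, ContinuousLinearMap.star_eq_adjoint,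
    ContinuousLinearMap.adjoint_inner_right]

theorem inner_star_self (π : A →⋆ₐ[ℂ] (H →L[ℂ] H)) (ξ : H) (a : A) :
    ⟪ξ, π (star a * a) ξ⟫_ℂ = ((‖π a ξ‖ ^ 2 : ℝ) : ℂ) := by
  rw [inner_star_mul, inner_self_eq_norm_sq_to_K]
  simp

/-- Evaluation at a vector. -/
def evv (π : A →⋆ₐ[ℂ] (H →L[ℂ] H)) (ξ : H) : A →L[ℂ] H :=
  LinearMap.mkContinuous
    { toFun := fun a => π a ξ
      map_add' := fun a b => by simp
      map_smul' := fun c a => by simp } ‖ξ‖ fun a => by
    rw [mul_comm]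
    exact (π a).le_of_opNorm_le (NonUnitalStarAlgHom.norm_apply_le π a) ξ

theorem eigen_vec (π : A →⋆ₐ[ℂ] (H →L[ℂ] H)) {ξ : H} {a : A} (ha : IsSelfAdjoint a) {t : ℝ}
    (h : π a ξ = (t : ℂ) • ξ) {f : ℝ → ℝ} (hf : Continuous f) :
    π (cfc f a) ξ = (f t : ℂ) • ξ := by
  have := eigen_cfc (evv π ξ) ha (t := t) (fun y => by
    change π (y * a) ξ = _ • π y ξ
    rw [map_mul, mul_apply_eq_comp, h, map_smul]) hf 1
  change π (1 * cfc f a) ξ = _ • π 1 ξ at this
  simpa using this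

variable [PartialOrder A] [StarOrderedRing A]

theorem st_vec (π : A →⋆ₐ[ℂ] (H →L[ℂ] H)) {ξ : H} (h : ‖ξ‖ = 1) : St (vec π ξ ξ) := by
  refine .of_pos (fun a => ?_) ?_
  · rw [vec_apply, inner_star_self]
    exact Complex.zero_le_real.2 (sq_nonneg _)
  · simp [vec_apply, h]

theorem irr_of_pure {φ : A →L[ℂ] ℂ} (hφ : IsPureState φ) {π : A →⋆ₐ[ℂ] (H →L[ℂ] H)} {ξ : H}
    (h : ∀ a, φ a = ⟪ξ, π a ξ⟫_ℂ) (hd : DenseRange fun a => π a ξ) : Irr π := by
  rw [IsPureState, mem_extremePoints_iff_left] at hφ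
  have h1 : ⟪ξ, ξ⟫_ℂ = 1 := by simpa [h] using (St.of_isState hφ.1).one
  have key0 : ∀ T : H →L[ℂ] H, IsSelfAdjoint T → ‖T‖ ≤ 1 → (∀ a, Commute T (π a)) →
      ⟪ξ, T ξ⟫_ℂ = 0 → St (vec π ξ ((1 + T) ξ)) := by
    intro T hT hn hc h0
    have hp : 0 ≤ 1 + T := by
      have := hT.neg_algebraMap_norm_le_self
      rw [neg_le_iff_add_nonneg'] at this
      refine this.trans (add_le_add_left ?_ T)
      rw [← map_one (algebraMap ℝ (H →L[ℂ] H))]
      exact algebraMap_mono _ hn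
    refine .of_pos (fun a => ?_) ?_
    · rw [vec_apply, inner_star_mul, ← mul_apply_eq_comp,
        ← ((Commute.one_left _).add_left (hc a)).eq, mul_apply_eq_comp]
      exact ((ContinuousLinearMap.nonneg_iff_isPositive _).1 hp).inner_nonneg_right _
    · rw [vec_apply, map_one, one_apply_eq_self, add_apply, one_apply_eq_self, inner_add_right,
        h0, h1, add_zero]
  have key1 : ∀ T : H →L[ℂ] H, IsSelfAdjoint T → ‖T‖ ≤ 1 → (∀ a, Commute T (π a)) →
      ⟪ξ, T ξ⟫_ℂ = 0 → T = 0 := by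
    intro T hT hn hc h0
    have s1 := key0 T hT hn hc h0
    have s2 := key0 (-T) hT.neg (by rwa [norm_neg]) (fun a => (hc a).neg_left) (by simp [h0])
    have e := hφ.2 _ s1.isState _ s2.isState ⟨1 / 2, 1 / 2, by norm_num, by norm_num, by norm_num, by
      ext a
      simp only [add_apply, smul_apply, vec_apply, h, map_add, inner_add_right,
        one_apply_eq_self, neg_apply, map_neg, inner_neg_right, Complex.real_smul]
      push_cast
      ring⟩
    have e2 : T ξ = 0 := by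
      refine ext_inner_left ℂ fun v => ?_
      refine hd.induction_on v (isClosed_eq (by fun_prop) (by fun_prop)) fun a => ?_
      have := congrArg (fun f : A →L[ℂ] ℂ => f (star a * 1)) e
      simp only [vec_apply, h, inner_star_mul, map_one, add_apply, one_apply_eq_self,
        inner_add_right] at this
      simpa using this
    ext v
    refine hd.induction_on v (isClosed_eq (by fun_prop) (by fun_prop)) fun a => ?_
    rw [← mul_apply_eq_comp, (hc a).eq, mul_apply_eq_comp, e2]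
    simp
  have key2 : ∀ T : H →L[ℂ] H, IsSelfAdjoint T → (∀ a, Commute T (π a)) →
      ∃ c : ℂ, T = c • 1 := by
    intro T hT hc
    have hr : star ⟪ξ, T ξ⟫_ℂ = ⟪ξ, T ξ⟫_ℂ := by
      rw [Complex.star_def, inner_conj_symm, ← ContinuousLinearMap.adjoint_inner_right,
        ← ContinuousLinearMap.star_eq_adjoint, hT.star_eq]
    set T' := T - ⟪ξ, T ξ⟫_ℂ • (1 : H →L[ℂ] H) with hT'
    have hp : 0 < ‖T'‖ + 1 := by positivity
    have := key1 ((((‖T'‖ + 1)⁻¹ : ℝ) : ℂ) • T') ?_ ?_ (fun a => ?_) ?_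
    · refine ⟨⟪ξ, T ξ⟫_ℂ, sub_eq_zero.1 ((smul_eq_zero.1 this).resolve_left ?_)⟩
      exact_mod_cast (inv_pos.2 hp).ne'
    · rw [IsSelfAdjoint, star_smul, hT', star_sub, star_smul, hr, hT.star_eq, star_one,
        Complex.star_def, Complex.conj_ofReal]
    · rw [norm_smul, Complex.norm_real, Real.norm_of_nonneg (inv_pos.2 hp).le,
        inv_mul_le_iff₀ hp]
      linarith
    · exact ((hc a).sub_left ((Commute.one_left _).smul_left _)).smul_left _
    · rw [smul_apply, inner_smul_right, hT', sub_apply, inner_sub_right, smul_apply,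
        one_apply_eq_self, inner_smul_right, h1, mul_one, sub_self, mul_zero]
  intro T hc
  have hc' : ∀ a, Commute (star T) (π a) := fun a => by
    have := (hc (star a)).star_star
    rwa [← map_star, star_star] at this
  obtain ⟨c, hc1⟩ := key2 (T + star T) (IsSelfAdjoint.add_star_self T)
    fun a => (hc a).add_left (hc' a)
  obtain ⟨d, hd1⟩ := key2 (Complex.I • (T - star T))
    (by rw [IsSelfAdjoint, star_smul, star_sub, star_star, Complex.star_def, Complex.conj_I,
      neg_smul, ← smul_neg, neg_sub])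
    fun a => ((hc a).sub_left (hc' a)).smul_left _
  refine ⟨(c - Complex.I * d) / 2, ?_⟩
  have : T = (1 / 2 : ℂ) • ((T + star T) - Complex.I • (Complex.I • (T - star T))) := by
    rw [smul_smul, Complex.I_mul_I]
    module
  rw [this, hc1, hd1]
  module

/-- Bounded strong-star approximation by elements of `D`. -/
def Apx (π : A →⋆ₐ[ℂ] (H →L[ℂ] H)) (D : Submodule ℂ A) : Prop :=
  ∀ (T : H →L[ℂ] H) (F : Finset H) (η : ℝ), 0 < η → ∃ y ∈ D, ‖y‖ ≤ ‖T‖ ∧
    ∀ ζ ∈ F, ‖(π y - T) ζ‖ ≤ η ∧ ‖(star (π y) - star T) ζ‖ ≤ η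

theorem Irr.apx {π : A →⋆ₐ[ℂ] (H →L[ℂ] H)} (h : Irr π) : Apx π ⊤ := by
  intro T F η hη
  have h1 : Ulam.SDense π (Ulam.vnC ∅) := fun x _ F η hη =>
    Ulam.star_bic π (fun S hS => by
      obtain ⟨c, rfl⟩ := h S hS
      exact (Commute.one_left _).smul_left _) F hη
  obtain ⟨a, ha1, ha2⟩ := (Ulam.kap h1).any (y := T) (Ulam.mem_vnC.2 (by simp))
  obtain ⟨i, hi⟩ := (ha2.eventually_le F hη).exists
  exact ⟨a i, trivial, ha1 i, hi⟩

omit [PartialOrder A] [StarOrderedRing A] in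
/-- The transitivity theorem. -/
theorem Apx.trans {π : A →⋆ₐ[ℂ] (H →L[ℂ] H)} {D : Submodule ℂ A} (h : Apx π D)
    (hD : IsClosed (D : Set A)) (K : Submodule ℂ H) [FiniteDimensional ℂ K] (T : H →L[ℂ] H) :
    ∃ y ∈ D, ∀ ζ ∈ K, π y ζ = T ζ ∧ star (π y) ζ = star T ζ := by
  classical
  set E := K.starProjection with hE
  have hEp : IsStarProjection E := isStarProjection_starProjection
  have hE1 := hEp.isIdempotentElem.eq
  let b := Module.finBasis ℂ K
  obtain ⟨C, hC, hb⟩ := b.exists_opNorm_le (F := H)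
  have hR : ∀ (R : H →L[ℂ] H) (η : ℝ), 0 ≤ η → (∀ i, ‖R (b i)‖ ≤ η) → ‖R * E‖ ≤ C * η :=
    fun R η hη hR => by
    refine ContinuousLinearMap.opNorm_le_bound _ (by positivity) fun v => ?_
    have := (R.comp K.subtypeL).le_of_opNorm_le (hb hη hR) (K.orthogonalProjectionOnto v)
    exact this.trans (mul_le_mul_of_nonneg_left (K.norm_orthogonalProjectionOnto_apply_le v)
      (by positivity))
  have step : ∀ (T : H →L[ℂ] H) (n : ℕ), ∃ y ∈ D, ∃ T' : H →L[ℂ] H, ‖y‖ ≤ ‖T‖ ∧
      ‖T'‖ ≤ (1 / 2) ^ n ∧ T' * E = (T - π y) * E ∧ E * T' = E * (T - π y) := by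
    intro T n
    obtain ⟨y, hy, h1, h2⟩ := h T (Finset.univ.image fun i => (b i : H)) ((1 / 2) ^ n / (2 * C))
      (by positivity)
    set R := T - π y with hR'
    have e1 : ‖R * E‖ ≤ (1 / 2) ^ n / 2 := by
      refine (hR R ((1 / 2) ^ n / (2 * C)) (by positivity) fun i => ?_).trans_eq (by field_simp)
      rw [hR', ← neg_sub, neg_apply, norm_neg]
      exact (h2 _ (by simp)).1
    have e2 : ‖E * R‖ ≤ (1 / 2) ^ n / 2 := by
      rw [← norm_star, star_mul, hEp.isSelfAdjoint.star_eq]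
      refine (hR _ ((1 / 2) ^ n / (2 * C)) (by positivity) fun i => ?_).trans_eq (by field_simp)
      rw [hR', star_sub, ← neg_sub, neg_apply, norm_neg]
      exact (h2 _ (by simp)).2
    refine ⟨y, hy, R * E + E * R * (1 - E), h1, ?_, ?_, ?_⟩
    · have := (norm_mul_le (E * R) (1 - E)).trans
        (mul_le_of_le_one_right (norm_nonneg _) hEp.one_sub.norm_le)
      linarith [norm_add_le (R * E) (E * R * (1 - E))]
    · rw [add_mul, mul_assoc R, hE1, mul_assoc _ (1 - E), sub_mul 1, one_mul, hE1, sub_self,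
        mul_zero, add_zero]
    · rw [mul_add, ← mul_assoc, ← mul_assoc, ← mul_assoc, hE1, mul_sub _ 1, mul_one]
      abel
  choose f hf g h1 h2 h3 h4 using step
  let S : ℕ → H →L[ℂ] H := fun n => Nat.rec T (fun n X => g X n) n
  have hS : ∀ n, S (n + 1) = g (S n) n := fun n => rfl
  have hs : Summable fun n => f (S n) n := by
    rw [← summable_nat_add_iff 1]
    exact .of_norm_bounded (summable_geometric_two) fun n => (h1 _ _).trans (h2 _ _)
  have hl : Tendsto S atTop (𝓝 0) := by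
    rw [← tendsto_add_atTop_iff_nat 1]
    exact squeeze_zero_norm (fun n => h2 _ _)
      (tendsto_pow_atTop_nhds_zero_of_lt_one (by norm_num) (by norm_num))
  have hp : Tendsto (fun n => T - π (∑ i ∈ Finset.range n, f (S i) i)) atTop
      (𝓝 (T - π (∑' n, f (S n) n))) :=
    tendsto_const_nhds.sub (((cont_rep π).tendsto _).comp hs.hasSum.tendsto_sum_nat)
  have k1 : ∀ n, (T - π (∑ i ∈ Finset.range n, f (S i) i)) * E = S n * E ∧
      E * (T - π (∑ i ∈ Finset.range n, f (S i) i)) = E * S n := by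
    intro n
    induction n with
    | zero => simp [S]
    | succ n ih =>
      rw [Finset.sum_range_succ, map_add, ← sub_sub, sub_mul, mul_sub, ih.1, ih.2, hS, h3, h4,
        sub_mul, mul_sub]
      exact ⟨rfl, rfl⟩
  have k2 : (T - π (∑' n, f (S n) n)) * E = 0 := by
    refine tendsto_nhds_unique (hp.mul_const E) ?_
    simp only [(k1 _).1]
    simpa using hl.mul_const E
  have k3 : E * (T - π (∑' n, f (S n) n)) = 0 := by
    refine tendsto_nhds_unique (hp.const_mul E) ?_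
    simp only [(k1 _).2]
    simpa using hl.const_mul E
  refine ⟨∑' n, f (S n) n, hD.mem_of_tendsto hs.hasSum.tendsto_sum_nat
    (.of_forall fun n => D.sum_mem fun i _ => hf _ _), fun ζ hζ => ?_⟩
  have k4 := congrArg star k3
  rw [star_mul, hEp.isSelfAdjoint.star_eq, star_zero, star_sub] at k4
  have k5 : E ζ = ζ := Submodule.starProjection_eq_self_iff.2 hζ
  have k6 := congrArg (fun X : H →L[ℂ] H => X ζ) k2
  have k7 := congrArg (fun X : H →L[ℂ] H => X ζ) k4
  simp only [mul_apply_eq_comp, k5, sub_apply, zero_apply, sub_eq_zero] at k6 k7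
  exact ⟨k6.symm, k7.symm⟩

/-- A pure state is determined by its left kernel. -/
theorem eq_of_null {φ ρ : A →L[ℂ] ℂ} (hφ : IsPureState φ) (hρ : St ρ)
    (h : ∀ z, φ (star z * z) = 0 → ρ (star z * z) = 0) : ρ = φ := by
  have hs := St.of_isState hφ.1
  obtain ⟨H, _, _, _, π, ξ, h1, h2⟩ := hs.gns
  have h0 : ∀ z, π z ξ = 0 → ρ z = 0 := fun z hz => by
    have := (cs_zero ρ hρ.pos z (h z (by rw [h1, inner_star_mul, hz, inner_zero_left])) 1).1
    simpa using this
  have hξ : ⟪ξ, ξ⟫_ℂ = 1 := by simpa [h1] using hs.one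
  ext x
  obtain ⟨y, -, hy⟩ := (irr_of_pure hφ h1 h2).apx.trans isClosed_univ (ℂ ∙ ξ)
    (InnerProductSpace.rankOne ℂ (π (x - φ x • 1) ξ) ξ)
  obtain ⟨e1, e2⟩ := hy ξ (Submodule.mem_span_singleton_self ξ)
  rw [InnerProductSpace.rankOne_apply, hξ, one_smul] at e1
  rw [ContinuousLinearMap.star_eq_adjoint (InnerProductSpace.rankOne ℂ _ _),
    InnerProductSpace.adjoint_rankOne, InnerProductSpace.rankOne_apply, ← inner_conj_symm, ← h1,
    map_sub, map_smul, hs.one, smul_eq_mul, mul_one, sub_self, map_zero, zero_smul,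
    ← map_star] at e2
  have e3 := h0 _ e2
  rw [pos_star hρ.pos, star_eq_zero] at e3
  have e4 := h0 (x - φ x • 1 - y) (by rw [map_sub, sub_apply, e1, sub_self])
  rw [map_sub, map_sub, map_smul, hρ.one, e3] at e4
  simpa [sub_eq_zero] using e4

/-- Vector states of an irreducible representation are unitarily equivalent. -/
theorem Irr.exists_unitary {π : A →⋆ₐ[ℂ] (H →L[ℂ] H)} (h : Irr π) {ξ η : H} (hξ : ‖ξ‖ = 1)
    (hη : ‖η‖ = 1) : ∃ u ∈ unitary A, ∀ a, ⟪η, π a η⟫_ℂ = ⟪ξ, π (star u * a * u) ξ⟫_ℂ := by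
  obtain ⟨l, hl1, hl2⟩ := Complex.exists_norm_mul_eq_self ⟪ξ, η⟫_ℂ
  obtain ⟨η', hη', hr, hη1⟩ : ∃ η' : H, ‖η'‖ = 1 ∧ ⟪η', ξ⟫_ℂ = ⟪ξ, η'⟫_ℂ ∧
      ∀ a, ⟪η, π a η⟫_ℂ = ⟪η', π a η'⟫_ℂ := by
    have hll : star l * l = 1 := by
      rw [Complex.star_def, Complex.conj_mul', hl1]; simp
    have h3 : ⟪ξ, star l • η⟫_ℂ = (‖⟪ξ, η⟫_ℂ‖ : ℂ) := by
      rw [inner_smul_right]
      nth_rewrite 1 [← hl2]
      rw [← mul_assoc, hll, one_mul]
    refine ⟨star l • η, by rw [norm_smul, norm_star, hl1, hη, one_mul], ?_, fun a => ?_⟩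
    · rw [← inner_conj_symm, h3, Complex.conj_ofReal]
    · rw [map_smul, inner_smul_left, inner_smul_right, ← mul_assoc, ← Complex.star_def, star_star,
        mul_comm l, hll, one_mul]
  have ho : ξ + η' ∈ (ℂ ∙ (ξ - η'))ᗮ := by
    rw [Submodule.mem_orthogonal_singleton_iff_inner_right, inner_sub_left, inner_add_right,
      inner_add_right, inner_self_eq_norm_sq_to_K, inner_self_eq_norm_sq_to_K, hξ, hη', hr]
    ring
  have := Module.Finite.span_of_finite ℂ (Set.toFinite {ξ - η', ξ + η'})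
  obtain ⟨y, -, hy⟩ := h.apx.trans isClosed_univ (Submodule.span ℂ {ξ - η', ξ + η'})
    (ℂ ∙ (ξ - η')).starProjection
  rw [(isSelfAdjoint_starProjection _).star_eq] at hy
  obtain ⟨e1, e2⟩ := hy (ξ - η') (Submodule.subset_span (by simp))
  obtain ⟨e3, e4⟩ := hy (ξ + η') (Submodule.subset_span (by simp))
  rw [Submodule.starProjection_eq_self_iff.2 (Submodule.mem_span_singleton_self _)] at e1 e2
  rw [(Submodule.starProjection_apply_eq_zero_iff _).2 ho] at e3 e4
  set z := (1 / 2 : ℝ) • (y + star y) with hz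
  have hzs : IsSelfAdjoint z := (IsSelfAdjoint.all _).smul (IsSelfAdjoint.add_star_self y)
  have f1 : π z (ξ - η') = ((1 : ℝ) : ℂ) • (ξ - η') := by
    rw [hz, ← Complex.coe_smul, map_smul, map_add, map_star, smul_apply, add_apply, e1, e2]
    push_cast
    module
  have f2 : π z (ξ + η') = ((0 : ℝ) : ℂ) • (ξ + η') := by
    rw [hz, ← Complex.coe_smul, map_smul, map_add π, map_star, smul_apply, add_apply, e3, e4]
    simp
  have hc : Continuous fun t : ℝ => Real.cos (Real.pi * t) := by fun_prop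
  have hs : Continuous fun t : ℝ => Real.sin (Real.pi * t) := by fun_prop
  set c := cfc (fun t : ℝ => Real.cos (Real.pi * t)) z with hc'
  set s := cfc (fun t : ℝ => Real.sin (Real.pi * t)) z with hs'
  have g1 : c * s = s * c := (cfc_commute_cfc _ _ _).eq
  have g2 : c * c + s * s = 1 := by
    rw [hc', hs', ← cfc_mul _ _ z hc.continuousOn hc.continuousOn,
      ← cfc_mul _ _ z hs.continuousOn hs.continuousOn,
      ← cfc_add z _ _ (hc.fun_mul hc).continuousOn (hs.fun_mul hs).continuousOn, ← cfc_one ℝ z hzs]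
    exact cfc_congr fun t _ => by
      have := Real.cos_sq_add_sin_sq (Real.pi * t)
      simp only [Pi.one_apply]
      linarith
  have g3 : star (c + Complex.I • s) = c - Complex.I • s := by
    rw [star_add, star_smul, IsSelfAdjoint.cfc.star_eq, IsSelfAdjoint.cfc.star_eq,
      Complex.star_def, Complex.conj_I, neg_smul, sub_eq_add_neg]
  have g4 : π (c + Complex.I • s) ξ = η' := by
    have k1 : π (c + Complex.I • s) (ξ - η') = -(ξ - η') := by
      rw [map_add, map_smul, add_apply, smul_apply, eigen_vec π hzs f1 hc, eigen_vec π hzs f1 hs]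
      simp
    have k2 : π (c + Complex.I • s) (ξ + η') = ξ + η' := by
      rw [map_add π, map_smul, add_apply, smul_apply, eigen_vec π hzs f2 hc, eigen_vec π hzs f2 hs]
      simp
    have k3 : ξ = (1 / 2 : ℂ) • ((ξ - η') + (ξ + η')) := by module
    have k4 := congrArg (π (c + Complex.I • s)) k3
    rw [map_smul, map_add (π _) (ξ - η'), k1, k2] at k4
    rw [k4]
    module
  refine ⟨c + Complex.I • s, ⟨?_, ?_⟩, fun a => ?_⟩
  · rw [g3, ← g2]
    simp only [sub_mul, mul_add, smul_mul_assoc, mul_smul_comm, smul_smul, g1, smul_sub,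
      Complex.I_mul_I]
    module
  · rw [g3, ← g2]
    simp only [mul_sub, add_mul, smul_mul_assoc, mul_smul_comm, smul_smul, g1, smul_add,
      Complex.I_mul_I]
    module
  · rw [mul_assoc, inner_star_mul, map_mul, mul_apply_eq_comp, g4, hη1]

/-- Separation of two disjoint pure states. -/
theorem Irr.exists_sep {π : A →⋆ₐ[ℂ] (H →L[ℂ] H)} (h : Irr π) {ξ : H} {φ ψ : A →L[ℂ] ℂ}
    (hφ : ∀ a, φ a = ⟪ξ, π a ξ⟫_ℂ) (h1 : φ 1 = 1) (hψ : St ψ) (r : ℕ → A) (hr0 : ∀ n, 0 ≤ r n)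
    (hr1 : ∀ n, r n ≤ 1) (hr : ∀ n, ψ (r n) = 1)
    (hl : ∀ ζ, Tendsto (fun n => π (r n) ζ) atTop (𝓝 0)) :
    ∃ k : A, 0 ≤ k ∧ k ≤ 1 ∧ φ k = 1 ∧ ψ k = 0 := by
  let D : Submodule ℂ A := ⨅ b : A, (ψ.comp (ContinuousLinearMap.mul ℂ A b)).ker
  have hD : ∀ y, y ∈ D ↔ ∀ b, ψ (b * y) = 0 := fun y => by simp [D]
  have hc : IsClosed (D : Set A) := by
    simp only [D, Submodule.coe_iInf]
    exact isClosed_iInter fun b => ContinuousLinearMap.isClosed_ker _
  have ha : Apx π D := by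
    intro T F η hη
    obtain ⟨y, -, e1, e2⟩ := h.apx T F (η / 2) (half_pos hη)
    have e3 : ∀ᶠ n in atTop, ∀ ζ ∈ F, ‖π y (π (r n) ζ)‖ < η / 2 ∧
        ‖π (r n) (star (π y) ζ)‖ < η / 2 := by
      refine (eventually_all_finset F).2 fun ζ _ => .and ?_ ?_
      · have := (((π y).continuous.tendsto 0).comp (hl ζ)).norm
        rw [map_zero, norm_zero] at this
        exact this.eventually (gt_mem_nhds (half_pos hη))
      · have := (hl (star (π y) ζ)).norm
        rw [norm_zero] at this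
        exact this.eventually (gt_mem_nhds (half_pos hη))
    obtain ⟨n, hn⟩ := e3.exists
    refine ⟨y * (1 - r n), (hD _).2 fun b => ?_, ?_, fun ζ hζ => ⟨?_, ?_⟩⟩
    · rw [← mul_assoc, mul_sub, mul_one, map_sub, hψ.mul_right
        ((CStarAlgebra.norm_le_one_iff_of_nonneg _ (hr0 n)).2 (hr1 n)) (hr n), sub_self]
    · refine (norm_mul_le _ _).trans ((mul_le_of_le_one_right (norm_nonneg _) ?_).trans e1)
      exact (CStarAlgebra.norm_le_one_iff_of_nonneg _ (sub_nonneg.2 (hr1 n))).2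
        (sub_le_self _ (hr0 n))
    · have : (π (y * (1 - r n)) - T) ζ = (π y - T) ζ - π y (π (r n) ζ) := by
        simp only [mul_sub, mul_one, map_sub, map_mul, sub_apply, mul_apply_eq_comp]
        abel
      rw [this]
      linarith [norm_sub_le ((π y - T) ζ) (π y (π (r n) ζ)), (e2 ζ hζ).1, (hn ζ hζ).1]
    · have : (star (π (y * (1 - r n))) - star T) ζ =
          (star (π y) - star T) ζ - π (r n) (star (π y) ζ) := by
        rw [← map_star, star_mul, star_sub, star_one, (IsSelfAdjoint.of_nonneg (hr0 n)).star_eq]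
        simp only [sub_mul, one_mul, map_sub, map_mul, map_star, sub_apply, mul_apply_eq_comp]
        abel
      rw [this]
      linarith [norm_sub_le ((star (π y) - star T) ζ) (π (r n) (star (π y) ζ)), (e2 ζ hζ).2,
        (hn ζ hζ).2]
  obtain ⟨y, hy, e⟩ := ha.trans hc (ℂ ∙ ξ) 1
  obtain ⟨e1, e2⟩ := e ξ (Submodule.mem_span_singleton_self ξ)
  have hs := IsSelfAdjoint.star_mul_self y
  have hf : Continuous fun t : ℝ => max 0 (min t 1) := by fun_prop
  refine ⟨cfc (fun t : ℝ => max 0 (min t 1)) (star y * y), cfc_nonneg fun t _ => le_max_left _ _,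
    cfc_le_one _ _ fun t _ => max_le zero_le_one (min_le_right _ _), ?_, ?_⟩
  · rw [hφ, eigen_vec π hs (t := 1) (by
      rw [map_mul, map_star, mul_apply_eq_comp, e1, one_apply_eq_self, e2]; simp) hf]
    simpa [hφ] using h1
  · have := eigen_cfc ψ hs (t := 0) (fun b => by
      rw [← mul_assoc, (hD y).1 hy]; simp) hf 1
    simpa using this

end Pool.Agent.P.MP_8219a1_an.G
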