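import Pool.Agent.P.MP_8219a1_an.G.Word
import Pool.Agent.P.MP_8219a1_an.G.Ext

set_option autoImplicit false

open scoped ComplexOrder InnerProductSpace
open Filter Topology

noncomputable section

namespace Pool.Agent.P.MP_8219a1_an.G

universe u

section Sub

variable {M : Type u} [CStarAlgebra M]

theorem exists_sub {A : Type*} [CStarAlgebra A] (s : StarSubalgebra ℂ M) (π : A →⋆ₐ[ℂ] M)
    (h : ∀ a, π a ∈ s) : ∃ (B : Type u) (_ : CStarAlgebra B) (j : B →⋆ₐ[ℂ] M) (q : A →⋆ₐ[ℂ] B),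
      Function.Injective j ∧ Dense {b | j b ∈ s} ∧ (∀ x ∈ s, ∃ b, j b = x) ∧
        ∀ a, j (q a) = π a := by
  have := s.isClosed_topologicalClosure
  refine ⟨s.topologicalClosure, inferInstance, s.topologicalClosure.subtype,
    π.codRestrict _ fun a => s.le_topologicalClosure (h a), Subtype.val_injective, ?_,
    fun x hx => ⟨⟨x, s.le_topologicalClosure hx⟩, rfl⟩, fun a => rfl⟩
  exact Subtype.dense_iff.2 (closure_mono fun x hx => ⟨⟨x, s.le_topologicalClosure hx⟩, hx, rfl⟩)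

theorem St.comp {B : Type*} [CStarAlgebra B] (q : B →⋆ₐ[ℂ] M) {ρ : M →L[ℂ] ℂ} (h : St ρ) :
    St (res (q : B →⋆ₙₐ[ℂ] M) ρ) :=
  ⟨res_pos _ h.pos, (congrArg ρ (map_one q)).trans h.one, (res_norm _ ρ).trans h.norm_le⟩

theorem St.conj {ρ : M →L[ℂ] ℂ} (h : St ρ) {u : M} (hu : star u * u = 1) : St (compress ρ u) :=
  ⟨compress_pos ρ u h.pos, by rw [compress_apply, mul_one, hu, h.one],
    compress_norm_le ρ u h.norm_le (CuntzData.norm_le_one_of_iso hu)⟩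

theorem St.gns_ker {ρ : M →L[ℂ] ℂ} (h : St ρ) :
    ∃ (B : Type u) (_ : CStarAlgebra B) (σ : M →⋆ₐ[ℂ] B), (∀ x, σ x = 0 → ρ x = 0) ∧
      ∀ x, (∀ y, ρ (star (x * y) * (x * y)) = 0) → σ x = 0 := by
  let _ := CStarAlgebra.spectralOrder M
  have _ := CStarAlgebra.spectralOrderedRing M
  obtain ⟨K, _, _, _, σ, ξ, h1, h2⟩ := h.gns
  refine ⟨K →L[ℂ] K, inferInstance, σ, fun x hx => by simp [h1, hx], fun x hx => ?_⟩
  refine ContinuousLinearMap.ext fun ζ => h2.induction_on ζ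
    (isClosed_eq (σ x).continuous continuous_const) fun y => ?_
  have := hx y
  rw [h1, inner_star_self, map_mul] at this
  simpa using this

theorem exists_kill (N : Submodule ℂ M) (hN : ∀ b, ∀ x ∈ N, b * x ∈ N ∧ x * b ∈ N) {k k' : M}
    (hk : ‖k‖ ≤ 1) (e : k * k' = k') (h : k' ∉ N) :
    ∃ τ : M →L[ℂ] ℂ, St τ ∧ τ k = 1 ∧ ∀ x ∈ N, τ x = 0 := by
  let _ := CStarAlgebra.spectralOrder M
  have _ := CStarAlgebra.spectralOrderedRing M
  have h2 : 2 ≤ ‖N.mkQ (1 + k)‖ := by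
    by_contra h2
    obtain ⟨m, m1, m2⟩ := Submodule.Quotient.norm_mk_lt (N.mkQ (1 + k)) (sub_pos.2 (not_le.1 h2))
    rw [add_sub_cancel] at m2
    have m3 : ‖(1 / 2 : ℂ) • m‖ < 1 := by
      rw [norm_smul]
      norm_num
      linarith
    have m4 := (hN k' _ ((Submodule.Quotient.eq N).1 m1)).2
    have m5 : (1 - (1 / 2 : ℂ) • m) * k' = (-1 / 2 : ℂ) • ((m - (1 + k)) * k') := by
      simp only [sub_mul, add_mul, one_mul, smul_mul_assoc, e]
      module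
    refine h ?_
    rw [← (Units.oneSub _ m3).inv_mul_cancel_left k', Units.val_oneSub, m5]
    exact (hN _ _ (N.smul_mem _ m4)).1
  obtain ⟨g, g1, g2⟩ := exists_dual_vector'' ℂ (N.mkQ (1 + k))
  have hn : ‖g.comp N.mkQL‖ ≤ 1 := ContinuousLinearMap.opNorm_le_bound _ zero_le_one fun x =>
    g.le_of_opNorm_le_of_le g1 (Submodule.Quotient.norm_mk_le N x)
  have a1 := norm_apply_le_one hn CuntzData.norm_one_le
  have a2 := norm_apply_le_one hn hk
  have a3 : (g.comp N.mkQL 1).re + (g.comp N.mkQL k).re = ‖N.mkQ (1 + k)‖ := by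
    rw [← Complex.add_re, ← map_add]
    exact congrArg Complex.re g2
  have a4 := (Complex.re_le_norm _).trans a1
  have a5 := (Complex.re_le_norm _).trans a2
  refine ⟨_, .of_norm hn (eq_one_of_re a1 (by linarith)), eq_one_of_re a2 (by linarith),
    fun x hx => ?_⟩
  change g (Submodule.Quotient.mk x) = 0
  rw [(Submodule.Quotient.mk_eq_zero N).2 hx, map_zero]

end Sub

variable {A : Type*} [NonUnitalCStarAlgebra A] {B : Type u} [CStarAlgebra B]

/-- A solution implemented by a unitary. -/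
structure Sol (ι : A →⋆ₙₐ[ℂ] B) (φ ψ : A →L[ℂ] ℂ) (u : B) : Prop where
  inj : Function.Injective ι
  u1 : star u * u = 1
  u2 : u * star u = 1
  uniq : ∀ ρ σ : B →L[ℂ] ℂ, St ρ → St σ → (∀ a, ρ (ι a) = φ a) → (∀ a, σ (ι a) = φ a) → ρ = σ
  fwd : ∀ ρ : B →L[ℂ] ℂ, St ρ → (∀ a, ρ (ι a) = φ a) → ∀ a, ρ (u * ι a * star u) = ψ a
  bwd : ∀ ρ : B →L[ℂ] ℂ, St ρ → (∀ a, ρ (ι a) = ψ a) → ∀ a, ρ (star u * ι a * u) = φ a

theorem Toep.sol {A : Type u} [CStarAlgebra A] [PartialOrder A] [StarOrderedRing A]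
    {φ : Bool → A →L[ℂ] ℂ} {c : Bool → ℕ → A} {ω : Bool → ℕ → A →L[ℂ] ℂ} {π : A →⋆ₐ[ℂ] B}
    {S P : B} (T : Toep φ c ω π S P) : ∃ (C : Type u) (_ : CStarAlgebra C) (q : A →⋆ₐ[ℂ] C)
      (u : C), Sol (q : A →⋆ₙₐ[ℂ] C) (φ true) (φ false) u := by
  obtain ⟨C, _, j, q, j1, j2, j3, j4⟩ :=
    exists_sub (StarAlgebra.adjoin ℂ (insert (sym S P) (Set.range π))) π fun a =>
      StarAlgebra.subset_adjoin _ _ (.inr ⟨a, rfl⟩)
  let _ := CStarAlgebra.spectralOrder C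
  have _ := CStarAlgebra.spectralOrderedRing C
  obtain ⟨u, hu⟩ := j3 _ (StarAlgebra.subset_adjoin _ _ (.inl rfl))
  have us : star u = u := j1 (by rw [map_star, hu, T.sym_star])
  have uu : u * u = 1 := j1 (by rw [map_mul, hu, T.sym_sq, map_one])
  have nl : ∀ i N, ‖q (c i N)‖ ≤ 1 := fun i N =>
    (NonUnitalStarAlgHom.norm_apply_le q _).trans ((T.ch.ex i).norm_le N)
  have sw : ∀ i (ρ : C →L[ℂ] ℂ), St ρ → (∀ a, ρ (q a) = φ i a) →
      ∀ a, ρ (u * q a * u) = φ (!i) a := fun i ρ h1 h2 a => by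
    rw [← (T.ch.ex (!i)).eq ((h1.conj (u := u) (by rw [us, uu])).comp q) fun N => ?_, res_apply,
      compress_apply, us]
    · rfl
    · have e : u * q (c (!i) N) * u * q (c i (N + 4)) = q (c i (N + 4)) := j1 (by
        simp only [map_mul, hu, j4]
        rw [mul_assoc (sym S P), mul_assoc (sym S P), ← T.int, ← mul_assoc, T.sym_sq, one_mul])
      have v : ρ (q (c i (N + 4))) = 1 := by rw [h2, (T.ch.ex i).val]
      rw [res_apply, compress_apply, us, ← h1.mul_right (nl i (N + 4)) v]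
      exact (congrArg ρ e).trans v
  refine ⟨C, inferInstance, q, u, fun a b e => T.inj (by rw [← j4, ← j4]; exact congrArg j e),
    by rw [us, uu], by rw [us, uu], fun ρ σ r1 s1 r2 s2 => ?_, fun ρ r1 r2 a => ?_,
    fun ρ r1 r2 a => ?_⟩
  · refine ContinuousLinearMap.ext fun w => j2.induction (P := fun w => ρ w = σ w) (fun w hw => ?_)
      (isClosed_eq ρ.continuous σ.continuous) w
    obtain ⟨t, ht⟩ := T.scalar true hw
    have key : ∀ τ : C →L[ℂ] ℂ, St τ → (∀ a, τ (q a) = φ true a) → τ w = t := fun τ t1 t2 => by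
      have v : ∀ N, τ (q (c true N)) = 1 := fun N => by rw [t2, (T.ch.ex true).val]
      refine sub_eq_zero.1 (norm_le_zero_iff.1 (ge_of_tendsto' (by simpa using ht.norm) fun N => ?_))
      have := t1.le (q (c true N) * (w - t • 1) * q (c true N))
      rw [t1.mul_right (nl _ N) (v N), t1.mul_left (nl _ N) (v N), map_sub, map_smul, t1.one,
        ← NonUnitalStarAlgHom.norm_map j j1] at this
      simpa [j4] using this
    rw [key ρ r1 r2, key σ s1 s2]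
  · rw [us]
    exact sw true ρ r1 r2 a
  · rw [us]
    exact sw false ρ r1 r2 a

variable {ι : A →⋆ₙₐ[ℂ] B} {φ ψ : A →L[ℂ] ℂ} {u : B}

theorem Sol.restrict {q : Unitization ℂ A →⋆ₐ[ℂ] B} {φ' ψ' : Unitization ℂ A →L[ℂ] ℂ}
    (h : Sol (q : Unitization ℂ A →⋆ₙₐ[ℂ] B) φ' ψ' u) (e1 : IsUniqueStateExtension (inr A) φ φ')
    (e2 : IsUniqueStateExtension (inr A) ψ ψ') :
    Sol ((q : Unitization ℂ A →⋆ₙₐ[ℂ] B).comp (inr A)) φ ψ u := by
  have key : ∀ {φ φ'}, IsUniqueStateExtension (inr A) φ φ' → ∀ ρ : B →L[ℂ] ℂ, St ρ →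
      (∀ a, ρ (q (inr A a)) = φ a) → ∀ a, ρ (q a) = φ' a := fun e ρ r1 r2 a => by
    rw [← e.2.2 _ (r1.comp q).isState r2]
    rfl
  exact ⟨h.inj.comp inr_inj, h.u1, h.u2,
    fun ρ σ r1 s1 r2 s2 => h.uniq ρ σ r1 s1 (key e1 ρ r1 r2) (key e1 σ s1 s2),
    fun ρ r1 r2 a => (h.fwd ρ r1 (key e1 ρ r1 r2) _).trans (e2.2.1 a),
    fun ρ r1 r2 a => (h.bwd ρ r1 (key e2 ρ r1 r2) _).trans (e1.2.1 a)⟩

theorem exists_ne (hφ : IsState φ) : ∃ a, φ a ≠ 0 := by
  obtain ⟨x, -, h⟩ := exists_peak hφ zero_lt_one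
  exact ⟨star x * x, fun e => by simp [e] at h⟩

theorem Sol.faithful (hA : IsSimpleCStar A) (hφ : IsState φ) (h : Sol ι φ ψ u) :
    ∃ (C : Type u) (_ : CStarAlgebra C) (ι' : A →⋆ₙₐ[ℂ] C) (u' : C), Sol ι' φ ψ u' ∧
      ∀ ρ : C →L[ℂ] ℂ, St ρ → (∀ a, ρ (ι' a) = φ a) → Faithful ⊤ ρ := by
  let _ := CStarAlgebra.spectralOrder B
  have _ := CStarAlgebra.spectralOrderedRing B
  obtain ⟨g, g1, g2⟩ := exists_st ι h.inj hφ
  obtain ⟨K, _, _, _, π, ξ, h1, h2⟩ := g1.gns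
  obtain ⟨C, _, j, q, j1, j2, -, j4⟩ := exists_sub π.range π fun a => ⟨a, rfl⟩
  have hd : DenseRange q := j2.mono fun b hb => by
    obtain ⟨a, e⟩ : ∃ a, π a = j b := hb
    exact ⟨a, j1 ((j4 a).trans e)⟩
  obtain ⟨a, ha⟩ := exists_ne hφ
  have key : ∀ ρ : C →L[ℂ] ℂ, St ρ → (∀ a, ρ (q (ι a)) = φ a) → ρ = vec j ξ ξ := fun ρ r1 r2 =>
    ContinuousLinearMap.ext fun y => hd.induction_on y
      (isClosed_eq ρ.continuous (vec j ξ ξ).continuous) fun b => by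
        rw [vec_apply, j4, ← h1, ← h.uniq _ _ (r1.comp q) g1 r2 g2]
        rfl
  refine ⟨C, inferInstance, (q : B →⋆ₙₐ[ℂ] C).comp ι, q u,
    ⟨inj_of_simple hA _ (a := a) fun e => ha ?_, by rw [← map_star, ← map_mul, h.u1, map_one],
      by rw [← map_star, ← map_mul, h.u2, map_one],
      fun ρ σ r1 s1 r2 s2 => (key ρ r1 r2).trans (key σ s1 s2).symm, fun ρ r1 r2 a => ?_,
      fun ρ r1 r2 a => ?_⟩, fun ρ r1 r2 x _ hx => j1 ?_⟩
  · rw [← g2, h1, ← j4, show q (ι a) = 0 from e]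
    simp
  · rw [← h.fwd _ (r1.comp q) r2 a, res_apply]
    exact congrArg ρ (by simp [map_star])
  · rw [← h.bwd _ (r1.comp q) r2 a, res_apply]
    exact congrArg ρ (by simp [map_star])
  · refine ContinuousLinearMap.ext fun ζ => h2.induction_on ζ
      (isClosed_eq (j x).continuous (j 0).continuous) fun y => ?_
    have := hx (q y)
    rw [key ρ r1 r2, vec_apply, inner_star_self, map_mul, j4] at this
    simpa using this

end Pool.Agent.P.MP_8219a1_an.G
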