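import Pool.Agent.P.MP_8219a1_an.G.Fock

set_option autoImplicit false

open scoped ComplexOrder InnerProductSpace
open Filter Topology

noncomputable section

namespace Pool.Agent.P.MP_8219a1_an.G

universe u

variable {A : Type u} [CStarAlgebra A] [PartialOrder A] [StarOrderedRing A]
variable {B : Type*} [CStarAlgebra B]

theorem St.mul01 {ρ : A →L[ℂ] ℂ} (h : St ρ) {c : A} (h0 : 0 ≤ c) (h1 : c ≤ 1)
    (hc : ρ c = 0 ∨ ρ c = 1) (y : A) : ρ (c * y) = ρ c * ρ y ∧ ρ (y * c) = ρ c * ρ y := by
  rcases hc with e | e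
  · have n : ‖1 - c‖ ≤ 1 :=
      (CStarAlgebra.norm_le_one_iff_of_nonneg _ (sub_nonneg.2 h1)).2 (sub_le_self _ h0)
    have v : ρ (1 - c) = 1 := by rw [map_sub, h.one, e, sub_zero]
    have a1 := h.mul_left n v y
    have a2 := h.mul_right n v y
    rw [sub_mul, one_mul, map_sub, sub_eq_self] at a1
    rw [mul_sub, mul_one, map_sub, sub_eq_self] at a2
    rw [a1, a2, e, zero_mul]
    exact ⟨rfl, rfl⟩
  · have n := (CStarAlgebra.norm_le_one_iff_of_nonneg _ h0).2 h1
    rw [h.mul_left n e, h.mul_right n e, e, one_mul]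
    exact ⟨rfl, rfl⟩

/-- The abstract data of the construction. -/
structure Toep (φ : Bool → A →L[ℂ] ℂ) (c : Bool → ℕ → A) (ω : Bool → ℕ → A →L[ℂ] ℂ)
    (π : A →⋆ₐ[ℂ] B) (S P : B) : Prop where
  ch : Chain φ c
  ad : Adapt c ω
  inj : Function.Injective π
  s1 : ∀ y, (∀ i N, ω i N y = 0) → star S * π y * S = 0
  s2 : ∀ i M, star S * π (c i M) * S = π (c (!i) M)
  pp : IsStarProjection P
  pe : P = S * (1 - P) * star S
  tr : ∀ X Y, (∀ j, X * (S ^ (j + 1) * star S ^ (j + 1)) * Y = 0) → X * P * Y = 0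

/-- The symmetry that pairs the levels. -/
def sym (S P : B) : B := S * (1 - P) + (1 - P) * star S

/-- Elements that vanish asymptotically on the right. -/
def Lz (e : ℕ → B) : Submodule ℂ B where
  carrier := {Y | Tendsto (fun N => Y * e N) atTop (𝓝 0)}
  add_mem' a b := by simpa only [Set.mem_ofPred_eq, add_mul, add_zero] using a.out.add b.out
  zero_mem' := by simp
  smul_mem' t Y a := by
    simpa only [Set.mem_ofPred_eq, smul_mul_assoc, smul_zero] using a.out.const_smul t

/-- Elements with asymptotically vanishing compressions. -/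
def Zz (e e' : ℕ → B) : Submodule ℂ B where
  carrier := {Y | Tendsto (fun N => e N * Y * e' N) atTop (𝓝 0)}
  add_mem' a b := by
    simpa only [Set.mem_ofPred_eq, mul_add, add_mul, add_zero] using a.out.add b.out
  zero_mem' := by simp
  smul_mem' t Y a := by
    simpa only [Set.mem_ofPred_eq, mul_smul_comm, smul_mul_assoc, smul_zero]
      using a.out.const_smul t

theorem mem_Lz {e : ℕ → B} {Y : B} : Y ∈ Lz e ↔ Tendsto (fun N => Y * e N) atTop (𝓝 0) := Iff.rfl

theorem mem_Zz {e e' : ℕ → B} {Y : B} :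
    Y ∈ Zz e e' ↔ Tendsto (fun N => e N * Y * e' N) atTop (𝓝 0) := Iff.rfl

/-- Words with centred right end. -/
inductive Wd (ρ : A →L[ℂ] ℂ) (π : A →⋆ₐ[ℂ] B) (S : B) : ℕ → B → Prop
  | base (x : A) (h : ρ x = 0) : Wd ρ π S 0 (π x)
  | step (m : ℕ) (x : A) (Y : B) (h : Wd ρ π S m Y) : Wd ρ π S (m + 1) (π x * S * Y)

theorem tendsto_of_le {f g : ℕ → B} (h : Tendsto g atTop (𝓝 0)) (k : ℕ)
    (hl : ∀ N, ‖f (N + k)‖ ≤ ‖g N‖) : Tendsto f atTop (𝓝 0) :=
  (tendsto_add_atTop_iff_nat k).1 (squeeze_zero_norm hl (by simpa using h.norm))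

theorem norm_mul3 {a b : B} (x : B) (ha : ‖a‖ ≤ 1) (hb : ‖b‖ ≤ 1) : ‖a * x * b‖ ≤ ‖x‖ :=
  ((norm_mul_le _ _).trans (mul_le_of_le_one_right (norm_nonneg _) hb)).trans
    ((norm_mul_le _ _).trans (mul_le_of_le_one_left (norm_nonneg _) ha))

namespace Toep

variable {φ : Bool → A →L[ℂ] ℂ} {c : Bool → ℕ → A} {ω : Bool → ℕ → A →L[ℂ] ℂ}
  {π : A →⋆ₐ[ℂ] B} {S P : B} (T : Toep φ c ω π S P)
include T

omit [StarOrderedRing A] in
theorem iso : star S * S = 1 := by
  have := congrArg₂ (· + ·) (T.s2 true 0) (T.s2 false 0)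
  simp only [← add_mul, ← mul_add, ← map_add] at this
  rwa [show c (!true) 0 + c (!false) 0 = 1 from T.ch.zero false,
    show c true 0 + c false 0 = 1 from T.ch.zero true, map_one, mul_one] at this

omit [StarOrderedRing A] in
theorem det {y y' : A} (h : ∀ i N, ω i N y = ω i N y') :
    star S * π y * S = star S * π y' * S := by
  have := T.s1 (y - y') fun i N => by rw [map_sub, h, sub_self]
  rwa [map_sub, mul_sub, sub_mul, sub_eq_zero] at this

omit [StarOrderedRing A] in
theorem val (i : Bool) (N : ℕ) (j : Bool) (M : ℕ) : ω i N (c j M) = 0 ∨ ω i N (c j M) = 1 := by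
  by_cases e : j = i
  · subst e
    exact (lt_or_ge N M).imp (T.ad.zero _ _ _) (T.ad.one _ _ _)
  · rw [show j = !i by cases i <;> cases j <;> simp_all]
    exact .inl (T.ad.other _ _ _)

theorem mulc (i : Bool) (N : ℕ) (j : Bool) (M : ℕ) (y : A) :
    ω i N (c j M * y) = ω i N (c j M) * ω i N y ∧ ω i N (y * c j M) = ω i N (c j M) * ω i N y :=
  (T.ad.st i N).mul01 ((T.ch.ex j).nonneg M) ((T.ch.ex j).le_one M) (T.val i N j M) y

theorem sa (i : Bool) (M : ℕ) : star (π (c i M)) = π (c i M) := by rw [← map_star, (T.ch.ex i).sa]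

theorem nl (i : Bool) (M : ℕ) : ‖π (c i M)‖ ≤ 1 :=
  (NonUnitalStarAlgHom.norm_apply_le π _).trans ((T.ch.ex i).norm_le M)

theorem lt (i : Bool) {N M : ℕ} (h : N < M) :
    π (c i M) * π (c i N) = π (c i M) ∧ π (c i N) * π (c i M) = π (c i M) := by
  rw [← map_mul, ← map_mul, (T.ch.ex i).mul_lt h, (T.ch.ex i).mul_lt' h]
  exact ⟨rfl, rfl⟩

theorem sq (i : Bool) (M : ℕ) : star S * (π (c i M) * π (c i M)) * S = π (c (!i) M) := by
  rw [← map_mul, ← T.s2]
  refine T.det fun j N => ?_
  rw [(T.mulc j N i M _).1]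
  rcases T.val j N i M with e | e <;> simp [e]

theorem r1 (i : Bool) (M : ℕ) : π (c i (M + 1)) * S * (1 - π (c (!i) M)) = 0 := by
  rw [← CStarRing.star_mul_self_eq_zero_iff]
  calc _ = (1 - π (c (!i) M)) * (star S * (π (c i (M + 1)) * π (c i (M + 1))) * S) *
        (1 - π (c (!i) M)) := by simp only [star_mul, star_sub, star_one, T.sa, mul_assoc]
    _ = 0 := by rw [T.sq, sub_mul 1, one_mul, (T.lt _ M.lt_succ_self).2, sub_self, zero_mul]

theorem r2 (i : Bool) (M : ℕ) : (1 - π (c i M)) * S * π (c (!i) (M + 1)) = 0 := by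
  rw [← CStarRing.star_mul_self_eq_zero_iff]
  calc _ = π (c (!i) (M + 1)) * (star S * S - star S * π (c i M) * S - star S * π (c i M) * S +
        star S * (π (c i M) * π (c i M)) * S) * π (c (!i) (M + 1)) := by
        simp only [star_mul, star_sub, star_one, T.sa]
        noncomm_ring
    _ = 0 := by
        rw [T.sq, T.s2, T.iso, sub_add_cancel, mul_sub, mul_one, (T.lt _ M.lt_succ_self).1,
          sub_self, zero_mul]

theorem r3 (i : Bool) (M : ℕ) : π (c i M) * S * S = S * π (c (!i) M) * S := by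
  rw [← sub_eq_zero, ← CStarRing.star_mul_self_eq_zero_iff]
  calc _ = star S * (star S * (π (c i M) * π (c i M)) * S) * S -
        star S * (star S * π (c i M) * S * π (c (!i) M)) * S -
        star S * (π (c (!i) M) * (star S * π (c i M) * S)) * S +
        star S * (π (c (!i) M) * (star S * S) * π (c (!i) M)) * S := by
        simp only [star_mul, star_sub, T.sa]
        noncomm_ring
    _ = 0 := by
        rw [T.sq, T.s2, T.s2, T.iso, mul_one, T.sq]
        abel

theorem tri (i : Bool) (M : ℕ) : (1 - π (c i M)) * (1 - P) * π (c i (M + 3)) = 0 := by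
  have key : ∀ j i, (1 - π (c i M)) * (S ^ (j + 1) * star S ^ (j + 1)) * π (c i (M + 3)) = 0 := by
    intro j
    induction j with
    | zero =>
      intro i
      have a1 := T.r2 i M
      have a2 := congrArg star (T.r1 i (M + 2))
      simp only [star_mul, star_sub, star_one, T.sa, star_zero, sub_mul, one_mul,
        sub_eq_zero] at a2
      rw [zero_add, pow_one, pow_one, mul_assoc, mul_assoc, a2,
        ← (T.lt (!i) (M + 1).lt_succ_self).2, mul_assoc, ← mul_assoc, ← mul_assoc, ← mul_assoc, a1,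
        zero_mul, zero_mul]
    | succ j ih =>
      intro i
      have a1 : (1 - π (c i M)) * (S * S) = S * (1 - π (c (!i) M)) * S := by
        rw [sub_mul, mul_sub, sub_mul, ← mul_assoc (π _), T.r3, one_mul, mul_one]
      have a2 := congrArg star (T.r3 i (M + 3))
      simp only [star_mul, T.sa] at a2
      calc _ = (1 - π (c i M)) * (S * S) * S ^ j * star S ^ j *
            (star S * (star S * π (c i (M + 3)))) := by
            rw [pow_succ' S, pow_succ' S, pow_succ (star S), pow_succ (star S)]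
            simp only [mul_assoc]
        _ = S * ((1 - π (c (!i) M)) * (S ^ (j + 1) * star S ^ (j + 1)) * π (c (!i) (M + 3))) *
            star S := by
            rw [a1, a2, pow_succ' S, pow_succ (star S)]
            simp only [mul_assoc]
        _ = 0 := by rw [ih, mul_zero, zero_mul]
  rw [mul_sub _ 1, sub_mul, T.tr _ _ fun j => key j i, mul_one, sub_mul, one_mul,
    (T.lt i (by omega)).2, sub_self, sub_zero]

omit [StarOrderedRing A] in
theorem sym_star : star (sym S P) = sym S P := by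
  simp only [sym, star_add, star_mul, star_star, T.pp.one_sub.isSelfAdjoint.star_eq, add_comm]

omit [StarOrderedRing A] in
theorem sym_sq : sym S P * sym S P = 1 := by
  have q := T.pp.one_sub.isIdempotentElem.eq
  have e1 : (1 - P) * S * (1 - P) = 0 := by
    have : P * (S * (1 - P)) = S * (1 - P) := by
      nth_rewrite 1 [T.pe]
      rw [mul_assoc, ← mul_assoc (star S), T.iso, one_mul, mul_assoc, q]
    rw [mul_assoc, sub_mul 1, one_mul, this, sub_self]
  have e2 := congrArg star e1
  simp only [star_mul, T.pp.one_sub.isSelfAdjoint.star_eq, star_zero] at e2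
  calc _ = S * ((1 - P) * S * (1 - P)) + S * ((1 - P) * (1 - P)) * star S +
        (1 - P) * (star S * S) * (1 - P) + (1 - P) * (star S * (1 - P)) * star S := by
        simp only [sym]
        noncomm_ring
    _ = 1 := by
        rw [e1, e2, q, T.iso, mul_one, q, ← T.pe, mul_zero, zero_mul]
        abel

omit [StarOrderedRing A] in
theorem sym_norm : ‖sym S P‖ ≤ 1 :=
  CuntzData.norm_le_one_of_iso (by rw [T.sym_star, T.sym_sq])

theorem int (i : Bool) (M : ℕ) :
    sym S P * π (c i (M + 4)) = π (c (!i) M) * sym S P * π (c i (M + 4)) := by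
  have a1 := T.r2 (!i) M
  have a2 := T.tri i (M + 1)
  have a3 := congrArg star (T.r1 i (M + 3))
  have a4 := T.tri (!i) M
  rw [Bool.not_not] at a1
  simp only [star_mul, star_sub, star_one, T.sa, star_zero] at a3
  rw [← sub_eq_zero]
  calc _ = (1 - π (c (!i) M)) * S * π (c i (M + 1)) * (1 - P) * π (c i (M + 4)) +
        (1 - π (c (!i) M)) * S * ((1 - π (c i (M + 1))) * (1 - P) * π (c i (M + 1 + 3))) +
        (1 - π (c (!i) M)) * (1 - P) * ((1 - π (c (!i) (M + 3))) *
          (star S * π (c i (M + 3 + 1)))) +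
        (1 - π (c (!i) M)) * (1 - P) * π (c (!i) (M + 3)) * (star S * π (c i (M + 4))) := by
        simp only [sym]
        noncomm_ring
    _ = 0 := by simp only [a1, a2, a3, a4, zero_mul, mul_zero, add_zero]

theorem phi (x : A) : ∃ y, star S * π x * S = π y ∧ ∀ i z, φ i z = 0 → φ i (y * z) = 0 := by
  let D : Submodule ℂ A :=
    ⨅ i, ⨅ z : {z // φ i z = 0}, ((φ i).comp ((ContinuousLinearMap.mul ℂ A).flip z.1)).ker
  have hD : ∀ y, y ∈ D ↔ ∀ i z, φ i z = 0 → φ i (y * z) = 0 := fun y => by simp [D]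
  have hc : IsClosed (D : Set A) := by
    simp only [D, Submodule.coe_iInf]
    exact isClosed_iInter fun i => isClosed_iInter fun z => ContinuousLinearMap.isClosed_ker _
  have hm : ∀ j M, c j M ∈ D := fun j M => (hD _).2 fun i z hz => by
    have v : φ i (c j M) = 0 ∨ φ i (c j M) = 1 := by
      by_cases e : j = i
      · exact .inr (e ▸ (T.ch.ex j).val M)
      · left
        rw [show j = !i by cases i <;> cases j <;> simp_all,
          ← (T.ch.ex i).st.mul_left ((T.ch.ex i).norm_le 1) ((T.ch.ex i).val 1), T.ch.cross,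
          map_zero]
    rw [((T.ch.ex i).st.mul01 ((T.ch.ex j).nonneg M) ((T.ch.ex j).le_one M) v z).1, hz, mul_zero]
  have hi : Isometry π := AddMonoidHomClass.isometry_of_norm π
    (NonUnitalStarAlgHom.norm_map π T.inj)
  have key : star S * π x * S ∈ π '' (D : Set A) := by
    have hn : ‖S‖ ≤ 1 := CuntzData.norm_le_one_of_iso T.iso
    let r : ℕ → A := fun M => ∑ i, c i M * (x - φ i x • 1) * c i M
    have hr : Tendsto r atTop (𝓝 0) := by
      have := tendsto_finset_sum Finset.univ fun i _ => (T.ch.ex i).exc x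
      rwa [Finset.sum_const_zero] at this
    have t : Tendsto (fun M => star S * π x * S - star S * π (r M) * S) atTop
        (𝓝 (star S * π x * S)) := by
      have := ((((cont_rep π).tendsto _).comp hr).const_mul (star S)).mul_const S
      simpa using tendsto_const_nhds.sub this
    refine (hi.isClosedEmbedding.isClosedMap _ hc).mem_of_tendsto t (.of_forall fun M => ?_)
    refine ⟨∑ i, (∑ N ∈ Finset.range M, ω i N x • (c (!i) N - c (!i) (N + 1)) +
      φ i x • c (!i) M), D.sum_mem fun i _ => D.add_mem (D.sum_mem fun N _ =>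
        D.smul_mem _ (D.sub_mem (hm _ _) (hm _ _))) (D.smul_mem _ (hm _ _)), ?_⟩
    rw [← sub_mul, ← mul_sub, ← map_sub, T.det (y' := ∑ i, (∑ N ∈ Finset.range M,
      ω i N x • (c i N - c i (N + 1)) + φ i x • c i M)) fun j N => ?_]
    · simp only [map_sum, map_add, map_smul, map_sub, Finset.mul_sum, Finset.sum_mul, mul_add,
        add_mul, mul_smul_comm, smul_mul_assoc, mul_sub, sub_mul, T.s2]
    · have e : ∀ i, ω j N (∑ N ∈ Finset.range M, ω i N x • (c i N - c i (N + 1)) + φ i x • c i M) +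
          ω j N (c i M * (x - φ i x • 1) * c i M) = if j = i then ω j N x else 0 := fun i => by
        rw [(T.mulc j N i M _).2, (T.mulc j N i M _).1, map_add, map_sum, map_sub, map_smul,
          map_smul, (T.ad.st j N).one]
        simp only [map_smul, T.ad.d, smul_eq_mul, mul_ite, mul_one, mul_zero]
        by_cases e : j = i
        · subst e
          simp only [true_and, Finset.sum_ite_eq, Finset.mem_range, if_true]
          split_ifs with e
          · rw [T.ad.zero _ _ _ e]
            ring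
          · rw [T.ad.one _ _ _ (not_lt.1 e)]
            ring
        · rw [show i = !j by cases i <;> cases j <;> simp_all, T.ad.other]
          simp
      rw [map_sub, sub_eq_iff_eq_add, map_sum, map_sum, ← Finset.sum_add_distrib]
      simp only [e, Finset.sum_ite_eq, Finset.mem_univ, if_true]
  obtain ⟨y, h1, h2⟩ := key
  exact ⟨y, h2.symm, (hD y).1 h1⟩

theorem ann (i : Bool) {x : A} (hx : φ i x = 0) : star S * π x ∈ Lz fun N => π (c i N) := by
  have hn : ‖S‖ ≤ 1 := CuntzData.norm_le_one_of_iso T.iso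
  have hn' : ‖star S‖ ≤ 1 := by rwa [norm_star]
  have h1 : ∀ j N', Tendsto (fun N => star S * π ((c j N' - c j (N' + 1)) * (x * c i N))) atTop
      (𝓝 0) := fun j N' => by
    have e : ∀ y, star S * π ((c j N' - c j (N' + 1)) * y * (c j N' - c j (N' + 1))) * S =
        ω j N' y • (star S * π (c j N' - c j (N' + 1)) * S) := fun y => by
      rw [← smul_mul_assoc, ← mul_smul_comm, ← map_smul]
      refine T.det fun l M => ?_
      have b1 : ∀ z, ω l M (z * (c j N' - c j (N' + 1))) =
          ω l M (c j N' - c j (N' + 1)) * ω l M z := fun z => by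
        rw [mul_sub, map_sub, map_sub, (T.mulc _ _ _ _ _).2, (T.mulc _ _ _ _ _).2, sub_mul]
      have b2 : ∀ z, ω l M ((c j N' - c j (N' + 1)) * z) =
          ω l M (c j N' - c j (N' + 1)) * ω l M z := fun z => by
        rw [sub_mul, map_sub, map_sub, (T.mulc _ _ _ _ _).1, (T.mulc _ _ _ _ _).1, sub_mul]
      rw [b1, b2, map_smul, T.ad.d]
      split_ifs with e
      · simp [e.1, e.2]
      · simp
    have t := (T.ad.lim j N' i x).smul_const (star S * π (c j N' - c j (N' + 1)) * S)
    rw [zero_smul] at t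
    have t2 := t.norm.sqrt
    rw [norm_zero, Real.sqrt_zero] at t2
    refine squeeze_zero_norm (fun N => ?_) t2
    rw [← e, Real.le_sqrt (norm_nonneg _) (norm_nonneg _), _root_.sq,
      ← CStarRing.norm_self_mul_star]
    simp only [star_mul, star_star, ← map_star, map_mul, star_sub, (T.ch.ex j).sa, mul_assoc,
      le_refl]
  have h2 : ∀ j, Tendsto (fun M => c j M * x * c i M) atTop (𝓝 0) := fun j => by
    by_cases e : j = i
    · simpa [e, hx] using (T.ch.ex i).exc x
    · rw [show i = !j by cases i <;> cases j <;> simp_all]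
      exact T.ch.disj j x
  refine NormedAddGroup.tendsto_nhds_zero.2 fun ε hε => ?_
  have hε3 : 0 < ε / 3 := by positivity
  obtain ⟨M, m1, m2⟩ := ((NormedAddGroup.tendsto_nhds_zero.1 (h2 true) _ hε3).and
    (NormedAddGroup.tendsto_nhds_zero.1 (h2 false) _ hε3)).exists
  have h3 := tendsto_finset_sum (Finset.range M) fun N' _ => (h1 true N').add (h1 false N')
  simp only [add_zero, Finset.sum_const_zero] at h3
  filter_upwards [NormedAddGroup.tendsto_nhds_zero.1 h3 _ hε3, eventually_gt_atTop M] with N n1 n2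
  have e : star S * π x * π (c i N) = (∑ N' ∈ Finset.range M,
      (star S * π ((c true N' - c true (N' + 1)) * (x * c i N)) +
        star S * π ((c false N' - c false (N' + 1)) * (x * c i N)))) +
      star S * π (c true M * x * c i M) * π (c i N) +
      star S * π (c false M * x * c i M) * π (c i N) := by
    simp only [← mul_add, ← Finset.mul_sum, ← map_add, ← map_sum, ← add_mul, ← Finset.sum_mul,
      mul_assoc, ← map_mul, (T.ch.ex i).mul_lt' n2]
    rw [Finset.sum_add_distrib, Finset.sum_range_sub' (c true), Finset.sum_range_sub' (c false),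
      show ∀ a b d e : A, a - b + (d - e) + b + e = a + d from fun _ _ _ _ => by abel,
      show c true 0 + c false 0 = 1 from T.ch.zero true, one_mul]
  have b : ∀ j, ‖star S * π (c j M * x * c i M) * π (c i N)‖ ≤ ‖c j M * x * c i M‖ := fun j =>
    (norm_mul3 _ hn' (T.nl i N)).trans (NonUnitalStarAlgHom.norm_apply_le π _)
  rw [e]
  linarith [norm_add₃_le (a := ∑ N' ∈ Finset.range M,
      (star S * π ((c true N' - c true (N' + 1)) * (x * c i N)) +
        star S * π ((c false N' - c false (N' + 1)) * (x * c i N))))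
      (b := star S * π (c true M * x * c i M) * π (c i N))
      (c := star S * π (c false M * x * c i M) * π (c i N)), b true, b false]

theorem lz_le (i j : Bool) : (Lz fun N => π (c j N)) ≤ Zz (fun N => π (c i N)) fun N => π (c j N) :=
  fun Y hY => tendsto_of_le hY 0 fun N => by
    rw [add_zero, mul_assoc]
    exact (norm_mul_le _ _).trans (mul_le_of_le_one_left (norm_nonneg _) (T.nl i N))

theorem wd_zz {j : Bool} {m : ℕ} {Y : B} (h : Wd (φ j) π S m Y) (i : Bool) :
    Y ∈ Zz (fun N => π (c i N)) fun N => π (c j N) := by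
  induction h generalizing i with
  | base x hx =>
    have : Tendsto (fun M => c i M * x * c j M) atTop (𝓝 0) := by
      by_cases e : i = j
      · simpa [e, hx] using (T.ch.ex j).exc x
      · rw [show j = !i by cases i <;> cases j <;> simp_all]
        exact T.ch.disj i x
    simpa only [mem_Zz, Function.comp_def, map_mul, map_zero] using
      ((cont_rep π).tendsto _).comp this
  | step m x Y _ ih =>
    have e : π x * S * Y = φ i x • (S * Y) + π (x - φ i x • 1) * S * Y := by
      simp only [map_sub, map_smul, map_one, sub_mul, smul_mul_assoc, one_mul]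
      abel
    rw [e]
    refine add_mem (Submodule.smul_mem _ _ (tendsto_of_le (ih (!i)) 1 fun N => ?_)) ?_
    · have a := T.r1 i N
      rw [mul_sub, mul_one, sub_eq_zero] at a
      beta_reduce
      rw [← mul_assoc, a, ← (T.lt j N.lt_succ_self).2, ← mul_assoc, mul_assoc (π _ * S),
        mul_assoc (π _ * S)]
      exact norm_mul3 _ ((norm_mul_le _ _).trans (mul_le_one₀ (T.nl _ _) (norm_nonneg _)
        (CuntzData.norm_le_one_of_iso T.iso))) (T.nl _ _)
    · have a := (T.ann i (x := star (x - φ i x • 1)) (by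
        rw [pos_star (T.ch.ex i).st.pos, map_sub, map_smul, (T.ch.ex i).st.one]
        simp)).out.star.mul_const Y
      simp only [star_mul, T.sa, star_star, map_star, star_zero, zero_mul] at a
      refine tendsto_of_le a 0 fun N => ?_
      simp only [add_zero, ← mul_assoc]
      exact (norm_mul_le _ _).trans (mul_le_of_le_one_right (norm_nonneg _) (T.nl j N))

end Toep

/-- The span of the words, modulo negligible elements. -/
def Mw (ρ : A →L[ℂ] ℂ) (π : A →⋆ₐ[ℂ] B) (S : B) (e : ℕ → B) : Submodule ℂ B :=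
  Submodule.span ℂ {Y | ∃ m, Wd ρ π S m Y} ⊔ Lz e

omit [PartialOrder A] [StarOrderedRing A] in
theorem Mw.mul {ρ : A →L[ℂ] ℂ} {π : A →⋆ₐ[ℂ] B} {S : B} {e : ℕ → B} {N : Submodule ℂ B}
    (hN : Mw ρ π S e ≤ N) (X : B) (h : ∀ m Y, Wd ρ π S m Y → X * Y ∈ N) {Y : B}
    (hY : Y ∈ Mw ρ π S e) : X * Y ∈ N := by
  have : Mw ρ π S e ≤ N.comap (LinearMap.mulLeft ℂ X) := by
    refine sup_le (Submodule.span_le.2 fun Y ⟨m, hm⟩ => h m Y hm) fun Y hY =>
      hN (Submodule.mem_sup_right ?_)
    simpa only [mem_Lz, LinearMap.mulLeft_apply, mul_assoc, mul_zero] using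
      Tendsto.const_mul X (mem_Lz.1 hY)
  exact this hY

omit [PartialOrder A] [StarOrderedRing A] in
theorem Wd.mem {ρ : A →L[ℂ] ℂ} {π : A →⋆ₐ[ℂ] B} {S : B} {e : ℕ → B} {m : ℕ} {Y : B}
    (h : Wd ρ π S m Y) : Y ∈ Mw ρ π S e := Submodule.mem_sup_left (Submodule.subset_span ⟨m, h⟩)

namespace Toep

variable {φ : Bool → A →L[ℂ] ℂ} {c : Bool → ℕ → A} {ω : Bool → ℕ → A →L[ℂ] ℂ}
  {π : A →⋆ₐ[ℂ] B} {S P : B} (T : Toep φ c ω π S P)
include T

theorem wd_ann {j : Bool} {m : ℕ} (x : A) {Y : B} (h : Wd (φ j) π S m Y) :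
    Wd (φ j) π S m (star S * (π x * S * Y)) := by
  obtain ⟨y, h1, h2⟩ := T.phi x
  rw [← mul_assoc, ← mul_assoc, h1]
  cases h with
  | base z hz => exact map_mul π y z ▸ .base _ (h2 j z hz)
  | step m z Y h =>
    rw [← mul_assoc, ← mul_assoc, ← map_mul]
    exact .step _ _ _ h

theorem sym_mem {j : Bool} {Y : B} (h : Y ∈ Mw (φ j) π S fun N => π (c j N)) :
    sym S P * Y ∈ Mw (φ j) π S fun N => π (c j N) := by
  have h1 : ∀ Y ∈ Mw (φ j) π S fun N => π (c j N), S * Y ∈ Mw (φ j) π S fun N => π (c j N) :=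
    fun Y => Mw.mul le_rfl S fun m Y h => by simpa using (Wd.step m 1 Y h).mem
  have h2 : ∀ Y ∈ Mw (φ j) π S fun N => π (c j N), star S * Y ∈ Mw (φ j) π S fun N => π (c j N) :=
    fun Y => Mw.mul le_rfl _ fun m Y h => by
      cases h with
      | base x hx => exact Submodule.mem_sup_right (T.ann j hx)
      | step m x Y h => exact (T.wd_ann x h).mem
  have h3 : ∀ m Y, Wd (φ j) π S m Y → P * Y ∈ Mw (φ j) π S fun N => π (c j N) := fun m => by
    induction m with
    | zero =>
      rintro _ ⟨x, hx⟩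
      rw [T.pe, mul_assoc]
      refine Submodule.mem_sup_right ?_
      simpa only [mem_Lz, mul_assoc, mul_zero] using
        Tendsto.const_mul (S * (1 - P)) (mem_Lz.1 (T.ann j hx))
    | succ m ih =>
      rintro _ (_ | ⟨_, x, Y, h⟩)
      rw [T.pe, mul_assoc, mul_assoc S, sub_mul, one_mul]
      exact h1 _ (sub_mem (T.wd_ann x h).mem (ih _ (T.wd_ann x h)))
  have h4 : ∀ Y ∈ Mw (φ j) π S fun N => π (c j N),
      (1 - P) * Y ∈ Mw (φ j) π S fun N => π (c j N) := fun Y hY => by
    rw [sub_mul, one_mul]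
    exact sub_mem hY (Mw.mul le_rfl P h3 hY)
  rw [sym, add_mul, mul_assoc, mul_assoc]
  exact add_mem (h1 _ (h4 _ h)) (h4 _ (h2 _ h))

omit [StarOrderedRing A] in
theorem rep_mem {j : Bool} (x : A) (t : ℂ) {Y : B} (h : Y ∈ Mw (φ j) π S fun N => π (c j N)) :
    ∃ t' : ℂ, ∃ Y' ∈ Mw (φ j) π S fun N => π (c j N), π x * (t • 1 + Y) = t' • 1 + Y' := by
  have h0 : ∀ y, π y ∈ (ℂ ∙ (1 : B)) ⊔ Mw (φ j) π S fun N => π (c j N) := fun y => by
    have e : π y = φ j y • 1 + π (y - φ j y • 1) := by simp
    rw [e]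
    exact Submodule.add_mem_sup (Submodule.smul_mem _ _ (Submodule.mem_span_singleton_self _))
      (Wd.base _ (by simp [(T.ch.ex j).st.one])).mem
  have h1 := Mw.mul (N := (ℂ ∙ (1 : B)) ⊔ Mw (φ j) π S fun N => π (c j N)) le_sup_right (π x)
    (fun m Y h => by
      cases h with
      | base z hz => exact map_mul π x z ▸ h0 _
      | step m z Y h =>
        rw [← mul_assoc, ← mul_assoc, ← map_mul]
        exact Submodule.mem_sup_right (Wd.step _ _ _ h).mem) h
  obtain ⟨a, ha, Y', hY', e⟩ := Submodule.mem_sup.1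
    (add_mem (Submodule.smul_mem _ t (h0 x)) h1)
  obtain ⟨t', rfl⟩ := Submodule.mem_span_singleton.1 ha
  exact ⟨t', Y', hY', by rw [e, mul_add, mul_smul_comm, mul_one]⟩

/-- The support projection stays minimal. -/
theorem scalar (i : Bool) {w : B} (hw : w ∈ StarAlgebra.adjoin ℂ (insert (sym S P) (Set.range π))) :
    ∃ t : ℂ, Tendsto (fun N => π (c i N) * (w - t • 1) * π (c i N)) atTop (𝓝 0) := by
  let G : B → Prop := fun v => ∃ s t : ℂ, ∃ Y ∈ Mw (φ i) π S fun N => π (c i N),
    ∃ Y' ∈ Mw (φ (!i)) π S fun N => π (c (!i) N), v = s • 1 + Y + (t • 1 + Y') * sym S P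
  have g1 : ∀ x v, G v → G (π x * v) := by
    rintro x _ ⟨s, t, Y, hY, Y', hY', rfl⟩
    obtain ⟨s', Z, hZ, e1⟩ := T.rep_mem x s hY
    obtain ⟨t', Z', hZ', e2⟩ := T.rep_mem x t hY'
    exact ⟨s', t', Z, hZ, Z', hZ', by rw [mul_add, ← mul_assoc, e1, e2]⟩
  have g2 : ∀ v, G v → G (sym S P * v) := by
    rintro _ ⟨s, t, Y, hY, Y', hY', rfl⟩
    refine ⟨t, s, _, T.sym_mem hY, _, T.sym_mem hY', ?_⟩
    simp only [mul_add, add_mul, mul_smul_comm, smul_mul_assoc, one_mul, mul_one, T.sym_sq,
      mul_assoc]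
    abel
  have g3 : ∀ v v', G v → G v' → G (v + v') := by
    rintro _ _ ⟨s, t, Y, hY, Y', hY', rfl⟩ ⟨s', t', Z, hZ, Z', hZ', rfl⟩
    refine ⟨s + s', t + t', _, add_mem hY hZ, _, add_mem hY' hZ', ?_⟩
    simp only [add_mul, add_smul]
    abel
  have key : ∀ v, G v → G (w * v) ∧ G (star w * v) := by
    induction hw using StarAlgebra.adjoin_induction with
    | mem x hx =>
      rcases hx with rfl | ⟨x, rfl⟩
      · exact fun v hv => ⟨g2 v hv, T.sym_star.symm ▸ g2 v hv⟩
      · exact fun v hv => ⟨g1 x v hv, map_star π x ▸ g1 _ v hv⟩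
    | algebraMap r =>
      intro v hv
      rw [← AlgHomClass.commutes π r, ← map_star]
      exact ⟨g1 _ v hv, g1 _ v hv⟩
    | add x y _ _ hx hy =>
      intro v hv
      rw [star_add, add_mul, add_mul]
      exact ⟨g3 _ _ (hx v hv).1 (hy v hv).1, g3 _ _ (hx v hv).2 (hy v hv).2⟩
    | mul x y _ _ hx hy =>
      intro v hv
      rw [star_mul, mul_assoc, mul_assoc]
      exact ⟨(hx _ (hy v hv).1).1, (hy _ (hx v hv).2).2⟩
    | star x _ hx =>
      intro v hv
      rw [star_star]
      exact ⟨(hx v hv).2, (hx v hv).1⟩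
  obtain ⟨s, t, Y, hY, Y', hY', e⟩ := (key 1 ⟨1, 0, 0, zero_mem _, 0, zero_mem _, by simp⟩).1
  have z : ∀ j, (Mw (φ j) π S fun N => π (c j N)) ≤ Zz (fun N => π (c i N)) fun N => π (c j N) :=
    fun j => sup_le (Submodule.span_le.2 fun Y ⟨m, hm⟩ => T.wd_zz hm i) (T.lz_le i j)
  have z1 : t • 1 + Y' ∈ Zz (fun N => π (c i N)) fun N => π (c (!i) N) := by
    refine add_mem (Submodule.smul_mem _ _ ?_) (z _ hY')
    simpa only [mem_Zz, Function.comp_def, map_mul, map_zero, map_one] using
      ((cont_rep π).tendsto _).comp (T.ch.disj i 1)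
  have z2 : (t • 1 + Y') * sym S P ∈ Zz (fun N => π (c i N)) fun N => π (c i N) :=
    tendsto_of_le z1 4 fun N => by
      have e : π (c i (N + 4)) * ((t • 1 + Y') * sym S P) * π (c i (N + 4)) = π (c i (N + 4)) *
          (π (c i N) * (t • 1 + Y') * π (c (!i) N)) * (sym S P * π (c i (N + 4))) := by
        have a1 := T.int i N
        have a2 := (T.lt i (show N < N + 4 by omega)).1
        simp only [mul_assoc] at a1 ⊢
        rw [← a1, ← mul_assoc _ (π (c i N)), a2]
      beta_reduce
      rw [e]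
      exact norm_mul3 _ (T.nl _ _) ((norm_mul_le _ _).trans
        (mul_le_one₀ T.sym_norm (norm_nonneg _) (T.nl _ _)))
  refine ⟨s, ?_⟩
  rw [mul_one] at e
  rw [e, add_assoc, add_sub_cancel_left]
  exact add_mem (z i hY) z2

end Toep

end Pool.Agent.P.MP_8219a1_an.G
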