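import Pool.Agent.P.MP_8219a1_an.G.Char

set_option autoImplicit false

open scoped ComplexOrder
open Filter Topology

noncomputable section

namespace Pool.Agent.P.MP_8219a1_an.G

/-- A Cuntz family together with projections onto sets of first letters. -/
structure XData (L M A : Type*) [CStarAlgebra A] where
  s : L → A
  e : M → A
  iso : ∀ i, star (s i) * s i = 1
  orth : ∀ i j, i ≠ j → star (s i) * s j = 0
  e_proj : ∀ m, IsStarProjection (e m)
  e_mul : ∀ m n, ∃ k, e m * e n = e k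
  e_one : ∃ m, e m = 1
  e_s : ∀ m i, e m * s i = s i ∨ e m * s i = 0
  dense : Dense (StarAlgebra.adjoin ℂ (Set.range s ∪ Set.range e) : Set A)

namespace XData

variable {L M A : Type*} [CStarAlgebra A] (D : XData L M A)

/-- The span of the monomials. -/
def V : Submodule ℂ A :=
  Submodule.span ℂ {v | ∃ (μ ν : List L) (m : M), v = word D.s μ * (D.e m * star (word D.s ν))}

theorem mono_mem (μ ν : List L) (m : M) : word D.s μ * (D.e m * star (word D.s ν)) ∈ D.V :=
  Submodule.subset_span ⟨μ, ν, m, rfl⟩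

theorem mul_mem {a : A} (h : ∀ μ ν m, a * (word D.s μ * (D.e m * star (word D.s ν))) ∈ D.V)
    {v : A} (hv : v ∈ D.V) : a * v ∈ D.V := by
  have : D.V ≤ D.V.comap (LinearMap.mulLeft ℂ a) :=
    Submodule.span_le.2 fun _ ⟨μ, ν, m, e⟩ => e ▸ h μ ν m
  exact this hv

theorem dense_V : Dense (D.V : Set A) := by
  obtain ⟨o, ho⟩ := D.e_one
  have g1 : ∀ i, ∀ v ∈ D.V, D.s i * v ∈ D.V := fun i v => D.mul_mem fun μ ν m => by
    rw [← mul_assoc, ← word_cons]
    exact D.mono_mem _ _ _
  have g2 : ∀ i, ∀ v ∈ D.V, star (D.s i) * v ∈ D.V := fun i v => D.mul_mem fun μ ν m => by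
    cases μ with
    | nil =>
      rw [word_nil, one_mul, ← mul_assoc, ← (D.e_proj m).isSelfAdjoint.star_eq, ← star_mul]
      rcases D.e_s m i with e | e
      · simpa [e, ho, word_append] using D.mono_mem [] (ν ++ [i]) o
      · simp [e]
    | cons k μ =>
      rw [word_cons, mul_assoc, ← mul_assoc (star (D.s i))]
      by_cases e : i = k
      · rw [e, D.iso, one_mul]
        exact D.mono_mem _ _ _
      · simp [D.orth i k e]
  have g3 : ∀ n, ∀ v ∈ D.V, D.e n * v ∈ D.V := fun n v => D.mul_mem fun μ ν m => by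
    cases μ with
    | nil =>
      obtain ⟨k, e⟩ := D.e_mul n m
      simpa [← mul_assoc, e] using D.mono_mem [] ν k
    | cons k μ =>
      rw [word_cons, mul_assoc, ← mul_assoc (D.e n)]
      rcases D.e_s n k with e | e
      · rw [e]
        exact g1 k _ (D.mono_mem _ _ _)
      · simp [e]
  refine D.dense.mono fun a ha => ?_
  have key : ∀ v ∈ D.V, a * v ∈ D.V ∧ star a * v ∈ D.V := by
    induction ha using StarAlgebra.adjoin_induction with
    | mem x hx =>
      rcases hx with ⟨i, rfl⟩ | ⟨m, rfl⟩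
      · exact fun v hv => ⟨g1 i v hv, g2 i v hv⟩
      · exact fun v hv => ⟨g3 m v hv, (D.e_proj m).isSelfAdjoint.star_eq.symm ▸ g3 m v hv⟩
    | algebraMap r =>
      intro v hv
      rw [Algebra.algebraMap_eq_smul_one, star_smul, star_one, smul_mul_assoc, smul_mul_assoc,
        one_mul]
      exact ⟨Submodule.smul_mem _ _ hv, Submodule.smul_mem _ _ hv⟩
    | add x y _ _ hx hy =>
      intro v hv
      rw [star_add, add_mul, add_mul]
      exact ⟨add_mem (hx v hv).1 (hy v hv).1, add_mem (hx v hv).2 (hy v hv).2⟩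
    | mul x y _ _ hx hy =>
      intro v hv
      rw [star_mul, mul_assoc, mul_assoc]
      exact ⟨(hx _ (hy v hv).1).1, (hy _ (hx v hv).2).2⟩
    | star x _ hx =>
      intro v hv
      rw [star_star]
      exact ⟨(hx v hv).2, (hx v hv).1⟩
  simpa using (key 1 (by simpa [ho] using D.mono_mem [] [] o)).1

/-- Positive functionals that kill the range projections. -/
structure Vac (ρ : A →L[ℂ] ℂ) : Prop where
  pos : ∀ a, 0 ≤ ρ (star a * a)
  vac : ∀ i, ρ (D.s i * star (D.s i)) = 0

variable {D} {ρ σ : A →L[ℂ] ℂ}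

theorem Vac.left (h : D.Vac ρ) (i : L) (y : A) : ρ (D.s i * y) = 0 := by
  simpa using (cs_zero ρ h.pos (star (D.s i)) (by simpa using h.vac i) y).2

theorem Vac.right (h : D.Vac ρ) (i : L) (y : A) : ρ (y * star (D.s i)) = 0 := by
  simpa using (cs_zero ρ h.pos (star (D.s i)) (by simpa using h.vac i) (star y)).1

theorem Vac.ext (h : D.Vac ρ) (h' : D.Vac σ) (e : ∀ m, ρ (D.e m) = σ (D.e m)) : ρ = σ := by
  refine ContinuousLinearMap.ext_on D.dense_V ?_
  rintro _ ⟨_ | ⟨k, μ⟩, _ | ⟨l, ν⟩, m, rfl⟩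
  · simpa using e m
  · simp only [word_cons, star_mul, ← mul_assoc, h.right, h'.right]
  · simp only [word_cons, mul_assoc, h.left, h'.left]
  · simp only [word_cons, mul_assoc, h.left, h'.left]

theorem Vac.pure (h : D.Vac ρ) (hs : St ρ) (e : ∀ m, ρ (D.e m) = 0 ∨ ρ (D.e m) = 1) :
    IsPureState ρ := by
  rw [IsPureState, mem_extremePoints_iff_left]
  refine ⟨hs.isState, ?_⟩
  rintro τ hτ σ hσ ⟨a, b, ha, hb, hab, h1⟩
  have h2 : ∀ x, a • τ x + b • σ x = ρ x := fun x => congrArg (fun f : A →L[ℂ] ℂ => f x) h1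
  have h3 : ∀ x, ρ (star x * x) = 0 → τ (star x * x) = 0 := fun x hx =>
    eq_zero_of_convex (hτ.1 x) (hσ.1 x) ha hb ((h2 _).trans hx)
  refine Vac.ext ⟨hτ.1, fun i => ?_⟩ h fun m => ?_
  · simpa using h3 (star (D.s i)) (by simpa using h.vac i)
  · have p := D.e_proj m
    rcases e m with e | e
    · have := h3 (D.e m)
      rw [p.isSelfAdjoint.star_eq, p.isIdempotentElem.eq] at this
      rw [e, this e]
    · rw [e]
      exact eq_one_of_convex (norm_apply_le_one hτ.2.le p.norm_le)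
        (norm_apply_le_one hσ.2.le p.norm_le) ha hb hab ((h2 _).trans e)

variable {J : Type*} {l : Filter J} {t : J → L}

theorem Vac.lim (h : D.Vac ρ) (ht : Tendsto t l cofinite)
    (e : ∀ m, ∀ᶠ j in l, D.e m * D.s (t j) = ρ (D.e m) • D.s (t j)) (x : A) :
    Tendsto (fun j => star (D.s (t j)) * x * D.s (t j)) l (𝓝 (ρ x • 1)) := by
  have key : ∀ v ∈ D.V, ∀ᶠ j in l, star (D.s (t j)) * v * D.s (t j) = ρ v • 1 := fun v hv => by
    induction hv using Submodule.span_induction with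
    | mem x hx =>
      obtain ⟨_ | ⟨k, μ⟩, ν, m, rfl⟩ := hx
      · rcases ν with _ | ⟨k, ν⟩
        · filter_upwards [e m] with j hj
          simp [mul_assoc, hj, D.iso]
        · filter_upwards [ht (eventually_cofinite_ne k)] with j hj
          simp only [word_cons, star_mul, ← mul_assoc, h.right, zero_smul]
          rw [mul_assoc, D.orth k _ (Ne.symm hj), mul_zero]
      · filter_upwards [ht (eventually_cofinite_ne k)] with j hj
        simp only [word_cons, mul_assoc, h.left, zero_smul]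
        rw [← mul_assoc, D.orth _ k hj, zero_mul]
    | zero => simp
    | add x y _ _ hx hy =>
      filter_upwards [hx, hy] with j h1 h2
      rw [mul_add, add_mul, h1, h2, map_add, add_smul]
    | smul c x _ hx =>
      filter_upwards [hx] with j h1
      rw [mul_smul_comm, smul_mul_assoc, h1, map_smul, smul_eq_mul, mul_smul]
  refine Metric.tendsto_nhds.2 fun ε hε => ?_
  have hc : Continuous fun v => ‖x - v‖ + ‖ρ v • (1 : A) - ρ x • 1‖ := by fun_prop
  obtain ⟨v, v1, v2⟩ := D.dense_V.inter_open_nonempty _ (isOpen_lt hc continuous_const)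
    ⟨x, show _ < ε by simpa using hε⟩
  filter_upwards [key v v2] with j hj
  have n := CuntzData.norm_le_one_of_iso (D.iso (t j))
  have e1 : star (D.s (t j)) * x * D.s (t j) - ρ x • 1 =
      star (D.s (t j)) * (x - v) * D.s (t j) + (ρ v • (1 : A) - ρ x • 1) := by
    rw [mul_sub, sub_mul, hj]
    abel
  rw [dist_eq_norm, e1]
  refine ((norm_add_le _ _).trans (add_le_add_left ?_ _)).trans_lt v1
  exact ((norm_mul_le _ _).trans (mul_le_of_le_one_right (norm_nonneg _) n)).trans
    ((norm_mul_le _ _).trans (mul_le_of_le_one_left (norm_nonneg _) (by rwa [norm_star])))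

theorem simple [l.NeBot] (hf : ∀ x, (∀ a b, ρ (a * x * b) = 0) → x = 0)
    (h : ∀ x, Tendsto (fun j => star (D.s (t j)) * x * D.s (t j)) l (𝓝 (ρ x • 1))) :
    IsSimpleCStar A := fun I _ => by
  refine (eq_or_ne I ⊥).imp_right fun h0 => ?_
  obtain ⟨x, hx, hx0⟩ : ∃ x ∈ I, x ≠ 0 := by
    by_contra h1
    push Not at h1
    exact h0 (eq_bot_iff.2 h1)
  obtain ⟨a, b, hab⟩ : ∃ a b, ρ (a * x * b) ≠ 0 := by
    by_contra h1
    push Not at h1
    exact hx0 (hf x h1)
  obtain ⟨j, u, hu⟩ := ((h (a * x * b)).eventually (Units.isOpen.mem_nhds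
    (isUnit_one.smul (Units.mk0 _ hab)))).exists
  refine TwoSidedIdeal.eq_top I ?_
  rw [← u.inv_mul, hu]
  exact I.mul_mem_left _ _ (I.mul_mem_right _ _ (I.mul_mem_left _ _
    (I.mul_mem_right _ _ (I.mul_mem_left _ _ hx))))

theorem exists_vac {ω : A →L[ℂ] ℂ} (hω : St ω) [l.NeBot] (ht : Tendsto t l cofinite) (z : M → ℂ)
    (e : ∀ m, ∀ᶠ j in l, D.e m * D.s (t j) = z m • D.s (t j)) :
    ∃ ρ, St ρ ∧ D.Vac ρ ∧ ∀ m, ρ (D.e m) = z m := by
  obtain ⟨ρ, r1, r2⟩ := (isCompact_Q A).exists_mapClusterPt (f := l)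
    (u := fun j => StrongDual.toWeakDual (compress ω (D.s (t j)))) (le_principal_iff.2
      (mem_map.2 (Eventually.of_forall fun j => ⟨compress_norm_le _ _ hω.norm_le
        (CuntzData.norm_le_one_of_iso (D.iso _)), compress_pos _ _ hω.pos⟩)))
  have key : ∀ x (c : ℂ), (∀ᶠ j in l, star (D.s (t j)) * x * D.s (t j) = c • 1) → ρ x = c :=
    fun x c h => (isClosed_eq (WeakDual.eval_continuous x) continuous_const).mem_of_mapClusterPt r2
      (h.mono fun j hj => by
        change compress ω _ x = c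
        rw [compress_apply, hj, map_smul, hω.one, smul_eq_mul, mul_one])
  refine ⟨WeakDual.toStrongDual ρ, ⟨r1.2, key 1 1 (.of_forall fun j => by simp [D.iso]), r1.1⟩,
    ⟨r1.2, fun i => key _ 0 ?_⟩, fun m => key _ _ ?_⟩
  · filter_upwards [ht (eventually_cofinite_ne i)] with j hj
    rw [← mul_assoc, D.orth _ i hj, zero_mul, zero_mul, zero_smul]
  · filter_upwards [e m] with j hj
    rw [mul_assoc, hj, mul_smul_comm, D.iso]

theorem countable_supp (hp : ∀ a, 0 ≤ ρ (star a * a)) (hn : ‖ρ‖ ≤ 1) :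
    {i | ρ (D.s i * star (D.s i)) ≠ 0}.Countable := by
  classical
  have h0 : ∀ i, 0 ≤ ρ (D.s i * star (D.s i)) := fun i => by simpa using hp (star (D.s i))
  have hs : Summable fun i => (ρ (D.s i * star (D.s i))).re :=
    summable_of_sum_le (c := 1) (fun i => (h0 i).1) fun F => by
      rw [← Complex.re_sum, ← map_sum]
      refine (Complex.re_le_norm _).trans (norm_apply_le_one hn (IsStarProjection.norm_le _
        ⟨?_, by simp [IsSelfAdjoint, star_sum]⟩))
      rw [IsIdempotentElem, Finset.sum_mul_sum]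
      refine Finset.sum_congr rfl fun i hi => ?_
      rw [Finset.sum_eq_single_of_mem i hi fun j _ hj => ?_, mul_assoc, ← mul_assoc (star _), D.iso,
        one_mul]
      rw [mul_assoc, ← mul_assoc (star _), D.orth i j hj.symm, zero_mul, mul_zero]
  exact hs.countable_support.mono fun i hi h => hi (Complex.ext h (h0 i).2.symm)

/-- The obstruction: one state is a limit of sequences, the other one is not. -/
theorem no_ext {Ω : Type*} [LinearOrder Ω] [Nonempty Ω]
    (hΩ : ∀ s : Set Ω, s.Countable → ∃ β, ∀ γ ∈ s, γ < β) {φ ψ : A →L[ℂ] ℂ} (hφ : St φ)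
    (vφ : D.Vac φ) (hψ : St ψ) {k : A} (hd : ∀ ρ, St ρ → D.Vac ρ → ρ k = φ k → ρ = φ) {t : Ω → L}
    (h : ∀ x, Tendsto (fun j => star (D.s (t j)) * x * D.s (t j)) atTop (𝓝 (ψ x • 1)))
    (f : Ω → A) (f0 : ∀ β, ψ (f β) = 0) (f1 : ∀ β, ∀ γ < β, f β * D.s (t γ) = D.s (t γ))
    {B : Type*} [NonUnitalCStarAlgebra B] (ι : A →⋆ₙₐ[ℂ] B) {φ' ψ' : B →L[ℂ] ℂ}
    (e1 : IsUniqueStateExtension ι φ φ') (e2 : IsUniqueStateExtension ι ψ ψ')
    (α : B ≃⋆ₐ[ℂ] B) (hα : ∀ b, φ' b = ψ' (α b)) : False := by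
  let τ : Ω → B →L[ℂ] ℂ := fun j => compress ψ' (ι (D.s (t j)))
  have t1 : ∀ j, ‖τ j‖ ≤ 1 := fun j => compress_norm_le _ _ e2.1.2.le
    ((NonUnitalStarAlgHom.norm_apply_le ι _).trans (CuntzData.norm_le_one_of_iso (D.iso _)))
  have t2 : ∀ j b, 0 ≤ τ j (star b * b) := fun j => compress_pos _ _ e2.1.1
  have t3 : ∀ j a, τ j (ι a) = ψ (star (D.s (t j)) * a * D.s (t j)) := fun j a => by
    rw [← e2.2.1, map_mul ι, map_mul ι, map_star ι]
    exact compress_apply _ _ _
  have t4 := tendsto_of_det (l := atTop) ι (φ := ψ') (fun ρ r1 r2 r3 =>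
    have r4 := fun a => (r3 a).trans (e2.2.1 a)
    e2.2.2 ρ (isState_of_ext hψ.isState r2 r1 r4) r4) t1 t2 fun a => by
      simpa [t3, e2.2.1, hψ.one, Function.comp_def] using (ψ.continuous.tendsto _).comp (h a)
  let σ : Ω → B →L[ℂ] ℂ := fun j => res (α : B →⋆ₙₐ[ℂ] B) (τ j)
  have s1 : ∀ j, ‖σ j‖ ≤ 1 := fun j => (res_norm _ _).trans (t1 j)
  have s2 : ∀ j b, 0 ≤ σ j (star b * b) := fun j => res_pos _ (t2 j)
  have s3 : ∀ b, ∃ β, ∀ j, β < j → σ j b = φ' b := fun b => by
    choose g hg using fun n : ℕ => eventually_atTop.1 (Metric.tendsto_nhds.1 (t4 (α b)) _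
      (Nat.one_div_pos_of_nat (n := n)))
    obtain ⟨β, hβ⟩ := hΩ _ (Set.countable_range g)
    refine ⟨β, fun j hj => dist_le_zero.1 (ge_of_tendsto' tendsto_one_div_add_atTop_nhds_zero_nat
      fun n => ?_)⟩
    rw [hα]
    exact (hg n j ((hβ _ ⟨n, rfl⟩).trans hj).le).le
  choose g hg using s3
  choose nx hnx using fun j => hΩ _ (((countable_supp (D := D) (res_pos ι (s2 j))
    ((res_norm _ _).trans (s1 j))).image fun i => g (ι (D.s i * star (D.s i)))).insert j)
  let j : ℕ → Ω := fun n => nx^[n] (nx (max (g (ι 1)) (g (ι k))))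
  have hj : ∀ n, j (n + 1) = nx (j n) := fun n => Function.iterate_succ_apply' _ _ _
  have hm : StrictMono j := strictMono_nat_of_lt_succ fun n => hj n ▸ hnx _ _ (.inl rfl)
  have h0 : ∀ n, max (g (ι 1)) (g (ι k)) < j n := fun n =>
    (hnx _ _ (.inl rfl)).trans_le (hm.monotone n.zero_le)
  obtain ⟨β, hβ⟩ := hΩ _ (Set.countable_range j)
  have key := tendsto_of_det (l := atTop) (φ := φ') (τ := fun n => σ (j n))
    (fun o : Option (Option L) => ι (o.elim 1 fun o => o.elim k fun i => D.s i * star (D.s i)))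
    (fun ρ r1 r2 r3 => by
      have r4 : res ι ρ = φ := hd _ ⟨res_pos ι r2, (r3 none).trans ((e1.2.1 _).trans hφ.one),
        (res_norm _ _).trans r1⟩ ⟨res_pos ι r2, fun i =>
          (r3 (some (some i))).trans ((e1.2.1 _).trans (vφ.vac i))⟩
        ((r3 (some none)).trans (e1.2.1 _))
      have r5 := fun a => DFunLike.congr_fun r4 a
      exact e1.2.2 ρ (isState_of_ext hφ.isState r2 r1 r5) r5)
    (fun n => s1 _) (fun n => s2 _) (by
      rintro (_ | _ | i)
      · exact tendsto_const_nhds.congr fun n => (hg _ _ ((le_max_left _ _).trans_lt (h0 n))).symm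
      · exact tendsto_const_nhds.congr fun n => (hg _ _ ((le_max_right _ _).trans_lt (h0 n))).symm
      · by_cases c : ∃ n, σ (j n) (ι (D.s i * star (D.s i))) ≠ 0
        · obtain ⟨n, c⟩ := c
          refine tendsto_const_nhds.congr' ((eventually_gt_atTop n).mono fun m hm' =>
            (hg _ _ ((hnx (j n) _ (.inr ⟨i, c, rfl⟩)).trans_le ?_)).symm)
          exact hj n ▸ hm.monotone hm'
        · push Not at c
          exact tendsto_const_nhds.congr fun n =>
            ((e1.2.1 _).trans (vφ.vac i)).trans (c n).symm) (α.symm (ι (f β)))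
  have v : ∀ n, σ (j n) (α.symm (ι (f β))) = 1 := fun n => by
    change τ (j n) (α (α.symm _)) = 1
    rw [α.apply_symm_apply, t3, mul_assoc, f1 β _ (hβ _ ⟨n, rfl⟩), D.iso, hψ.one]
  simp [v, hα, e2.2.1, f0] at key

end XData

end Pool.Agent.P.MP_8219a1_an.G
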