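import Pool.Agent.P.MP_8219a1_an.Fock
import Pool.Agent.P.MP_8219a1_an.G.XData
import Pool.Agent.P.MP_8219a1_an.G.KT

set_option autoImplicit false

open scoped ComplexOrder InnerProductSpace
open Filter Topology Cardinal

noncomputable section

namespace Pool.Agent.P.MP_8219a1_an.G

variable {L M : Type}

/-- The projection onto the words whose first letter lies in `W`. -/
def pr (W : Set (Option L)) : Fock L →L[ℂ] Fock L :=
  (Submodule.span ℂ (dl '' {w : List L | w.head? ∉ W}))ᗮ.starProjection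

open Classical in
theorem pr_dl (W : Set (Option L)) (w : List L) :
    pr W (dl w) = if w.head? ∈ W then dl w else 0 := by
  split_ifs with h
  · refine Submodule.starProjection_eq_self_iff.2 ((Submodule.mem_orthogonal _ _).2 fun u hu => ?_)
    have : Submodule.span ℂ (dl '' {w : List L | w.head? ∉ W}) ≤ (ℂ ∙ dl w)ᗮ :=
      Submodule.span_le.2 (by
        rintro _ ⟨v, hv, rfl⟩
        rw [SetLike.mem_coe, Submodule.mem_orthogonal_singleton_iff_inner_left, inner_dl,
          if_neg fun e : v = w => hv (e ▸ h)])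
    exact Submodule.mem_orthogonal_singleton_iff_inner_left.1 (this hu)
  · exact (Submodule.starProjection_apply_eq_zero_iff _).2
      (Submodule.le_orthogonal_orthogonal _ (Submodule.subset_span ⟨w, h, rfl⟩))

open Classical in
theorem exists_xdata (W : M → Set (Option L)) (h1 : ∀ m n, ∃ k, W m ∩ W n = W k)
    (h2 : ∃ m, W m = Set.univ) : ∃ (A : Type) (_ : CStarAlgebra A) (D : XData L M A)
      (ω : A →L[ℂ] ℂ), St ω ∧ D.Vac ω ∧ (∀ x, (∀ a b, ω (a * x * b) = 0) → x = 0) ∧
      (∀ m, ω (D.e m) = if none ∈ W m then 1 else 0) ∧ (∀ m, W m = Set.univ → D.e m = 1) ∧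
      (∀ m n, (∀ o ∈ W m, o ∉ W n) → D.e m * D.e n = 0) ∧
      ∀ m i, D.e m * D.s i = (if some i ∈ W m then 1 else 0 : ℂ) • D.s i := by
  let s := StarAlgebra.adjoin ℂ (Set.range (cr (κ := L)) ∪ Set.range fun m => pr (W m))
  let C := s.topologicalClosure
  have := s.isClosed_topologicalClosure
  let _ := CStarAlgebra.spectralOrder C
  have _ := CStarAlgebra.spectralOrderedRing C
  let g : L → C := fun i =>
    ⟨cr i, s.le_topologicalClosure (StarAlgebra.subset_adjoin _ _ (.inl ⟨i, rfl⟩))⟩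
  let e : M → C := fun m =>
    ⟨pr (W m), s.le_topologicalClosure (StarAlgebra.subset_adjoin _ _ (.inr ⟨m, rfl⟩))⟩
  have es : ∀ m i, e m * g i = (if some i ∈ W m then 1 else 0 : ℂ) • g i := fun m i =>
    Subtype.ext (ext_dl fun w => by
      change pr (W m) (cr i (dl w)) = (if some i ∈ W m then 1 else 0 : ℂ) • cr i (dl w)
      rw [cr_dl, pr_dl]
      by_cases a : some i ∈ W m <;> simp [a])
  have hw : ∀ μ, ((word g μ : C) : Fock L →L[ℂ] Fock L) (dl []) = dl μ := fun μ => by
    induction μ with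
    | nil => rfl
    | cons i μ ih => exact (congrArg (cr i) ih).trans (cr_dl i μ)
  have hv : ∀ a b : C, vec C.subtype (dl []) (dl []) (star a * b) =
      ⟪(a : Fock L →L[ℂ] Fock L) (dl []), (b : Fock L →L[ℂ] Fock L) (dl [])⟫_ℂ := fun a b =>
    inner_star_mul C.subtype _ _ a b
  have e1 : ∀ m, W m = Set.univ → e m = 1 := fun m hm => Subtype.ext (ext_dl fun w => by
    change pr (W m) (dl w) = dl w
    simp [pr_dl, hm])
  have hs := st_vec C.subtype (norm_dl ([] : List L))
  refine ⟨C, inferInstance, ⟨g, e, fun i => Subtype.ext (cr_iso i),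
    fun i j h => Subtype.ext (cr_orth i j h), fun m =>
      ⟨Subtype.ext (Submodule.isIdempotentElem_starProjection _),
        Subtype.ext (isSelfAdjoint_starProjection _)⟩, fun m n => ?_, h2.imp e1, fun m i => ?_,
      ?_⟩, _, hs, ⟨hs.pos, fun i => ?_⟩, fun x hx => ?_, fun m => ?_, e1,
    fun m n h => Subtype.ext (ext_dl fun w => ?_), es⟩
  · obtain ⟨k, hk⟩ := h1 m n
    refine ⟨k, Subtype.ext (ext_dl fun w => ?_)⟩
    change pr (W m) (pr (W n) (dl w)) = pr (W k) (dl w)
    rw [← hk, pr_dl, pr_dl]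
    by_cases a : w.head? ∈ W m <;> by_cases b : w.head? ∈ W n <;> simp [a, b, pr_dl]
  · rw [es]
    split_ifs <;> simp
  · refine Subtype.dense_iff.2 (closure_mono ?_)
    change s ≤ StarSubalgebra.map C.subtype (StarAlgebra.adjoin ℂ (Set.range g ∪ Set.range e))
    rw [StarAlgHom.map_adjoin, Set.image_union, ← Set.range_comp, ← Set.range_comp]
    exact le_rfl
  · have := hv (star (g i)) (star (g i))
    rw [star_star] at this
    exact this.trans ((congrArg₂ _ (star_cr_nil i) rfl).trans (inner_zero_left _))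
  · refine Subtype.ext (op_ext_dl fun v w => ?_)
    have := hx (star (word g v)) (word g w)
    rw [mul_assoc, hv, hw] at this
    rw [← hw w]
    exact this.trans (inner_zero_right _).symm
  · change ⟪dl [], pr (W m) (dl [])⟫_ℂ = _
    rw [pr_dl]
    by_cases a : none ∈ W m <;> simp [a, norm_dl]
  · change pr (W m) (pr (W n) (dl w)) = 0
    rw [pr_dl]
    split_ifs with a
    · rw [pr_dl, if_neg fun b => h _ b a]
    · exact map_zero _

theorem exists_omega : ∃ (Ω : Type) (_ : LinearOrder Ω) (_ : OrderBot Ω), #Ω = ℵ₁ ∧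
    ∀ s : Set Ω, s.Countable → ∃ β, ∀ γ ∈ s, γ < β := by
  refine ⟨(ℵ₁ : Cardinal.{0}).ord.ToType, inferInstance, Ordinal.toTypeOrderBot (by simp [(Ordinal.omega_pos 1).ne']),
    mk_ord_toType _, fun s hs => not_isCofinal_iff.1 fun h => ?_⟩
  have := Order.cof_le h
  rw [Ordinal.cof_toType, isRegular_aleph_one.cof_ord] at this
  exact ((countable_iff_lt_aleph_one s).1 hs).not_ge this

/-- The sets of first letters. -/
def sets (K Ω : Type) [LinearOrder Ω] : Bool ⊕ Ω → Set (Option (K × Bool ⊕ Ω))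
  | .inl true => Set.univ
  | .inl false => {o | ∃ k, o = some (.inl (k, true))}
  | .inr β => {o | ∃ γ < β, o = some (.inr γ)}

universe u

theorem exists_equal {K : Type} (hK : ℵ₀ < #K) :
    ∃ (A : Type) (_ : CStarAlgebra A), IsSimpleCStar A ∧
      ∃ φ ψ : A →L[ℂ] ℂ, IsPureState φ ∧ IsPureState ψ ∧ stateChar φ = #K ∧ stateChar ψ = #K ∧
        ∀ (B : Type u) [NonUnitalCStarAlgebra B] (ι : A →⋆ₙₐ[ℂ] B),
          ¬ ∃ φ' ψ' : B →L[ℂ] ℂ, IsUniqueStateExtension ι φ φ' ∧ IsUniqueStateExtension ι ψ ψ' ∧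
            ∃ α : B ≃⋆ₐ[ℂ] B, ∀ b : B, φ' b = ψ' (α b) := by
  classical
  obtain ⟨Ω, _, _, o1, o2⟩ := exists_omega
  have : Infinite K := infinite_iff.2 hK.le
  have : NoMaxOrder Ω := ⟨fun a => (o2 {a} (Set.countable_singleton a)).imp fun _ h => h a rfl⟩
  obtain ⟨A, _, D, ψ, w1, w2, w3, w4, w6, w7, w5⟩ := exists_xdata (sets K Ω) (by
    rintro ((_ | _) | β) ((_ | _) | γ)
    · exact ⟨.inl false, Set.inter_self _⟩
    · exact ⟨.inl false, Set.inter_univ _⟩
    · exact ⟨.inr ⊥, by ext; simp +contextual [sets]⟩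
    · exact ⟨.inl false, Set.univ_inter _⟩
    · exact ⟨.inl true, Set.univ_inter _⟩
    · exact ⟨.inr γ, Set.univ_inter _⟩
    · exact ⟨.inr ⊥, by ext; simp +contextual [sets]⟩
    · exact ⟨.inr β, Set.inter_univ _⟩
    · refine ⟨.inr (min β γ), Set.ext fun o => ⟨?_, ?_⟩⟩
      · rintro ⟨⟨a, h1, rfl⟩, b, h2, e⟩
        cases e
        exact ⟨a, lt_min h1 h2, rfl⟩
      · rintro ⟨a, h, rfl⟩
        exact ⟨⟨a, h.trans_le (min_le_left _ _), rfl⟩, a, h.trans_le (min_le_right _ _), rfl⟩)
    ⟨.inl true, rfl⟩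
  let _ := CStarAlgebra.spectralOrder A
  have _ := CStarAlgebra.spectralOrderedRing A
  have ti : ∀ b : Bool, Tendsto (fun k : K => (.inl (k, b) : K × Bool ⊕ Ω)) cofinite cofinite :=
    fun b => Function.Injective.tendsto_cofinite fun _ _ e => by simpa using e
  obtain ⟨φ, p1, p2, p3⟩ := XData.exists_vac (D := D) w1 (ti true)
    (fun m => if m.isLeft then 1 else 0) fun m => .of_forall fun k => by
      rcases m with (_ | _) | β <;> simp [w5, sets]
  have l1 := p2.lim (ti true) fun m => .of_forall fun k => by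
    rcases m with (_ | _) | β <;> simp [w5, p3, sets]
  have l2 := w2.lim (ti false) fun m => .of_forall fun k => by
    rcases m with (_ | _) | β <;> simp [w5, w4, sets]
  have l3 := w2.lim (l := atTop) (t := .inr)
    (Sum.inr_injective.tendsto_cofinite.mono_left atTop_le_cofinite) fun m => by
      rcases m with (_ | _) | β
      · simp [w5, w4, sets]
      · simp [w5, w4, sets]
      · filter_upwards [eventually_ge_atTop β] with γ h
        simp [w5, w4, sets, h.not_gt]
  have ch : ∀ (ρ : A →L[ℂ] ℂ) (b : Bool), D.Vac ρ → (∀ x, Tendsto (fun k : K =>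
      star (D.s (.inl (k, b))) * x * D.s (.inl (k, b))) cofinite (𝓝 (ρ x • 1))) →
      stateChar ρ = #K := fun ρ b v h => by
    refine le_antisymm ((stateChar_le (Sum.elim D.e fun i => D.s i * star (D.s i))
      fun σ s1 s2 => XData.Vac.ext ⟨s1.pos, fun i => (s2 (.inr i)).trans (v.vac i)⟩ v
        fun m => s2 (.inl m)).trans ?_)
      (le_stateChar hK (fun k => compress ψ (D.s (.inl (k, b))))
        (fun k => St.isState ⟨compress_pos _ _ w1.pos, by simp [compress_apply, D.iso, w1.one],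
          compress_norm_le _ _ w1.norm_le (CuntzData.norm_le_one_of_iso (D.iso _))⟩)
        (fun k e => ?_) fun a => ?_)
    · have h1 : ℵ₁ ≤ #K := aleph_one_le_iff.2 hK
      have h2 : (2 : Cardinal) ≤ #K := (nat_lt_aleph0 2).le.trans hK.le
      simp only [mk_sum, mk_prod, lift_id, mk_bool, o1]
      refine add_le_of_le hK.le (add_le_of_le hK.le h2 h1) (add_le_of_le hK.le ?_ h1)
      exact (mul_le_mul_right h2 _).trans (mul_eq_self hK.le).le
    · have := v.vac (.inl (k, b))
      rw [← e, compress_apply, ← mul_assoc, D.iso, one_mul, D.iso, w1.one] at this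
      exact one_ne_zero this
    · simpa [compress_apply, w1.one, Function.comp_def] using (ψ.continuous.tendsto _).comp (h a)
  refine ⟨A, inferInstance, XData.simple w3 l2, φ, ψ,
    p2.pure p1 fun m => by rw [p3]; split_ifs <;> simp,
    w2.pure w1 fun m => by rw [w4]; split_ifs <;> simp, ch φ true p2 l1, ch ψ false w2 l2, ?_⟩
  rintro B _ ι ⟨φ', ψ', e1, e2, α, hα⟩
  refine XData.no_ext o2 p1 p2 w1 (k := D.e (.inl false)) (fun ρ r1 r2 r3 => r2.ext p2 ?_) l3
    (fun β => D.e (.inr β)) (fun β => by simp [w4, sets]) (fun β γ h => by simp [w5, sets, h])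
    ι e1 e2 α hα
  rintro ((_ | _) | β)
  · exact r3
  · rw [w6 _ rfl, r1.one, p1.one]
  · rw [← r1.mul_left (D.e_proj _).norm_le (r3.trans (p3 _)), w7 _ _ (by simp [sets]), map_zero, p3]
    rfl

end Pool.Agent.P.MP_8219a1_an.G
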